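import Mathlib

open MeasureTheory Set Filter Topology FourierTransform SchwartzMap
open scoped ENNReal ContDiff InnerProductSpace Real

namespace Pool.Agent.H51.Maxi

variable {E : Type*} [NormedAddCommGroup E] [InnerProductSpace ℝ E] [FiniteDimensional ℝ E]
  [MeasurableSpace E] [BorelSpace E]

/-- Fubini for the Fourier transform. -/
theorem fourier_flip {f g : E → ℂ} (hf : Integrable f) (hg : Integrable g) :
    ∫ ξ, 𝓕 f ξ * g ξ = ∫ x, f x * 𝓕 g x := by
  have h := VectorFourier.integral_fourierIntegral_smul_eq_flip (L := innerₗ E)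
    (e := Real.fourierChar) Real.continuous_fourierChar (by exact continuous_inner) hf hg
  simp only [smul_eq_mul] at h
  have hL : (innerₗ E).flip = innerₗ E := by
    ext x y
    simp [real_inner_comm]
  rw [hL] at h
  exact h

/-- For `f ∈ L¹ ∩ L²` the `L²` Fourier transform is the Fourier integral. -/
theorem fourier_toLp_ae {f : E → ℂ} (h1 : Integrable f) (h2 : MemLp f 2) :
    ((𝓕 (h2.toLp f) : Lp ℂ 2 (volume : Measure E)) : E → ℂ) =ᵐ[volume] 𝓕 f := by
  apply ae_eq_of_integral_contDiff_smul_eq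
  · exact (Lp.memLp _).locallyIntegrable (by norm_num)
  · have : Continuous (𝓕 f) :=
      VectorFourier.fourierIntegral_continuous (Real.continuous_fourierChar)
        (by exact continuous_inner) h1
    exact this.locallyIntegrable
  · intro g hg hgc
    have hgc' : HasCompactSupport (fun x => (g x : ℂ)) := hgc.comp_left Complex.ofReal_zero
    have hg' : ContDiff ℝ ∞ (fun x => (g x : ℂ)) := Complex.ofRealCLM.contDiff.comp hg
    set φ : 𝓢(E, ℂ) := hgc'.toSchwartzMap hg' with hφ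
    have hφx : ∀ x, φ x = (g x : ℂ) := fun x => rfl
    have e1 : ∫ x, g x • (𝓕 (h2.toLp f) : Lp ℂ 2 (volume : Measure E)) x =
        (Lp.toTemperedDistribution (𝓕 (h2.toLp f))) φ := by
      rw [Lp.toTemperedDistribution_apply]
      simp only [hφx, smul_eq_mul, Complex.real_smul]
    rw [e1, ← Lp.fourier_toTemperedDistribution_eq, TemperedDistribution.fourier_apply,
      Lp.toTemperedDistribution_apply]
    have e2 : ∫ x, (𝓕 φ) x • (h2.toLp f) x = ∫ x, 𝓕 (φ : E → ℂ) x * f x := by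
      apply integral_congr_ae
      filter_upwards [h2.coeFn_toLp] with x hx
      rw [hx, smul_eq_mul, SchwartzMap.fourier_coe]
    rw [e2, fourier_flip φ.integrable h1]
    simp only [hφx, Complex.real_smul]

/-- Plancherel for `L¹ ∩ L²`. -/
theorem memLp_fourier {f : E → ℂ} (h1 : Integrable f) (h2 : MemLp f 2) : MemLp (𝓕 f) 2 :=
  (memLp_congr_ae (fourier_toLp_ae h1 h2)).1 (Lp.memLp _)

theorem eLpNorm_fourier {f : E → ℂ} (h1 : Integrable f) (h2 : MemLp f 2) :
    eLpNorm (𝓕 f) 2 volume = eLpNorm f 2 volume := by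
  rw [← eLpNorm_congr_ae (fourier_toLp_ae h1 h2)]
  have h := Lp.norm_fourier_eq (h2.toLp f)
  rw [Lp.norm_def, Lp.norm_def] at h
  have h' := (ENNReal.toReal_eq_toReal_iff' (Lp.eLpNorm_ne_top _) (Lp.eLpNorm_ne_top _)).1 h
  rw [h']
  exact eLpNorm_congr_ae h2.coeFn_toLp

theorem lintegral_fourier_sq {f : E → ℂ} (h1 : Integrable f) (h2 : MemLp f 2) :
    ∫⁻ ξ, ‖𝓕 f ξ‖ₑ ^ 2 = ∫⁻ x, ‖f x‖ₑ ^ 2 := by
  have h := eLpNorm_fourier h1 h2
  rw [eLpNorm_eq_lintegral_rpow_enorm_toReal (by norm_num) (by norm_num),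
    eLpNorm_eq_lintegral_rpow_enorm_toReal (by norm_num) (by norm_num)] at h
  simp only [ENNReal.toReal_ofNat, ENNReal.rpow_ofNat] at h
  have := congrArg (fun x : ℝ≥0∞ => x ^ (2 : ℝ)) h
  beta_reduce at this
  rw [← ENNReal.rpow_mul, ← ENNReal.rpow_mul] at this
  norm_num at this
  exact this

theorem integral_fourier_sq {f : E → ℂ} (h1 : Integrable f) (h2 : MemLp f 2) :
    ∫ ξ, ‖𝓕 f ξ‖ ^ 2 = ∫ x, ‖f x‖ ^ 2 := by
  have m1 : AEStronglyMeasurable (fun ξ => ‖𝓕 f ξ‖ ^ 2) volume := (memLp_fourier h1 h2).1.norm.pow 2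
  have m2 : AEStronglyMeasurable (fun ξ => ‖f ξ‖ ^ 2) volume := h2.1.norm.pow 2
  rw [integral_eq_lintegral_of_nonneg_ae (Eventually.of_forall fun _ => by positivity) m1,
    integral_eq_lintegral_of_nonneg_ae (Eventually.of_forall fun _ => by positivity) m2]
  have := lintegral_fourier_sq h1 h2
  simp only [ENNReal.ofReal_pow (norm_nonneg _), ofReal_norm]
  rw [this]

end Pool.Agent.H51.Maxi
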