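import Pool.Agent.H51.Maxi.Ball

open MeasureTheory Set Filter Topology FourierTransform
open scoped ENNReal Real InnerProductSpace Interval ComplexConjugate

namespace Pool.Agent.H51.Maxi

variable {n : ℕ}

/-- The amplitude at infinity satisfies `2π v |a0| ≤ 1`. -/
theorem a0_bound {a0 : ℂ} (ha0 : Tendsto (Bal ((n : ℝ) / 2)) atTop (𝓝 a0)) :
    4 * π ^ 2 * (vn n * ‖a0‖) ^ 2 ≤ 1 := by
  set m : ℝ := (n : ℝ) / 2 with hm
  have hm0 : 0 ≤ m := by positivity
  have hlam : Tendsto (fun u : ℝ => 1 / u) (𝓝[>] 0) atTop := by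
    simpa using tendsto_inv_nhdsGT_zero
  have hu01 : ∀ᶠ u : ℝ in 𝓝[>] 0, u ∈ Ioo (0 : ℝ) (1 / 2) := Ioo_mem_nhdsGT (by norm_num)
  have hcontw : ContinuousOn (fun τ : ℝ => τ ^ (-2 : ℝ)) (Ioi 0) := by
    intro τ hτ
    exact (Real.continuousAt_rpow_const _ _ (Or.inl (ne_of_gt hτ))).continuousWithinAt
  have hcA : ∀ u ∈ Ioo (0 : ℝ) 1, ContinuousOn (fun τ => Bal m (τ / u)) (Ioi 0) := by
    intro u hu
    apply (contOn_Bal hm0).comp (by fun_prop)
    intro τ hτ
    exact div_pos hτ hu.1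
  have hcB : ∀ u ∈ Ioo (0 : ℝ) 1, ContinuousOn (Bk m u) (Ioi 0) := by
    intro u hu
    unfold Bk
    refine ContinuousOn.sub (continuousOn_const.mul (ContinuousOn.mul (by fun_prop) ?_)) (hcA u hu)
    apply (contOn_Bal hm0).comp (by fun_prop)
    intro τ hτ
    have hτ0 : 0 < τ := hτ
    change 0 < τ / u - τ
    rw [sub_pos, lt_div_iff₀ hu.1]
    nlinarith [hu.2]
  have key := liminf_Psi (l := 𝓝[>] (0 : ℝ)) (q := 2) le_rfl hlam
    (w := fun τ => τ ^ (-2 : ℝ)) (fun τ hτ => Real.rpow_nonneg hτ.le _) hcontw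
    (A := fun _ => a0) (B := fun τ => a0 * (Complex.exp ((2 * π * τ) * Complex.I) - 1))
    (Ak := fun u τ => Bal m (τ / u)) (Bk := Bk m) continuousOn_const (by fun_prop)
    (hu01.mono fun u hu => hcA u ⟨hu.1, by linarith [hu.2]⟩)
    (hu01.mono fun u hu => hcB u ⟨hu.1, by linarith [hu.2]⟩)
    (fun a b ha => unif_Bal hm0 ha0 ha) (fun a b ha => unif_Bk hm0 ha0 ha)
  have hL : ∫⁻ τ in Ioi (0 : ℝ), ENNReal.ofReal (τ ^ (-2 : ℝ) *
      Theta 2 a0 (a0 * (Complex.exp ((2 * π * τ) * Complex.I) - 1))) =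
      ENNReal.ofReal (4 * ‖a0‖ ^ 2 * π ^ 2) := by
    have h1 : ∀ τ : ℝ, ENNReal.ofReal (τ ^ (-2 : ℝ) *
        Theta 2 a0 (a0 * (Complex.exp ((2 * π * τ) * Complex.I) - 1))) =
        ENNReal.ofReal (4 * ‖a0‖ ^ 2) * ENNReal.ofReal (τ ^ (-2 : ℝ) * (1 - Real.cos (2 * π * τ))) := by
      intro τ
      rw [Theta_rot, K_two, ← ENNReal.ofReal_mul (by positivity)]
      congr 1
      norm_num
      ring
    simp only [h1]
    rw [lintegral_const_mul' _ _ ENNReal.ofReal_ne_top, lintegral_sinc,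
      ← ENNReal.ofReal_mul (by positivity)]
  rw [hL] at key
  have hR : ∀ᶠ u : ℝ in 𝓝[>] 0, ∫⁻ τ in Ioi (0 : ℝ), ENNReal.ofReal (τ ^ (-2 : ℝ) *
      Psi 2 (osc (Bal m (τ / u)) (1 / u * τ)) (osc (Bk m u τ) (1 / u * τ))) ≤
      ENNReal.ofReal (1 / vn n ^ 2) := by
    filter_upwards [hu01] with u hu
    have hu' : u ∈ Ioo (0 : ℝ) 1 := ⟨hu.1, by linarith [hu.2]⟩
    obtain ⟨h1, h2⟩ := Phi_two (n := n) hu'
    have hu0 := hu.1
    set h : ℝ → ℝ := fun t => t ^ (2 * m) * (BG m (1 - u) t - BI m t) ^ 2 with hh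
    have e1 : ∀ τ ∈ Ioi (0 : ℝ), τ ^ (-2 : ℝ) *
        Psi 2 (osc (Bal m (τ / u)) (1 / u * τ)) (osc (Bk m u τ) (1 / u * τ)) =
        (u ^ 2)⁻¹ * h (1 / u * τ) := by
      intro τ hτ
      have hτ0 : 0 < τ := hτ
      have e2 : 1 / u * τ = τ / u := by ring
      have h3 : 0 < τ / u := div_pos hτ0 hu0
      rw [e2, osc_Bk hu' hτ0, Psi_two]
      simp only [hh]
      have e3 : ((τ / u) ^ (m + 1)) ^ 2 = (τ / u) ^ (2 * m) * (τ / u) ^ 2 := by
        rw [← Real.rpow_natCast ((τ / u) ^ (m + 1)) 2, ← Real.rpow_natCast (τ / u) 2,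
          ← Real.rpow_mul h3.le, ← Real.rpow_add h3]
        congr 1
        push_cast
        ring
      have e4 : τ ^ (-2 : ℝ) = (τ ^ 2)⁻¹ := by
        rw [Real.rpow_neg hτ0.le]
        norm_num
      rw [mul_pow, e3, e4]
      field_simp
    have hint : IntegrableOn (fun τ => (u ^ 2)⁻¹ * h (1 / u * τ)) (Ioi 0) := by
      apply Integrable.const_mul
      have := (integrableOn_Ioi_comp_mul_left_iff h 0 (a := 1 / u) (by positivity)).2
        (by rw [mul_zero]; exact h1)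
      exact this
    rw [setLIntegral_congr_fun measurableSet_Ioi (fun τ hτ => by
      show ENNReal.ofReal _ = ENNReal.ofReal ((u ^ 2)⁻¹ * h (1 / u * τ))
      rw [e1 τ hτ])]
    rw [← ofReal_integral_eq_lintegral_ofReal hint]
    · apply ENNReal.ofReal_le_ofReal
      rw [integral_const_mul, integral_comp_mul_left_Ioi h 0 (b := 1 / u) (by positivity), mul_zero,
        smul_eq_mul]
      have e5 : ∫ x in Ioi (0 : ℝ), h x = RR m 2 u := by
        unfold RR
        simp only [hh, Psi_two]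
      rw [e5]
      have hb := bE_pos (n := n)
      have hv := vn_pos (n := n)
      have h4 : (n + 1) * vn n ^ 2 * RR m 2 u = 1 - (1 - u) ^ (n + 1) := by
        have : bE n * ((n + 1) * vn n ^ 2 * RR m 2 u) = bE n * (1 - (1 - u) ^ (n + 1)) := by
          rw [← h2]
          ring
        exact mul_left_cancel₀ hb.ne' this
      have h5 : 1 - (1 - u) ^ (n + 1) ≤ (n + 1) * u := by
        have := one_add_mul_le_pow (a := -u) (by linarith [hu.2]) (n + 1)
        push_cast at this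
        have e : (1 + -u) = 1 - u := by ring
        rw [e] at this
        linarith
      have h6 : RR m 2 u ≤ u / vn n ^ 2 := by
        rw [le_div_iff₀ (by positivity)]
        have hn : (0 : ℝ) < n + 1 := by positivity
        have : (n + 1) * (RR m 2 u * vn n ^ 2) ≤ (n + 1) * u := by
          calc (n + 1) * (RR m 2 u * vn n ^ 2) = (n + 1) * vn n ^ 2 * RR m 2 u := by ring
            _ ≤ (n + 1) * u := by rw [h4]; exact h5
        exact le_of_mul_le_mul_left this hn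
      calc (u ^ 2)⁻¹ * ((1 / u)⁻¹ * RR m 2 u) ≤ (u ^ 2)⁻¹ * ((1 / u)⁻¹ * (u / vn n ^ 2)) := by
            gcongr
        _ = 1 / vn n ^ 2 := by field_simp
    · rw [EventuallyLE, ae_restrict_iff' measurableSet_Ioi]
      refine Eventually.of_forall fun τ hτ => ?_
      have hτ0 : 0 < τ := hτ
      simp only [hh, Pi.zero_apply]
      have := Real.rpow_nonneg (by positivity : 0 ≤ 1 / u * τ) (2 * m)
      positivity
  have hlim : liminf (fun u => ∫⁻ τ in Ioi (0 : ℝ), ENNReal.ofReal (τ ^ (-2 : ℝ) *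
      Psi 2 (osc (Bal m (τ / u)) (1 / u * τ)) (osc (Bk m u τ) (1 / u * τ)))) (𝓝[>] (0 : ℝ)) ≤
      ENNReal.ofReal (1 / vn n ^ 2) := by
    calc _ ≤ liminf (fun _ : ℝ => ENNReal.ofReal (1 / vn n ^ 2)) (𝓝[>] (0 : ℝ)) := by
          refine liminf_le_liminf hR ?_ ?_
          · isBoundedDefault
          · isBoundedDefault
      _ = _ := liminf_const _
  have h7 := key.trans hlim
  have hv := vn_pos (n := n)
  rw [ENNReal.ofReal_le_ofReal_iff (by positivity), le_div_iff₀ (by positivity)] at h7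
  nlinarith

end Pool.Agent.H51.Maxi
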