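import Pool.Agent.H51.Maxi.Main

open MeasureTheory Set Filter Topology FourierTransform
open scoped ENNReal Real InnerProductSpace Interval ComplexConjugate Pointwise symmDiff

namespace Pool.Agent.H51.Maxi

variable {W : Type*} [NormedAddCommGroup W] [InnerProductSpace ℝ W] [FiniteDimensional ℝ W]
  [MeasurableSpace W] [BorelSpace W]

/-- `q`-th power of the `L^q` norm of the transform of the indicator -/
noncomputable def JE (q : ℝ) (s : Set W) : ℝ≥0∞ :=
  ∫⁻ ξ, ‖𝓕 (s.indicator fun _ => (1 : ℂ)) ξ‖ₑ ^ q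

theorem JE_congr {q : ℝ} {s t : Set W} (h : s =ᵐ[volume] t) : JE q s = JE q t := by
  unfold JE
  congr 1
  ext ξ
  rw [Real.fourier_congr_ae (indicator_ae_eq_of_ae_eq_set h)]

theorem det_adjoint' (A : W →ₗ[ℝ] W) : LinearMap.det (LinearMap.adjoint A) = LinearMap.det A := by
  have b := stdOrthonormalBasis ℝ W
  rw [← LinearMap.det_toMatrix b.toBasis, ← LinearMap.det_toMatrix b.toBasis,
    LinearMap.toMatrix_adjoint b b, Matrix.det_conjTranspose, star_trivial]

theorem det_ne (A : W ≃ₗ[ℝ] W) : LinearMap.det (A : W →ₗ[ℝ] W) ≠ 0 := (LinearEquiv.isUnit_det' A).ne_zero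

theorem emb_lin {A : W →ₗ[ℝ] W} (hA : LinearMap.det A ≠ 0) : MeasurableEmbedding A := by
  have := ((LinearMap.equivOfDetNeZero A hA).toContinuousLinearEquiv.toHomeomorph).measurableEmbedding
  exact this

theorem int_affine {A : W →ₗ[ℝ] W} (hA : LinearMap.det A ≠ 0) (b : W) (g : W → ℂ) :
    ∫ y, g y = (|LinearMap.det A| : ℝ) • ∫ x, g (A x + b) := by
  have h1 : ∫ x, g (A x + b) = ∫ y, g (y + b) ∂(Measure.map A (volume : Measure W)) :=
    ((emb_lin hA).integral_map (fun y => g (y + b))).symm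
  rw [h1, Measure.map_linearMap_addHaar_eq_smul_addHaar _ hA, integral_smul_measure,
    integral_add_right_eq_self, smul_smul, ENNReal.toReal_ofReal (abs_nonneg _), ← abs_mul,
    mul_inv_cancel₀ hA, abs_one, one_smul]

theorem lint_lin {A : W →ₗ[ℝ] W} (hA : LinearMap.det A ≠ 0) (g : W → ℝ≥0∞) :
    ∫⁻ x, g (A x) = ENNReal.ofReal |(LinearMap.det A)⁻¹| * ∫⁻ y, g y := by
  rw [← (emb_lin hA).lintegral_map g, Measure.map_linearMap_addHaar_eq_smul_addHaar _ hA,
    lintegral_smul_measure, smul_eq_mul]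

theorem fourier_affine (A : W ≃ₗ[ℝ] W) (b : W) (s : Set W) (ξ : W) :
    ‖𝓕 (((fun x => A x + b) '' s).indicator fun _ => (1 : ℂ)) ξ‖ₑ =
      ENNReal.ofReal |LinearMap.det (A : W →ₗ[ℝ] W)| *
        ‖𝓕 (s.indicator fun _ => (1 : ℂ)) (LinearMap.adjoint (A : W →ₗ[ℝ] W) ξ)‖ₑ := by
  set D := LinearMap.det (A : W →ₗ[ℝ] W) with hD
  have hD0 : D ≠ 0 := det_ne A
  have hinj : Function.Injective fun x => A x + b := fun x y h => by
    have : A x + b = A y + b := h
    exact A.injective (add_right_cancel this)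
  have h1 : 𝓕 (((fun x => A x + b) '' s).indicator fun _ => (1 : ℂ)) ξ =
      (|D| : ℝ) • (Complex.exp (((-2 * π * ⟪b, ξ⟫_ℝ : ℝ) : ℂ) * Complex.I) *
        𝓕 (s.indicator fun _ => (1 : ℂ)) (LinearMap.adjoint (A : W →ₗ[ℝ] W) ξ)) := by
    rw [Real.fourier_eq', Real.fourier_eq', int_affine (A := (A : W →ₗ[ℝ] W)) hD0 b,
      ← integral_const_mul]
    congr 2
    ext x
    have h2 : ((fun x => A x + b) '' s).indicator (fun _ => (1 : ℂ)) ((A : W →ₗ[ℝ] W) x + b) =
        s.indicator (fun _ => (1 : ℂ)) x := by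
      by_cases hx : x ∈ s
      · rw [indicator_of_mem hx, indicator_of_mem]
        exact ⟨x, hx, rfl⟩
      · rw [indicator_of_notMem hx, indicator_of_notMem]
        rintro ⟨y, hy, hxy⟩
        exact hx (hinj hxy ▸ hy)
    rw [h2, LinearMap.adjoint_inner_right, inner_add_left, smul_eq_mul, smul_eq_mul, ← mul_assoc,
      ← Complex.exp_add]
    congr 2
    push_cast
    ring
  rw [h1, enorm_smul, enorm_mul]
  have h3 : ‖Complex.exp (((-2 * π * ⟪b, ξ⟫_ℝ : ℝ) : ℂ) * Complex.I)‖ₑ = 1 := by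
    rw [← ofReal_norm, Complex.norm_exp_ofReal_mul_I, ENNReal.ofReal_one]
  rw [h3, one_mul, ← ofReal_norm, Real.norm_eq_abs, abs_abs]

theorem JE_affine {q : ℝ} (hq : 1 ≤ q) (A : W ≃ₗ[ℝ] W) (b : W) (s : Set W) :
    JE q ((fun x => A x + b) '' s) =
      ENNReal.ofReal (|LinearMap.det (A : W →ₗ[ℝ] W)| ^ (q - 1)) * JE q s := by
  have hD0 := det_ne A
  have hA' : LinearMap.det (LinearMap.adjoint (A : W →ₗ[ℝ] W)) ≠ 0 := by rwa [det_adjoint']
  unfold JE
  simp only [fourier_affine]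
  have h1 : ∀ ξ : W, (ENNReal.ofReal |LinearMap.det (A : W →ₗ[ℝ] W)| *
        ‖𝓕 (s.indicator fun _ => (1 : ℂ)) (LinearMap.adjoint (A : W →ₗ[ℝ] W) ξ)‖ₑ) ^ q =
      ENNReal.ofReal (|LinearMap.det (A : W →ₗ[ℝ] W)| ^ q) *
        (fun η => ‖𝓕 (s.indicator fun _ => (1 : ℂ)) η‖ₑ ^ q)
          (LinearMap.adjoint (A : W →ₗ[ℝ] W) ξ) := by
    intro ξ
    rw [ENNReal.mul_rpow_of_nonneg _ _ (by linarith),
      ENNReal.ofReal_rpow_of_nonneg (abs_nonneg _) (by linarith)]
  simp only [h1]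
  rw [lintegral_const_mul' _ _ ENNReal.ofReal_ne_top]
  have h2 := lint_lin hA' (fun η => ‖𝓕 (s.indicator fun _ => (1 : ℂ)) η‖ₑ ^ q)
  beta_reduce at h2
  rw [h2, det_adjoint', ← mul_assoc, ← ENNReal.ofReal_mul (by positivity)]
  congr 2
  have hpos : 0 < |LinearMap.det (A : W →ₗ[ℝ] W)| := abs_pos.2 hD0
  rw [abs_inv, Real.rpow_sub_one hpos.ne']
  rfl

theorem JE_isometry {W' : Type*} [NormedAddCommGroup W'] [InnerProductSpace ℝ W']
    [FiniteDimensional ℝ W'] [MeasurableSpace W'] [BorelSpace W'] {q : ℝ} (L : W' ≃ₗᵢ[ℝ] W)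
    (s : Set W') : JE q (L '' s) = JE q s := by
  unfold JE
  have h1 : ∀ w : W', 𝓕 ((L '' s).indicator fun _ => (1 : ℂ)) (L w) =
      𝓕 (s.indicator fun _ => (1 : ℂ)) w := by
    intro w
    have hf : ((L '' s).indicator fun _ => (1 : ℂ)) ∘ L = s.indicator fun _ => (1 : ℂ) := by
      ext x
      simp only [Function.comp_apply]
      by_cases hx : x ∈ s
      · rw [indicator_of_mem hx, indicator_of_mem]
        exact ⟨x, hx, rfl⟩
      · rw [indicator_of_notMem hx, indicator_of_notMem]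
        rintro ⟨y, hy, hxy⟩
        exact hx (L.injective hxy ▸ hy)
    rw [← Real.fourier_comp_linearIsometry, hf]
  have h2 := L.measurePreserving.lintegral_comp_emb L.toHomeomorph.measurableEmbedding
    (fun ξ => ‖𝓕 ((L '' s).indicator fun _ => (1 : ℂ)) ξ‖ₑ ^ q)
  rw [← h2]
  simp only [h1]

theorem JE_sym {n : ℕ} {q : ℝ} (hq : 2 ≤ q) {F : Set (EE n)} (hF : Sym F) :
    JE q F = ENNReal.ofReal (JJ q F) := by
  unfold JE JJ
  rw [ofReal_integral_eq_lintegral_ofReal (ct_q_int hq hF)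
    (Eventually.of_forall fun ξ => by positivity)]
  apply lintegral_congr
  intro ξ
  rw [fourier_ind hF, ← ofReal_norm, Complex.norm_real, Real.norm_eq_abs,
    ENNReal.ofReal_rpow_of_nonneg (abs_nonneg _) (by linarith)]

theorem vol_affine (A : W ≃ₗ[ℝ] W) (b : W) (s : Set W) :
    volume ((fun x => A x + b) '' s) =
      ENNReal.ofReal |LinearMap.det (A : W →ₗ[ℝ] W)| * volume s := by
  have h1 : (fun x => A x + b) '' s = (fun y => y + b) '' ((A : W →ₗ[ℝ] W) '' s) := by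
    rw [image_image]
    rfl
  rw [h1, ← Measure.addHaar_image_linearMap volume (A : W →ₗ[ℝ] W) s]
  rw [image_add_right, measure_preimage_add_right]

end Pool.Agent.H51.Maxi
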