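import Pool.Agent.H51.Maxi.Ident

open MeasureTheory Set Filter Topology FourierTransform
open scoped ENNReal Real InnerProductSpace Interval ComplexConjugate

namespace Pool.Agent.H51.Maxi

variable {n : ℕ}

/-- radial function of the truncated ball -/
noncomputable def rho (r : ℝ) (y : V n) : ℝ := min 1 ((1 - r ^ 2 / 2) * cc y)

/-- truncated ball -/
def Fr (n : ℕ) (r : ℝ) : Set (EE n) := {x | ‖x‖ < 1 ∧ |x.snd| < 1 - r ^ 2 / 2}

theorem star_Fr (r : ℝ) : Star (Fr n r) (rho r) := by
  refine ⟨?_, fun x => ?_, fun y t ht => ?_⟩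
  · apply MeasurableSet.inter
    · exact measurableSet_lt measurable_norm measurable_const
    · have : Continuous fun x : EE n => |x.snd| :=
        ((continuous_snd.comp (WithLp.prod_continuous_ofLp 2 (V n) ℝ))).abs
      exact measurableSet_lt this.measurable measurable_const
  · unfold Fr
    simp only [mem_ofPred_eq, norm_neg]
    have : (-x).snd = -(x.snd) := rfl
    rw [this, abs_neg]
  · have h1 : pr (t • y) t ∈ Fr n r ↔ ‖pr (t • y) t‖ < 1 ∧ |t| < 1 - r ^ 2 / 2 := Iff.rfl
    rw [h1, norm_pr_smul y (le_of_lt ht), abs_of_pos ht]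
    unfold rho
    rw [lt_min_iff]
    have hc := cc_pos y
    constructor
    · rintro ⟨h2, h3⟩
      exact ⟨h2, mul_lt_mul_of_pos_right h3 hc⟩
    · rintro ⟨h2, h3⟩
      exact ⟨h2, lt_of_mul_lt_mul_right h3 hc.le⟩

theorem measurable_rho (r : ℝ) : Measurable (rho r : V n → ℝ) :=
  measurable_const.min ((continuous_cc.measurable).const_mul _)

theorem rho_pos {r : ℝ} (hr : r ∈ Ioo (0 : ℝ) 1) (y : V n) : 0 < rho r y := by
  unfold rho
  have : 0 < 1 - r ^ 2 / 2 := by nlinarith [hr.1, hr.2]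
  exact lt_min one_pos (mul_pos this (cc_pos y))

theorem rho_le (r : ℝ) (y : V n) : rho r y ≤ 1 := min_le_left _ _

theorem Fr_fin (r : ℝ) : volume (Fr n r) ≠ ⊤ := by
  have : Fr n r ⊆ Metric.ball 0 1 := fun x hx => by
    rw [mem_ball_zero_iff]
    exact hx.1
  exact (measure_lt_top_of_subset this measure_ball_lt_top.ne).ne

/-- depth -/
noncomputable def uu (r : ℝ) (y : V n) : ℝ := 1 - rho r y

theorem uu_nonneg (r : ℝ) (y : V n) : 0 ≤ uu r y := by
  unfold uu
  linarith [rho_le r y]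

theorem uu_le {r : ℝ} (hr : r ∈ Ioo (0 : ℝ) 1) (y : V n) : uu r y ≤ r ^ 2 / 2 := by
  unfold uu rho
  have h1 := one_le_cc y
  have h2 : 0 < 1 - r ^ 2 / 2 := by nlinarith [hr.1, hr.2]
  have : 1 - r ^ 2 / 2 ≤ min 1 ((1 - r ^ 2 / 2) * cc y) := by
    apply le_min
    · nlinarith
    · nlinarith
  linarith

theorem continuous_uu (r : ℝ) : Continuous (uu r : V n → ℝ) := by
  unfold uu rho
  exact continuous_const.sub (continuous_const.min (continuous_const.mul continuous_cc))

/-- the limiting profile -/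
noncomputable def ww (y : V n) : ℝ := max ((1 - ‖y‖ ^ 2) / 2) 0

theorem ww_nonneg (y : V n) : 0 ≤ ww y := le_max_right _ _

theorem continuous_ww : Continuous (ww : V n → ℝ) := by
  unfold ww
  exact (by fun_prop : Continuous fun y : V n => (1 - ‖y‖ ^ 2) / 2).max continuous_const

theorem uu_scaled_zero {r : ℝ} (hr : r ∈ Ioo (0 : ℝ) (1 / 2)) {y : V n} (hy : 2 < ‖y‖ ^ 2) :
    uu r (r • y) = 0 := by
  unfold uu rho
  have hr0 := hr.1
  have h1 : 1 ≤ (1 - r ^ 2 / 2) * cc (r • y) := by
    unfold cc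
    have h2 : 0 < 1 - r ^ 2 / 2 := by nlinarith [hr.1, hr.2]
    have h3 : (1 - r ^ 2 / 2) * √(1 + ‖r • y‖ ^ 2) = √((1 - r ^ 2 / 2) ^ 2 * (1 + ‖r • y‖ ^ 2)) := by
      rw [Real.sqrt_mul (sq_nonneg _), Real.sqrt_sq h2.le]
    rw [h3, Real.one_le_sqrt, norm_smul, Real.norm_of_nonneg hr0.le, mul_pow]
    have h4 : r ^ 2 ≤ 1 / 4 := by nlinarith [hr.1, hr.2]
    have h5 : 0 < r ^ 2 := by positivity
    have h6 : r ^ 2 * 2 ≤ r ^ 2 * ‖y‖ ^ 2 := mul_le_mul_of_nonneg_left hy.le h5.le
    have h7 : 1 - r ^ 2 ≤ (1 - r ^ 2 / 2) ^ 2 := by nlinarith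
    have h8 : 1 + r ^ 2 * 2 ≤ 1 + r ^ 2 * ‖y‖ ^ 2 := by linarith
    have h9 : 1 ≤ (1 - r ^ 2) * (1 + r ^ 2 * 2) := by nlinarith
    calc (1 : ℝ) ≤ (1 - r ^ 2) * (1 + r ^ 2 * 2) := h9
      _ ≤ (1 - r ^ 2 / 2) ^ 2 * (1 + r ^ 2 * ‖y‖ ^ 2) :=
          mul_le_mul h7 h8 (by positivity) (by positivity)
  rw [min_eq_left h1, sub_self]

theorem tendsto_uu_scaled (y : V n) :
    Tendsto (fun r : ℝ => uu r (r • y) / r ^ 2) (𝓝[>] 0) (𝓝 (ww y)) := by
  set c := ‖y‖ ^ 2 with hc
  have hc0 : 0 ≤ c := by positivity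
  -- derivative of h(x) = 1 - (1 - x/2) sqrt(1+xc) at 0
  have hd : HasDerivAt (fun x : ℝ => 1 - (1 - x / 2) * √(1 + x * c)) ((1 - c) / 2) 0 := by
    have h1 : HasDerivAt (fun x : ℝ => 1 + x * c) c 0 := by
      have := ((hasDerivAt_id (0 : ℝ)).mul_const c).const_add 1
      simpa using this
    have h2 := h1.sqrt (by norm_num)
    have h3 : HasDerivAt (fun x : ℝ => 1 - x / 2) (-(1 / 2)) 0 := by
      have := ((hasDerivAt_id (0 : ℝ)).div_const 2).const_sub 1
      simpa using this
    have h4 := (h3.mul h2).const_sub 1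
    convert! h4 using 1
    simp
    ring
  have hs := hd.tendsto_slope_zero_right
  simp only [zero_add, zero_div, sub_zero, zero_mul, add_zero, Real.sqrt_one, mul_one, sub_self,
    smul_eq_mul] at hs
  have hx : Tendsto (fun r : ℝ => r ^ 2) (𝓝[>] 0) (𝓝[>] 0) := by
    rw [tendsto_nhdsWithin_iff]
    constructor
    · have : Tendsto (fun r : ℝ => r ^ 2) (𝓝 0) (𝓝 0) := by
        have := (continuous_pow 2 (M := ℝ)).tendsto 0
        simpa using this
      exact this.mono_left nhdsWithin_le_nhds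
    · filter_upwards [self_mem_nhdsWithin] with r hr
      have hr0 : (0 : ℝ) < r := hr
      exact pow_pos hr0 2
  have h5 := hs.comp hx
  have h6 : Tendsto (fun r : ℝ => max ((r ^ 2)⁻¹ * (1 - (1 - r ^ 2 / 2) * √(1 + r ^ 2 * c))) 0)
      (𝓝[>] 0) (𝓝 (max ((1 - c) / 2) 0)) := h5.max tendsto_const_nhds
  refine h6.congr' ?_
  filter_upwards [self_mem_nhdsWithin] with r hr
  have hr0 : (0 : ℝ) < r := hr
  unfold uu rho cc
  rw [norm_smul, Real.norm_of_nonneg hr0.le, mul_pow, ← hc]
  have hr2 : 0 < r ^ 2 := by positivity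
  rcases le_total 1 ((1 - r ^ 2 / 2) * √(1 + r ^ 2 * c)) with h | h
  · rw [min_eq_left h, sub_self, zero_div, max_eq_right]
    exact mul_nonpos_of_nonneg_of_nonpos (inv_nonneg.2 hr2.le) (by linarith)
  · have h' : 0 ≤ (r ^ 2)⁻¹ * (1 - (1 - r ^ 2 / 2) * √(1 + r ^ 2 * c)) :=
      mul_nonneg (inv_nonneg.2 hr2.le) (by linarith)
    rw [min_eq_right h, max_eq_left h']
    ring

/-- limit of the scaled averages -/
theorem tendsto_avg {s : ℝ} (hs : 0 < s) :
    Tendsto (fun r : ℝ => ∫ y : V n, (uu r (r • y) / r ^ 2) ^ (1 + s)) (𝓝[>] 0)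
      (𝓝 (∫ y : V n, ww y ^ (1 + s))) := by
  apply tendsto_integral_filter_of_dominated_convergence
    (fun y => (Metric.closedBall (0 : V n) 2).indicator (fun _ => (1 : ℝ)) y)
  · refine Eventually.of_forall fun r => Continuous.aestronglyMeasurable ?_
    refine Continuous.rpow_const ?_ fun y => Or.inr (by linarith)
    exact (((continuous_uu r).comp (continuous_const_smul r)).div_const _)
  · have hu : ∀ᶠ r : ℝ in 𝓝[>] 0, r ∈ Ioo (0 : ℝ) (1 / 2) := Ioo_mem_nhdsGT (by norm_num)
    filter_upwards [hu] with r hr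
    refine Eventually.of_forall fun y => ?_
    have hr0 := hr.1
    have h0 : 0 ≤ uu r (r • y) / r ^ 2 := div_nonneg (uu_nonneg _ _) (by positivity)
    rw [Real.norm_of_nonneg (Real.rpow_nonneg h0 _)]
    by_cases hy : y ∈ Metric.closedBall (0 : V n) 2
    · rw [indicator_of_mem hy]
      apply Real.rpow_le_one h0 _ (by linarith)
      rw [div_le_one (by positivity)]
      have := uu_le ⟨hr0, by linarith [hr.2]⟩ (r • y)
      nlinarith [sq_nonneg r]
    · rw [indicator_of_notMem hy, uu_scaled_zero hr, zero_div, Real.zero_rpow (by linarith)]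
      rw [mem_closedBall_zero_iff, not_le] at hy
      nlinarith
  · rw [integrable_indicator_iff measurableSet_closedBall]
    exact integrableOn_const measure_closedBall_lt_top.ne
  · refine Eventually.of_forall fun y => ?_
    exact (tendsto_uu_scaled y).rpow_const (Or.inr (by linarith))

theorem ww_integrable {s : ℝ} (hs : 0 < s) : Integrable fun y : V n => ww y ^ (1 + s) := by
  have h : Integrable fun y : V n => (Metric.closedBall (0 : V n) 1).indicator (fun _ => (1 : ℝ)) y := by
    rw [integrable_indicator_iff measurableSet_closedBall]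
    exact integrableOn_const measure_closedBall_lt_top.ne
  refine h.mono' (continuous_ww.rpow_const fun y => Or.inr (by linarith)).aestronglyMeasurable
    (Eventually.of_forall fun y => ?_)
  rw [Real.norm_of_nonneg (Real.rpow_nonneg (ww_nonneg y) _)]
  by_cases hy : y ∈ Metric.closedBall (0 : V n) 1
  · rw [indicator_of_mem hy]
    apply Real.rpow_le_one (ww_nonneg y) _ (by linarith)
    unfold ww
    apply max_le _ zero_le_one
    nlinarith [sq_nonneg ‖y‖]
  · rw [indicator_of_notMem hy]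
    rw [mem_closedBall_zero_iff, not_le] at hy
    unfold ww
    rw [max_eq_right (by nlinarith), Real.zero_rpow (by linarith)]

theorem integral_PP_le {f : V n → ℝ} (hf : Measurable f) (h0 : ∀ y, 0 ≤ f y)
    (hfi : Integrable f) : ∫ y, f y ∂(PP n) ≤ (ZZ n).toReal⁻¹ * ∫ y, f y := by
  rw [integral_eq_lintegral_of_nonneg_ae (Eventually.of_forall h0) hf.aestronglyMeasurable,
    integral_eq_lintegral_of_nonneg_ae (Eventually.of_forall h0) hf.aestronglyMeasurable,
    lintegral_PP hf.ennreal_ofReal, ENNReal.toReal_mul, ENNReal.toReal_inv]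
  apply mul_le_mul_of_nonneg_left _ (inv_nonneg.2 ENNReal.toReal_nonneg)
  apply ENNReal.toReal_mono
  · have := hfi.2
    rw [hasFiniteIntegral_iff_ofReal (Eventually.of_forall h0)] at this
    exact this.ne
  · apply lintegral_mono
    intro y
    have h1 : ENNReal.ofReal ((cc y)⁻¹ ^ (n + 1)) ≤ 1 := by
      rw [ENNReal.ofReal_le_one]
      apply pow_le_one₀ (inv_nonneg.2 (cc_pos y).le)
      exact inv_le_one_of_one_le₀ (one_le_cc y)
    calc ENNReal.ofReal ((cc y)⁻¹ ^ (n + 1)) * ENNReal.ofReal (f y) ≤ 1 * ENNReal.ofReal (f y) :=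
          mul_le_mul_left h1 _
      _ = _ := one_mul _

theorem ZZ_eq : (ZZ n).toReal = (n + 1) * bE n / 2 := by
  have h := volume_ball_EE (n := n) 1 zero_le_one
  have h1 := congrArg ENNReal.toReal h
  rw [ENNReal.toReal_mul, ENNReal.toReal_mul, ENNReal.toReal_ofReal (by positivity)] at h1
  have h2 : (volume (Metric.ball (0 : EE n) 1)).toReal = bE n := rfl
  rw [h2] at h1
  rw [h1]
  simp
  field_simp

theorem Phi_one (q : ℝ) : Phi n q 1 = 0 := by
  unfold Phi
  have : ∀ ξ : EE n, Psi q (ct (Metric.ball (0 : EE n) 1) ξ)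
      (ct (Metric.ball (0 : EE n) 1) ξ - ct (Metric.ball (0 : EE n) 1) ξ) = 0 := by
    intro ξ
    unfold Psi
    simp
  simp only [this, integral_zero]

set_option maxHeartbeats 1000000

/-- upper limit constant -/
noncomputable def UC (n : ℕ) (q : ℝ) (a0 : ℂ) : ℝ :=
  vn n ^ q * (K q * (q * (‖a0‖ ^ (q - 2) * ‖a0‖ ^ 2)) * SS (((n : ℝ) / 2 + 1) * (q - 2)))

theorem upper_avg {q : ℝ} (hq : 2 < q) (hq' : ((n : ℝ) / 2 + 1) * (q - 2) < 1) {a0 : ℂ}
    (ha0 : Tendsto (Bal ((n : ℝ) / 2)) atTop (𝓝 a0)) {ε : ℝ} (hε : 0 < ε) :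
    ∀ᶠ r : ℝ in 𝓝[>] 0, r ^ (-((n + 2) * (q - 1))) * ∫ y, Phi n q (rho r y) ∂(PP n) ≤
      2 * UC n q a0 * (∫ y : V n, ww y ^ (1 + ((n : ℝ) / 2 + 1) * (q - 2))) + ε := by
  set m : ℝ := (n : ℝ) / 2 with hm
  set s := (m + 1) * (q - 2) with hs
  have hm0 : 0 ≤ m := by positivity
  have hs0 : 0 < s := by
    have : 0 < q - 2 := by linarith
    positivity
  set CR := K q * (q * (‖a0‖ ^ (q - 2) * ‖a0‖ ^ 2)) * SS s with hCR
  set W := ∫ y : V n, ww y ^ (1 + s) with hW
  have hW0 : 0 ≤ W := integral_nonneg fun y => Real.rpow_nonneg (ww_nonneg y) _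
  have hRR := tendsto_RR hm0 hq hq' ha0
  rw [← hs, ← hCR] at hRR
  have hv := vn_pos (n := n)
  have hvq : 0 < vn n ^ q := Real.rpow_pos_of_pos hv q
  have hb := bE_pos (n := n)
  have hCR0 : 0 ≤ CR := by
    have hK : 0 ≤ K q := intervalIntegral.integral_nonneg zero_le_one fun θ _ => by positivity
    have hSS : 0 ≤ SS s := by
      unfold SS
      apply setIntegral_nonneg measurableSet_Ioi
      intro τ hτ
      have : 0 ≤ 1 - Real.cos (2 * π * τ) := by linarith [Real.cos_le_one (2 * π * τ)]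
      exact mul_nonneg (Real.rpow_nonneg (le_of_lt hτ) _) this
    positivity
  -- the bound for small u
  set η := min 1 (ε / (4 * vn n ^ q * (W + 1))) with hη
  have hη0 : 0 < η := by positivity
  have hsmall : ∀ᶠ u : ℝ in 𝓝[>] 0, u ^ (-(1 + s)) * RR m q u < CR + η :=
    hRR.eventually_lt_const (by linarith)
  rw [eventually_nhdsWithin_iff, Metric.eventually_nhds_iff] at hsmall
  obtain ⟨δ, hδ, hδ'⟩ := hsmall
  -- average
  have havg := tendsto_avg (n := n) hs0
  rw [← hW] at havg
  set η' := min 1 (ε / (4 * vn n ^ q * (CR + 1))) with hη'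
  have hη'0 : 0 < η' := by positivity
  have h1 := havg.eventually_lt_const (show W < W + η' by linarith)
  have hr2 : ∀ᶠ r : ℝ in 𝓝[>] 0, r ∈ Ioo (0 : ℝ) (min (1 / 2) δ) := Ioo_mem_nhdsGT (by positivity)
  filter_upwards [h1, hr2] with r hr1 hr
  have hr0 : 0 < r := hr.1
  have hr12 : r < 1 / 2 := hr.2.trans_le (min_le_left _ _)
  have hrδ : r < δ := hr.2.trans_le (min_le_right _ _)
  have hr' : r ∈ Ioo (0 : ℝ) 1 := ⟨hr0, by linarith⟩
  -- pointwise bound for Phi
  have hphi : ∀ y : V n, Phi n q (rho r y) ≤ (n + 1) * bE n * vn n ^ q * (CR + η) * uu r y ^ (1 + s) := by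
    intro y
    have hu0 := uu_nonneg r y
    have hule := uu_le hr' y
    rcases hu0.eq_or_lt with h | h
    · have h2 : rho r y = 1 := by
        unfold uu at h
        linarith
      rw [h2, Phi_one]
      have := Real.rpow_nonneg hu0 (1 + s)
      have : 0 ≤ CR + η := by linarith
      positivity
    · have h2 : rho r y = 1 - uu r y := by unfold uu; ring
      have hu1 : uu r y ∈ Ioo (0 : ℝ) 1 := ⟨h, by nlinarith⟩
      rw [h2]
      have h3 : Phi n q (1 - uu r y) = (n + 1) * bE n * vn n ^ q * RR m q (uu r y) := Phi_eq hu1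
      rw [h3]
      have h4 := hδ' (y := uu r y) (by
        rw [Real.dist_eq, sub_zero, abs_of_pos h]
        nlinarith) h
      have h5 : RR m q (uu r y) ≤ (CR + η) * uu r y ^ (1 + s) := by
        rw [Real.rpow_neg h.le, inv_mul_lt_iff₀ (Real.rpow_pos_of_pos h _)] at h4
        linarith
      have h6 : 0 ≤ (n + 1) * bE n * vn n ^ q := by positivity
      calc (n + 1) * bE n * vn n ^ q * RR m q (uu r y) ≤
            (n + 1) * bE n * vn n ^ q * ((CR + η) * uu r y ^ (1 + s)) :=
            mul_le_mul_of_nonneg_left h5 h6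
        _ = _ := by ring
  have hmeas : Measurable fun y : V n => uu r y ^ (1 + s) :=
    ((continuous_uu r).rpow_const fun y => Or.inr (by linarith)).measurable
  -- integrability of uu^(1+s) over V
  have hscale : ∫ y : V n, uu r y ^ (1 + s) =
      r ^ (n + 2 * (1 + s)) * ∫ y : V n, (uu r (r • y) / r ^ 2) ^ (1 + s) := by
    have h2 := Measure.integral_comp_smul_of_nonneg volume (fun y : V n => uu r y ^ (1 + s)) r
      (hR := hr0.le)
    rw [finrank_euclideanSpace, Fintype.card_fin, smul_eq_mul] at h2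
    have h3 : ∀ y : V n, (uu r (r • y) / r ^ 2) ^ (1 + s) =
        (r ^ (2 * (1 + s)))⁻¹ * uu r (r • y) ^ (1 + s) := by
      intro y
      rw [Real.div_rpow (uu_nonneg _ _) (by positivity), ← Real.rpow_natCast r 2,
        ← Real.rpow_mul hr0.le]
      push_cast
      ring
    simp only [h3]
    rw [integral_const_mul, h2, Real.rpow_add hr0, Real.rpow_natCast]
    have h4 : (0 : ℝ) < r ^ (2 * (1 + s)) := Real.rpow_pos_of_pos hr0 _
    field_simp
  have hint : Integrable fun y : V n => uu r y ^ (1 + s) := by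
    have h2 : Integrable fun y : V n =>
        (Metric.closedBall (0 : V n) (2 * r)).indicator (fun _ => (1 : ℝ)) y := by
      rw [integrable_indicator_iff measurableSet_closedBall]
      exact integrableOn_const measure_closedBall_lt_top.ne
    refine h2.mono' hmeas.aestronglyMeasurable (Eventually.of_forall fun y => ?_)
    rw [Real.norm_of_nonneg (Real.rpow_nonneg (uu_nonneg r y) _)]
    by_cases hy : y ∈ Metric.closedBall (0 : V n) (2 * r)
    · rw [indicator_of_mem hy]
      apply Real.rpow_le_one (uu_nonneg r y) _ (by linarith)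
      have := uu_le hr' y
      nlinarith
    · rw [indicator_of_notMem hy]
      rw [mem_closedBall_zero_iff, not_le] at hy
      have h3 : uu r (r • (r⁻¹ • y)) = 0 := by
        apply uu_scaled_zero ⟨hr0, hr12⟩
        rw [norm_smul, Real.norm_of_nonneg (inv_nonneg.2 hr0.le), mul_pow]
        have : 2 < r⁻¹ * ‖y‖ := by
          rw [inv_mul_eq_div, lt_div_iff₀ hr0]
          exact hy
        rw [← mul_pow]
        nlinarith
      rw [smul_inv_smul₀ hr0.ne'] at h3
      rw [h3, Real.zero_rpow (by linarith)]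
  have hPhi_int := (exact_ineq hq.le (star_Fr (n := n) r) (measurable_rho r) (rho_pos hr')
    (rho_le r) (Fr_fin r)).2
  have hbound_int : Integrable (fun y : V n => (n + 1) * bE n * vn n ^ q * (CR + η) *
      uu r y ^ (1 + s)) (PP n) := by
    apply Integrable.const_mul
    refine Integrable.of_bound hmeas.aestronglyMeasurable 1 (Eventually.of_forall fun y => ?_)
    rw [Real.norm_of_nonneg (Real.rpow_nonneg (uu_nonneg r y) _)]
    apply Real.rpow_le_one (uu_nonneg r y) _ (by linarith)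
    have := uu_le hr' y
    nlinarith
  have h7 : ∫ y, Phi n q (rho r y) ∂(PP n) ≤
      (n + 1) * bE n * vn n ^ q * (CR + η) * ∫ y, uu r y ^ (1 + s) ∂(PP n) := by
    rw [← integral_const_mul]
    exact integral_mono hPhi_int hbound_int hphi
  have h8 := integral_PP_le hmeas (fun y => Real.rpow_nonneg (uu_nonneg r y) _) hint
  rw [ZZ_eq] at h8
  set Ar := ∫ y : V n, (uu r (r • y) / r ^ 2) ^ (1 + s) with hAr
  have hAr0 : 0 ≤ Ar := integral_nonneg fun y => Real.rpow_nonneg
    (div_nonneg (uu_nonneg _ _) (by positivity)) _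
  rw [hscale] at h8
  have h9 : 0 ≤ (n + 1) * bE n * vn n ^ q * (CR + η) := by
    have : 0 ≤ CR + η := by linarith
    positivity
  have h10 : ∫ y, Phi n q (rho r y) ∂(PP n) ≤
      2 * vn n ^ q * (CR + η) * (r ^ (n + 2 * (1 + s)) * Ar) := by
    refine h7.trans ((mul_le_mul_of_nonneg_left h8 h9).trans (le_of_eq ?_))
    field_simp
  have h11 : r ^ (-((n + 2) * (q - 1))) * r ^ (n + 2 * (1 + s)) = 1 := by
    rw [← Real.rpow_add hr0]
    have : -(((n : ℝ) + 2) * (q - 1)) + (n + 2 * (1 + s)) = 0 := by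
      rw [hs, hm]
      ring
    rw [this, Real.rpow_zero]
  calc r ^ (-((n + 2) * (q - 1))) * ∫ y, Phi n q (rho r y) ∂(PP n) ≤
        r ^ (-((n + 2) * (q - 1))) * (2 * vn n ^ q * (CR + η) * (r ^ (n + 2 * (1 + s)) * Ar)) :=
        mul_le_mul_of_nonneg_left h10 (Real.rpow_nonneg hr0.le _)
    _ = (r ^ (-((n + 2) * (q - 1))) * r ^ (n + 2 * (1 + s))) * (2 * vn n ^ q * (CR + η) * Ar) := by
        ring
    _ = 2 * vn n ^ q * (CR + η) * Ar := by rw [h11, one_mul]
    _ ≤ 2 * vn n ^ q * (CR + η) * (W + η') := by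
        apply mul_le_mul_of_nonneg_left hr1.le
        have : 0 ≤ CR + η := by linarith
        positivity
    _ ≤ 2 * (vn n ^ q * CR) * W + ε := by
        have e1 : vn n ^ q * (η * (W + 1)) ≤ ε / 4 := by
          have h12 : η ≤ ε / (4 * vn n ^ q * (W + 1)) := min_le_right _ _
          rw [le_div_iff₀ (by positivity)] at h12
          have h13 : vn n ^ q * (η * (W + 1)) = (η * (4 * vn n ^ q * (W + 1))) / 4 := by ring
          rw [h13]
          linarith
        have e2 : vn n ^ q * (η' * (CR + 1)) ≤ ε / 4 := by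
          have h12 : η' ≤ ε / (4 * vn n ^ q * (CR + 1)) := min_le_right _ _
          rw [le_div_iff₀ (by positivity)] at h12
          have h13 : vn n ^ q * (η' * (CR + 1)) = (η' * (4 * vn n ^ q * (CR + 1))) / 4 := by ring
          rw [h13]
          linarith
        have e3 : η ≤ 1 := min_le_left _ _
        have e4 : η' ≤ 1 := min_le_left _ _
        have e6 : η * η' ≤ η' := mul_le_of_le_one_left hη'0.le e3
        have e5 : (CR + η) * (W + η') ≤ CR * W + η * (W + 1) + η' * (CR + 1) := by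
          have e7 : (CR + η) * (W + η') = CR * W + CR * η' + η * W + η * η' := by ring
          have e8 : CR * W + η * (W + 1) + η' * (CR + 1) =
              CR * W + CR * η' + η * W + η + η' := by ring
          rw [e7, e8]
          linarith
        calc 2 * vn n ^ q * (CR + η) * (W + η') = 2 * vn n ^ q * ((CR + η) * (W + η')) := by ring
          _ ≤ 2 * vn n ^ q * (CR * W + η * (W + 1) + η' * (CR + 1)) :=
              mul_le_mul_of_nonneg_left e5 (by positivity)
          _ = 2 * (vn n ^ q * CR) * W + 2 * (vn n ^ q * (η * (W + 1))) +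
              2 * (vn n ^ q * (η' * (CR + 1))) := by ring
          _ ≤ _ := by linarith

end Pool.Agent.H51.Maxi
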