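import Mathlib

open MeasureTheory Set Filter Topology
open scoped ENNReal Real InnerProductSpace

namespace Pool.Agent.H51.Maxi

theorem lintegral_smul_scale {E : Type*} [NormedAddCommGroup E] [NormedSpace ℝ E]
    [MeasurableSpace E] [BorelSpace E] [FiniteDimensional ℝ E] (μ : Measure E) [μ.IsAddHaarMeasure]
    (f : E → ℝ≥0∞) {r : ℝ} (hr : 0 < r) :
    ∫⁻ x, f x ∂μ = ENNReal.ofReal (r ^ Module.finrank ℝ E) * ∫⁻ x, f (r • x) ∂μ := by
  have h1 := Measure.map_addHaar_smul μ hr.ne'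
  have h2 : ∫⁻ x, f (r • x) ∂μ = ∫⁻ x, f x ∂(Measure.map (r • ·) μ) :=
    (lintegral_map_equiv f (Homeomorph.smulOfNeZero r hr.ne').toMeasurableEquiv).symm
  rw [h2, h1, lintegral_smul_measure, smul_eq_mul, ← mul_assoc, ← ENNReal.ofReal_mul (by positivity),
    abs_of_pos (by positivity), mul_inv_cancel₀ (by positivity), ENNReal.ofReal_one, one_mul]

theorem lintegral_scale_Ioi (f : ℝ → ℝ≥0∞) {c : ℝ} (hc : 0 < c) :
    ∫⁻ t in Ioi (0 : ℝ), f t = ENNReal.ofReal c * ∫⁻ t in Ioi (0 : ℝ), f (c * t) := by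
  rw [← lintegral_indicator measurableSet_Ioi, ← lintegral_indicator measurableSet_Ioi,
    lintegral_smul_scale volume _ hc]
  simp only [Module.finrank_self, pow_one, smul_eq_mul]
  congr 1
  apply lintegral_congr
  intro t
  by_cases ht : 0 < t
  · rw [indicator_of_mem (show c * t ∈ Ioi 0 from mul_pos hc ht),
      indicator_of_mem (show t ∈ Ioi 0 from ht)]
  · rw [indicator_of_notMem (show t ∉ Ioi 0 from ht), indicator_of_notMem]
    intro h
    exact ht ((mul_pos_iff_of_pos_left hc).1 h)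

/-- the base space -/
abbrev V (n : ℕ) := EuclideanSpace ℝ (Fin n)

/-- the full space -/
abbrev EE (n : ℕ) := WithLp 2 (V n × ℝ)

variable {n : ℕ}

/-- pairing map -/
noncomputable def pr (y : V n) (t : ℝ) : EE n := WithLp.toLp 2 (y, t)

theorem norm_pr_sq (y : V n) (t : ℝ) : ‖pr y t‖ ^ 2 = ‖y‖ ^ 2 + t ^ 2 := by
  rw [WithLp.prod_norm_sq_eq_of_L2]
  simp [pr]

theorem norm_pr (y : V n) (t : ℝ) : ‖pr y t‖ = √(‖y‖ ^ 2 + t ^ 2) := by
  rw [← norm_pr_sq, Real.sqrt_sq (norm_nonneg _)]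

theorem inner_pr (y y' : V n) (t t' : ℝ) : ⟪pr y t, pr y' t'⟫_ℝ = ⟪y, y'⟫_ℝ + t * t' := by
  rw [WithLp.prod_inner_apply]
  simp [pr, mul_comm]

theorem lintegral_EE {φ : EE n → ℝ≥0∞} :
    ∫⁻ x, φ x = ∫⁻ z : V n × ℝ, φ (pr z.1 z.2) :=
  ((WithLp.volume_preserving_toLp (V n) ℝ).lintegral_comp_emb
    (MeasurableEquiv.toLp 2 (V n × ℝ)).measurableEmbedding φ).symm

theorem continuous_pr : Continuous fun z : V n × ℝ => pr z.1 z.2 :=
  WithLp.prod_continuous_toLp 2 (V n) ℝ

/-- the factor `√(1+|y|²)` -/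
noncomputable def cc (y : V n) : ℝ := √(1 + ‖y‖ ^ 2)

theorem cc_pos (y : V n) : 0 < cc y := Real.sqrt_pos.2 (by positivity)

theorem one_le_cc (y : V n) : 1 ≤ cc y := by
  unfold cc
  rw [Real.one_le_sqrt]
  nlinarith [sq_nonneg ‖y‖]

theorem continuous_cc : Continuous (cc : V n → ℝ) := by
  unfold cc
  fun_prop

theorem norm_pr_smul (y : V n) {t : ℝ} (ht : 0 ≤ t) : ‖pr (t • y) t‖ = t * cc y := by
  rw [norm_pr, norm_smul, Real.norm_of_nonneg ht]
  have : (t * ‖y‖) ^ 2 + t ^ 2 = t ^ 2 * (1 + ‖y‖ ^ 2) := by ring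
  rw [this, Real.sqrt_mul (sq_nonneg t), Real.sqrt_sq ht]
  rfl

/-- upper half space formula -/
theorem gnomonic {φ : EE n → ℝ≥0∞} (hφ : Measurable φ) :
    ∫⁻ z : V n × ℝ in {z | 0 < z.2}, φ (pr z.1 z.2) =
      ∫⁻ y : V n, ∫⁻ t in Ioi (0 : ℝ), ENNReal.ofReal (t ^ n) * φ (pr (t • y) t) := by
  have hset : {z : V n × ℝ | 0 < z.2} = univ ×ˢ Ioi (0 : ℝ) := by
    ext z
    simp
  have hm : Measurable fun z : V n × ℝ => φ (pr z.1 z.2) := hφ.comp continuous_pr.measurable
  rw [hset, Measure.volume_eq_prod, ← Measure.prod_restrict, Measure.restrict_univ,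
    lintegral_prod_symm' _ hm]
  have h1 : ∀ t ∈ Ioi (0 : ℝ), ∫⁻ y : V n, φ (pr y t) =
      ∫⁻ y : V n, ENNReal.ofReal (t ^ n) * φ (pr (t • y) t) := by
    intro t ht
    rw [lintegral_smul_scale volume _ ht, lintegral_const_mul]
    · rw [finrank_euclideanSpace, Fintype.card_fin]
    · exact hφ.comp (continuous_pr.comp (by fun_prop : Continuous fun y : V n => (t • y, t))).measurable
  rw [setLIntegral_congr_fun measurableSet_Ioi h1]
  rw [lintegral_lintegral_swap]
  apply Measurable.aemeasurable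
  apply Measurable.mul
  · exact (by fun_prop : Measurable fun z : ℝ × V n => z.1 ^ n).ennreal_ofReal
  · exact hφ.comp (continuous_pr.comp
      (by fun_prop : Continuous fun z : ℝ × V n => (z.1 • z.2, z.1))).measurable

/-- the full space formula for even functions -/
theorem lintegral_even {φ : EE n → ℝ≥0∞} (hφ : Measurable φ) (hev : ∀ x, φ (-x) = φ x) :
    ∫⁻ x, φ x = 2 * ∫⁻ z : V n × ℝ in {z | 0 < z.2}, φ (pr z.1 z.2) := by
  have hm : Measurable fun z : V n × ℝ => φ (pr z.1 z.2) := hφ.comp continuous_pr.measurable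
  have hpos : MeasurableSet {z : V n × ℝ | 0 < z.2} := measurableSet_lt measurable_const measurable_snd
  have hneg : MeasurableSet {z : V n × ℝ | z.2 < 0} := measurableSet_lt measurable_snd measurable_const
  rw [lintegral_EE, ← lintegral_add_compl _ hpos, two_mul]
  congr 1
  have h1 : ({z : V n × ℝ | 0 < z.2}ᶜ : Set (V n × ℝ)) =ᵐ[volume] {z : V n × ℝ | z.2 < 0} := by
    have h0 : (volume : Measure (V n × ℝ)) {z | z.2 = 0} = 0 := by
      have : {z : V n × ℝ | z.2 = 0} = univ ×ˢ {(0 : ℝ)} := by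
        ext z
        simp
      rw [this, Measure.volume_eq_prod, Measure.prod_prod]
      simp
    rw [measure_eq_zero_iff_ae_notMem] at h0
    filter_upwards [h0] with z hz
    apply propext
    constructor
    · intro h
      exact lt_of_le_of_ne (not_lt.1 h) hz
    · intro h
      exact not_lt.2 (le_of_lt h)
  rw [setLIntegral_congr h1]
  have h2 := ((Measure.measurePreserving_neg (volume : Measure (V n))).prod
    (Measure.measurePreserving_neg (volume : Measure ℝ))).setLIntegral_comp_preimage hneg hm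
  rw [← Measure.volume_eq_prod] at h2
  rw [← h2]
  have h3 : (Prod.map Neg.neg Neg.neg ⁻¹' {z : V n × ℝ | z.2 < 0}) = {z : V n × ℝ | 0 < z.2} := by
    ext z
    simp
  rw [h3]
  apply lintegral_congr
  intro z
  have : pr (Prod.map Neg.neg Neg.neg z).1 (Prod.map Neg.neg Neg.neg z).2 = -(pr z.1 z.2) := rfl
  rw [this, hev]

/-- star-shaped symmetric set with radial function `ρ` (in gnomonic coordinates) -/
structure Star (F : Set (EE n)) (ρ : V n → ℝ) : Prop where
  meas : MeasurableSet F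
  symm : ∀ x, -x ∈ F ↔ x ∈ F
  iff : ∀ y : V n, ∀ t > 0, pr (t • y) t ∈ F ↔ t * cc y < ρ y

theorem star_ball (r : ℝ) : Star (Metric.ball (0 : EE n) r) (fun _ => r) := by
  refine ⟨measurableSet_ball, fun x => by simp, fun y t ht => ?_⟩
  rw [mem_ball_zero_iff, norm_pr_smul y (le_of_lt ht)]

/-- radial moments -/
noncomputable def Mo (n : ℕ) (κ : ℝ → ℝ≥0∞) (r : ℝ) : ℝ≥0∞ :=
  ∫⁻ s in Ioi (0 : ℝ), ENNReal.ofReal (s ^ n) * (Iio r).indicator κ s

theorem lintegral_star {F : Set (EE n)} {ρ : V n → ℝ} (hF : Star F ρ) {κ : ℝ → ℝ≥0∞}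
    (hκ : Measurable κ) :
    ∫⁻ x in F, κ ‖x‖ = 2 * ∫⁻ y : V n, ENNReal.ofReal ((cc y)⁻¹ ^ (n + 1)) * Mo n κ (ρ y) := by
  have hm : Measurable (F.indicator fun x => κ ‖x‖) := (hκ.comp measurable_norm).indicator hF.meas
  rw [← lintegral_indicator hF.meas, lintegral_even hm, gnomonic hm]
  · congr 1
    apply lintegral_congr
    intro y
    have hc := cc_pos y
    unfold Mo
    rw [← lintegral_const_mul']
    · conv_rhs => rw [lintegral_scale_Ioi _ hc]
      rw [← lintegral_const_mul' _ _ ENNReal.ofReal_ne_top]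
      apply setLIntegral_congr_fun measurableSet_Ioi
      intro t ht
      have ht0 : 0 < t := ht
      beta_reduce
      have h1 : F.indicator (fun x => κ ‖x‖) (pr (t • y) t) =
          (Iio (ρ y)).indicator κ (cc y * t) := by
        by_cases h : t * cc y < ρ y
        · rw [indicator_of_mem ((hF.iff y t ht0).2 h), norm_pr_smul y ht0.le, mul_comm (cc y) t,
            indicator_of_mem (by exact h)]
        · rw [indicator_of_notMem (fun h' => h ((hF.iff y t ht0).1 h')), mul_comm (cc y) t,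
            indicator_of_notMem (by exact h)]
      rw [h1, ← mul_assoc, ← mul_assoc, ← ENNReal.ofReal_mul hc.le,
        ← ENNReal.ofReal_mul (by positivity)]
      congr 2
      rw [mul_pow, inv_pow]
      field_simp
      ring
    · exact ENNReal.ofReal_ne_top
  · intro x
    by_cases hx : x ∈ F
    · rw [indicator_of_mem hx, indicator_of_mem ((hF.symm x).2 hx), norm_neg]
    · rw [indicator_of_notMem hx, indicator_of_notMem (fun h => hx ((hF.symm x).1 h))]

/-- total weight -/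
noncomputable def ZZ (n : ℕ) : ℝ≥0∞ := ∫⁻ y : V n, ENNReal.ofReal ((cc y)⁻¹ ^ (n + 1))

theorem lintegral_ball (r : ℝ) {κ : ℝ → ℝ≥0∞} (hκ : Measurable κ) :
    ∫⁻ x in Metric.ball (0 : EE n) r, κ ‖x‖ = 2 * ZZ n * Mo n κ r := by
  rw [lintegral_star (star_ball r) hκ]
  have hm : Measurable fun y : V n => ENNReal.ofReal ((cc y)⁻¹ ^ (n + 1)) := by
    apply Measurable.ennreal_ofReal
    exact (continuous_cc.measurable.inv).pow_const _
  rw [lintegral_mul_const _ hm]
  unfold ZZ
  ring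

theorem Mo_one (r : ℝ) (hr : 0 ≤ r) : Mo n (fun _ => 1) r = ENNReal.ofReal (r ^ (n + 1) / (n + 1)) := by
  unfold Mo
  have h1 : ∀ s : ℝ, ENNReal.ofReal (s ^ n) * (Iio r).indicator (fun _ => (1 : ℝ≥0∞)) s =
      (Iio r).indicator (fun s => ENNReal.ofReal (s ^ n)) s := by
    intro s
    by_cases hs : s ∈ Iio r
    · rw [indicator_of_mem hs, indicator_of_mem hs, mul_one]
    · rw [indicator_of_notMem hs, indicator_of_notMem hs, mul_zero]
  simp only [h1]
  rw [setLIntegral_indicator measurableSet_Iio, Iio_inter_Ioi]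
  rw [← ofReal_integral_eq_lintegral_ofReal]
  · congr 1
    rw [← integral_Ioc_eq_integral_Ioo, ← intervalIntegral.integral_of_le hr, integral_pow]
    simp
  · exact ((continuous_pow n).integrableOn_Icc (a := 0) (b := r)).mono_set Ioo_subset_Icc_self
  · rw [EventuallyLE, ae_restrict_iff' measurableSet_Ioo]
    exact Eventually.of_forall fun s hs => pow_nonneg hs.1.le _

theorem volume_ball_EE (r : ℝ) (hr : 0 ≤ r) : volume (Metric.ball (0 : EE n) r) =
    2 * ZZ n * ENNReal.ofReal (r ^ (n + 1) / (n + 1)) := by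
  have h := lintegral_ball (n := n) r (κ := fun _ => 1) measurable_const
  rw [Mo_one r hr] at h
  simpa using h

theorem ZZ_ne_zero : ZZ n ≠ 0 := by
  intro h
  have h1 := volume_ball_EE (n := n) 1 zero_le_one
  rw [h] at h1
  simp only [mul_zero, zero_mul] at h1
  exact (Metric.measure_ball_pos volume (0 : EE n) one_pos).ne' h1

theorem ZZ_ne_top : ZZ n ≠ ⊤ := by
  intro h
  have h1 := volume_ball_EE (n := n) 1 zero_le_one
  rw [h] at h1
  have h2 : (volume (Metric.ball (0 : EE n) 1)) < ⊤ := measure_ball_lt_top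
  rw [h1] at h2
  have h3 : (2 : ℝ≥0∞) * ⊤ = ⊤ := ENNReal.mul_top (by norm_num)
  rw [h3, ENNReal.top_mul] at h2
  · exact lt_irrefl _ h2
  · have : (0 : ℝ) < 1 ^ (n + 1) / (n + 1) := by positivity
    exact (ENNReal.ofReal_pos.2 this).ne'

/-- the probability measure on the gnomonic chart -/
noncomputable def PP (n : ℕ) : Measure (V n) :=
  (ZZ n)⁻¹ • (volume : Measure (V n)).withDensity fun y => ENNReal.ofReal ((cc y)⁻¹ ^ (n + 1))

theorem meas_dens : Measurable fun y : V n => ENNReal.ofReal ((cc y)⁻¹ ^ (n + 1)) := by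
  apply Measurable.ennreal_ofReal
  exact (continuous_cc.measurable.inv).pow_const _

theorem lintegral_PP {f : V n → ℝ≥0∞} (hf : Measurable f) :
    ∫⁻ y, f y ∂(PP n) = (ZZ n)⁻¹ * ∫⁻ y, ENNReal.ofReal ((cc y)⁻¹ ^ (n + 1)) * f y := by
  unfold PP
  rw [lintegral_smul_measure, lintegral_withDensity_eq_lintegral_mul _ meas_dens hf]
  rfl

instance : IsProbabilityMeasure (PP n) := by
  constructor
  rw [← lintegral_one, lintegral_PP measurable_const]
  simp only [mul_one]
  exact ENNReal.inv_mul_cancel ZZ_ne_zero ZZ_ne_top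

theorem measurable_Mo {κ : ℝ → ℝ≥0∞} : Monotone (Mo n κ) := by
  intro a b hab
  unfold Mo
  apply lintegral_mono
  intro s
  exact mul_le_mul_right (indicator_le_indicator_of_subset (Iio_subset_Iio hab)
    (fun _ => zero_le) s) _

/-- superposition formula -/
theorem lintegral_super {F : Set (EE n)} {ρ : V n → ℝ} (hF : Star F ρ) (hρ : Measurable ρ)
    {κ : ℝ → ℝ≥0∞} (hκ : Measurable κ) :
    ∫⁻ x in F, κ ‖x‖ = ∫⁻ y, (∫⁻ x in Metric.ball (0 : EE n) (ρ y), κ ‖x‖) ∂(PP n) := by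
  simp only [lintegral_ball _ hκ]
  have hm : Measurable fun y => 2 * ZZ n * Mo n κ (ρ y) :=
    (measurable_Mo.measurable.comp hρ).const_mul _
  rw [lintegral_PP hm, lintegral_star hF hκ]
  have h1 : ∀ y : V n, ENNReal.ofReal ((cc y)⁻¹ ^ (n + 1)) * (2 * ZZ n * Mo n κ (ρ y)) =
      (2 * ZZ n) * (ENNReal.ofReal ((cc y)⁻¹ ^ (n + 1)) * Mo n κ (ρ y)) := by
    intro y
    ring
  simp only [h1]
  rw [lintegral_const_mul' _ _ (ENNReal.mul_ne_top (by norm_num) ZZ_ne_top), ← mul_assoc]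
  congr 1
  rw [mul_comm 2 (ZZ n), ← mul_assoc, ENNReal.inv_mul_cancel ZZ_ne_zero ZZ_ne_top, one_mul]

end Pool.Agent.H51.Maxi
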