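import Pool.Agent.H51.Maxi.Psi

open MeasureTheory Set Filter Topology
open scoped ENNReal Real ComplexConjugate Interval

namespace Pool.Agent.H51.Maxi

/-- `∫ (1-x²)^m cos(2πtx) dx` -/
noncomputable def BI (m t : ℝ) : ℝ := ∫ x in (-1 : ℝ)..1, (1 - x ^ 2) ^ m * Real.cos (2 * π * t * x)

/-- its derivative in `t` -/
noncomputable def BD (m t : ℝ) : ℝ :=
  ∫ x in (-1 : ℝ)..1, (1 - x ^ 2) ^ m * (-(2 * π * x) * Real.sin (2 * π * t * x))

theorem cont_w {m : ℝ} (hm : 0 ≤ m) : Continuous fun x : ℝ => (1 - x ^ 2) ^ m :=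
  (by fun_prop : Continuous fun x : ℝ => 1 - x ^ 2).rpow_const fun x => Or.inr hm

theorem w_le {m x : ℝ} (hm : 0 ≤ m) (hx : x ∈ Ι (-1 : ℝ) 1) : |(1 - x ^ 2) ^ m| ≤ 1 := by
  rw [uIoc_of_le (by norm_num)] at hx
  have h1 : 0 ≤ 1 - x ^ 2 := by nlinarith [hx.1, hx.2]
  have h2 : 1 - x ^ 2 ≤ 1 := by nlinarith [sq_nonneg x]
  rw [abs_of_nonneg (Real.rpow_nonneg h1 m)]
  exact Real.rpow_le_one h1 h2 hm

theorem abs_le_one_of_mem {x : ℝ} (hx : x ∈ Ι (-1 : ℝ) 1) : |x| ≤ 1 := by
  rw [uIoc_of_le (by norm_num)] at hx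
  exact abs_le.2 ⟨hx.1.le, hx.2⟩

theorem hasDerivAt_BI {m : ℝ} (hm : 0 ≤ m) (t : ℝ) : HasDerivAt (BI m) (BD m t) t := by
  refine (intervalIntegral.hasDerivAt_integral_of_dominated_loc_of_deriv_le
    (F := fun t x => (1 - x ^ 2) ^ m * Real.cos (2 * π * t * x))
    (F' := fun t x => (1 - x ^ 2) ^ m * (-(2 * π * x) * Real.sin (2 * π * t * x)))
    (bound := fun _ => 2 * π) (s := univ) univ_mem ?_ ?_ ?_ ?_ ?_ ?_).2
  · exact Eventually.of_forall fun t =>
      ((cont_w hm).mul (by fun_prop)).aestronglyMeasurable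
  · exact ((cont_w hm).mul (by fun_prop)).intervalIntegrable _ _
  · exact ((cont_w hm).mul (by fun_prop)).aestronglyMeasurable
  · refine Eventually.of_forall fun x hx s _ => ?_
    rw [norm_mul, norm_mul, norm_neg]
    have h1 := w_le hm hx
    have h2 : ‖2 * π * x‖ ≤ 2 * π := by
      rw [norm_mul, Real.norm_of_nonneg (by positivity : 0 ≤ 2 * π)]
      have := abs_le_one_of_mem hx
      rw [Real.norm_eq_abs]
      have := Real.pi_pos
      nlinarith
    have h3 : ‖Real.sin (2 * π * s * x)‖ ≤ 1 := Real.abs_sin_le_one _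
    calc ‖(1 - x ^ 2) ^ m‖ * (‖2 * π * x‖ * ‖Real.sin (2 * π * s * x)‖) ≤ 1 * (2 * π * 1) := by
          apply mul_le_mul h1 _ (by positivity) zero_le_one
          exact mul_le_mul h2 h3 (norm_nonneg _) (by positivity)
      _ = 2 * π := by ring
  · exact continuous_const.intervalIntegrable _ _
  · refine Eventually.of_forall fun x hx s _ => ?_
    have h1 : HasDerivAt (fun s : ℝ => 2 * π * s * x) (2 * π * x) s := by
      have := ((hasDerivAt_id s).const_mul (2 * π)).mul_const x
      simpa using this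
    have h2 := h1.cos.const_mul ((1 - x ^ 2) ^ m)
    convert! h2 using 1
    ring

theorem hasDerivAt_BD0 {m : ℝ} (hm : 0 ≤ m) (t : ℝ) :
    HasDerivAt (BD m) (-(4 * π ^ 2) * (BI m t - BI (m + 1) t)) t := by
  have h := (intervalIntegral.hasDerivAt_integral_of_dominated_loc_of_deriv_le
    (F := fun t x => (1 - x ^ 2) ^ m * (-(2 * π * x) * Real.sin (2 * π * t * x)))
    (F' := fun t x => (1 - x ^ 2) ^ m * (-(2 * π * x) * (Real.cos (2 * π * t * x) * (2 * π * x))))
    (bound := fun _ => 4 * π ^ 2) (s := univ) (x₀ := t) (a := -1) (b := 1) (μ := volume)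
    univ_mem ?_ ?_ ?_ ?_ ?_ ?_).2
  · have e : ∫ x in (-1 : ℝ)..1, (1 - x ^ 2) ^ m * (-(2 * π * x) *
        (Real.cos (2 * π * t * x) * (2 * π * x))) = -(4 * π ^ 2) * (BI m t - BI (m + 1) t) := by
      unfold BI
      rw [← intervalIntegral.integral_sub, ← intervalIntegral.integral_const_mul]
      · apply intervalIntegral.integral_congr
        intro x hx
        rw [uIcc_of_le (by norm_num)] at hx
        beta_reduce
        have h1 : 0 ≤ 1 - x ^ 2 := by nlinarith [hx.1, hx.2]
        have h2 : (1 - x ^ 2) ^ (m + 1) = (1 - x ^ 2) ^ m * (1 - x ^ 2) := by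
          rcases h1.eq_or_lt with h0 | h0
          · rw [← h0, Real.zero_rpow (by linarith), mul_zero]
          · rw [Real.rpow_add_one h0.ne']
        rw [h2]
        ring
      · exact ((cont_w hm).mul (by fun_prop)).intervalIntegrable _ _
      · exact ((cont_w (by linarith : 0 ≤ m + 1)).mul (by fun_prop)).intervalIntegrable _ _
    rw [← e]
    exact h
  · exact Eventually.of_forall fun t =>
      ((cont_w hm).mul (by fun_prop)).aestronglyMeasurable
  · exact ((cont_w hm).mul (by fun_prop)).intervalIntegrable _ _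
  · exact ((cont_w hm).mul (by fun_prop)).aestronglyMeasurable
  · refine Eventually.of_forall fun x hx s _ => ?_
    rw [norm_mul, norm_mul, norm_mul, norm_neg]
    have h1 := w_le hm hx
    have h2 : ‖2 * π * x‖ ≤ 2 * π := by
      rw [norm_mul, Real.norm_of_nonneg (by positivity : 0 ≤ 2 * π)]
      have := abs_le_one_of_mem hx
      rw [Real.norm_eq_abs]
      have := Real.pi_pos
      nlinarith
    have h3 : ‖Real.cos (2 * π * s * x)‖ ≤ 1 := Real.abs_cos_le_one _
    calc ‖(1 - x ^ 2) ^ m‖ * (‖2 * π * x‖ * (‖Real.cos (2 * π * s * x)‖ * ‖2 * π * x‖))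
        ≤ 1 * (2 * π * (1 * (2 * π))) := by
          apply mul_le_mul h1 _ (by positivity) zero_le_one
          exact mul_le_mul h2 (mul_le_mul h3 h2 (norm_nonneg _) zero_le_one) (by positivity)
            (by positivity)
      _ = 4 * π ^ 2 := by ring
  · exact continuous_const.intervalIntegrable _ _
  · refine Eventually.of_forall fun x hx s _ => ?_
    have h1 : HasDerivAt (fun s : ℝ => 2 * π * s * x) (2 * π * x) s := by
      have := ((hasDerivAt_id s).const_mul (2 * π)).mul_const x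
      simpa using this
    have h2 := (h1.sin.const_mul (-(2 * π * x))).const_mul ((1 - x ^ 2) ^ m)
    exact h2

theorem BD_eq {m : ℝ} (hm : 0 ≤ m) (t : ℝ) :
    BD m t = -(2 * π ^ 2 * t / (m + 1)) * BI (m + 1) t := by
  have hv : ∀ x ∈ uIcc (-1 : ℝ) 1, HasDerivAt (fun x : ℝ => (1 - x ^ 2) ^ (m + 1))
      (-(2 * (m + 1)) * x * (1 - x ^ 2) ^ m) x := by
    intro x _
    have h1 : HasDerivAt (fun x : ℝ => 1 - x ^ 2) (-(2 * x)) x := by
      have := (hasDerivAt_pow 2 x).const_sub 1
      simpa using this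
    have h2 := h1.rpow_const (p := m + 1) (Or.inr (by linarith))
    convert! h2 using 1
    rw [add_sub_cancel_right]
    ring
  have hu : ∀ x ∈ uIcc (-1 : ℝ) 1, HasDerivAt (fun x : ℝ => Real.sin (2 * π * t * x))
      (Real.cos (2 * π * t * x) * (2 * π * t)) x := by
    intro x _
    have h1 : HasDerivAt (fun x : ℝ => 2 * π * t * x) (2 * π * t) x := by
      have := (hasDerivAt_id x).const_mul (2 * π * t)
      simpa using this
    exact h1.sin
  have h := intervalIntegral.integral_mul_deriv_eq_deriv_mul hu hv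
    ((by fun_prop : Continuous fun x : ℝ => Real.cos (2 * π * t * x) * (2 * π * t)).intervalIntegrable
      _ _)
    (((by fun_prop : Continuous fun x : ℝ => -(2 * (m + 1)) * x).mul (cont_w hm)).intervalIntegrable
      _ _)
  have hm1 : m + 1 ≠ 0 := by linarith
  have b1 : ((1 : ℝ) - 1 ^ 2) ^ (m + 1) = 0 := by norm_num; exact Real.zero_rpow hm1
  have b2 : ((1 : ℝ) - (-1) ^ 2) ^ (m + 1) = 0 := by norm_num; exact Real.zero_rpow hm1
  rw [b1, b2, mul_zero, mul_zero, sub_zero, zero_sub] at h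
  have e1 : ∫ x in (-1 : ℝ)..1, Real.sin (2 * π * t * x) * (-(2 * (m + 1)) * x * (1 - x ^ 2) ^ m) =
      ((m + 1) / π) * BD m t := by
    unfold BD
    rw [← intervalIntegral.integral_const_mul]
    apply intervalIntegral.integral_congr
    intro x _
    beta_reduce
    field_simp
  have e2 : ∫ x in (-1 : ℝ)..1, Real.cos (2 * π * t * x) * (2 * π * t) * (1 - x ^ 2) ^ (m + 1) =
      (2 * π * t) * BI (m + 1) t := by
    unfold BI
    rw [← intervalIntegral.integral_const_mul]
    apply intervalIntegral.integral_congr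
    intro x _
    beta_reduce
    ring
  have h' : ((m + 1) / π) * BD m t = -((2 * π * t) * BI (m + 1) t) := by
    rw [← e1, ← e2]
    exact h
  have hpi := Real.pi_ne_zero
  field_simp at h' ⊢
  linarith

theorem hasDerivAt_BD {m : ℝ} (hm : 0 ≤ m) {t : ℝ} (ht : 0 < t) :
    HasDerivAt (BD m) (-(4 * π ^ 2) * BI m t - 2 * (m + 1) / t * BD m t) t := by
  have h := hasDerivAt_BD0 hm t
  have e := BD_eq hm t
  have : -(4 * π ^ 2) * (BI m t - BI (m + 1) t) =
      -(4 * π ^ 2) * BI m t - 2 * (m + 1) / t * BD m t := by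
    rw [e]
    have hm1 : m + 1 ≠ 0 := by linarith
    field_simp
    ring
  rw [← this]
  exact h

theorem abs_BI_le {m : ℝ} (hm : 0 ≤ m) (t : ℝ) : |BI m t| ≤ 2 := by
  have := intervalIntegral.norm_integral_le_of_norm_le_const (a := -1) (b := 1)
    (f := fun x => (1 - x ^ 2) ^ m * Real.cos (2 * π * t * x)) (C := 1) (by
      intro x hx
      rw [norm_mul]
      exact mul_le_one₀ (w_le hm hx) (norm_nonneg _) (Real.abs_cos_le_one _))
  rw [Real.norm_eq_abs] at this
  refine this.trans ?_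
  norm_num

theorem abs_BD_le {m : ℝ} (hm : 0 ≤ m) (t : ℝ) : |BD m t| ≤ 4 * π := by
  have := intervalIntegral.norm_integral_le_of_norm_le_const (a := -1) (b := 1)
    (f := fun x => (1 - x ^ 2) ^ m * (-(2 * π * x) * Real.sin (2 * π * t * x))) (C := 2 * π) (by
      intro x hx
      rw [norm_mul, norm_mul, norm_neg]
      have h1 := w_le hm hx
      have h2 : ‖2 * π * x‖ ≤ 2 * π := by
        rw [norm_mul, Real.norm_of_nonneg (by positivity : 0 ≤ 2 * π)]
        have := abs_le_one_of_mem hx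
        rw [Real.norm_eq_abs]
        have := Real.pi_pos
        nlinarith
      have h3 : ‖Real.sin (2 * π * t * x)‖ ≤ 1 := Real.abs_sin_le_one _
      calc ‖(1 - x ^ 2) ^ m‖ * (‖2 * π * x‖ * ‖Real.sin (2 * π * t * x)‖) ≤ 1 * (2 * π * 1) := by
            apply mul_le_mul h1 _ (by positivity) zero_le_one
            exact mul_le_mul h2 h3 (norm_nonneg _) (by positivity)
        _ = 2 * π := by ring)
  rw [Real.norm_eq_abs] at this
  refine this.trans (le_of_eq ?_)
  norm_num
  ring

/-- normalised function `y(t) = t^{m+1} I(t)` -/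
noncomputable def By (m t : ℝ) : ℝ := t ^ (m + 1) * BI m t

/-- its derivative -/
noncomputable def Bz (m t : ℝ) : ℝ := (m + 1) * t ^ m * BI m t + t ^ (m + 1) * BD m t

theorem hasDerivAt_By {m : ℝ} (hm : 0 ≤ m) {t : ℝ} (ht : 0 < t) :
    HasDerivAt (By m) (Bz m t) t := by
  have h1 : HasDerivAt (fun t : ℝ => t ^ (m + 1)) ((m + 1) * t ^ m) t := by
    have := (hasDerivAt_id t).rpow_const (p := m + 1) (Or.inr (by linarith))
    convert! this using 1
    rw [add_sub_cancel_right]
    simp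
  exact h1.mul (hasDerivAt_BI hm t)

theorem hasDerivAt_Bz {m : ℝ} (hm : 0 ≤ m) {t : ℝ} (ht : 0 < t) :
    HasDerivAt (Bz m) ((m * (m + 1) / t ^ 2 - 4 * π ^ 2) * By m t) t := by
  have h1 : HasDerivAt (fun t : ℝ => t ^ (m + 1)) ((m + 1) * t ^ m) t := by
    have := (hasDerivAt_id t).rpow_const (p := m + 1) (Or.inr (by linarith))
    convert! this using 1
    rw [add_sub_cancel_right]
    simp
  have h2 : HasDerivAt (fun t : ℝ => t ^ m) (m * t ^ (m - 1)) t := by
    have := (hasDerivAt_id t).rpow_const (p := m) (Or.inl ht.ne')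
    simpa using this
  have h3 := ((h2.const_mul (m + 1)).mul (hasDerivAt_BI hm t)).add (h1.mul (hasDerivAt_BD hm ht))
  convert! h3 using 1
  unfold By
  have e1 : t ^ (m + 1) = t ^ (m - 1) * t ^ 2 := by
    rw [← Real.rpow_natCast t 2, ← Real.rpow_add ht]
    congr 1
    push_cast
    ring
  have e2 : t ^ m = t ^ (m - 1) * t := by
    conv_rhs => rw [← Real.rpow_add_one ht.ne']
    congr 1
    ring
  rw [e1, e2]
  field_simp
  ring

/-- the energy is bounded -/
theorem energy_bdd {m : ℝ} (hm : 0 ≤ m) :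
    ∃ C, 0 ≤ C ∧ ∀ t ≥ 1, Bz m t ^ 2 + 4 * π ^ 2 * By m t ^ 2 ≤ C := by
  set c := m * (m + 1) with hc
  have hc0 : 0 ≤ c := by positivity
  set E : ℝ → ℝ := fun t => Bz m t ^ 2 + 4 * π ^ 2 * By m t ^ 2 with hE
  have hEd : ∀ t > 0, HasDerivAt E (2 * (c / t ^ 2) * (Bz m t * By m t)) t := by
    intro t ht
    have h := ((hasDerivAt_Bz hm ht).pow 2).add (((hasDerivAt_By hm ht).pow 2).const_mul (4 * π ^ 2))
    convert! h using 1
    rw [hc]
    ring
  set F : ℝ → ℝ := fun t => E t * Real.exp (c / (2 * π) * t⁻¹) with hF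
  have hFd : ∀ t > 0, HasDerivAt F (2 * (c / t ^ 2) * (Bz m t * By m t) *
      Real.exp (c / (2 * π) * t⁻¹) + E t * (Real.exp (c / (2 * π) * t⁻¹) *
        (c / (2 * π) * (-(t ^ 2)⁻¹)))) t := by
    intro t ht
    have h1 : HasDerivAt (fun t : ℝ => c / (2 * π) * t⁻¹) (c / (2 * π) * (-(t ^ 2)⁻¹)) t :=
      (hasDerivAt_inv ht.ne').const_mul _
    exact (hEd t ht).mul h1.exp
  have hanti : AntitoneOn F (Ici 1) := by
    apply antitoneOn_of_deriv_nonpos (convex_Ici 1)
    · intro t ht
      exact (hFd t (lt_of_lt_of_le one_pos ht)).continuousAt.continuousWithinAt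
    · intro t ht
      rw [interior_Ici] at ht
      exact (hFd t (lt_trans one_pos ht)).differentiableAt.differentiableWithinAt
    · intro t ht
      rw [interior_Ici] at ht
      have ht0 : 0 < t := lt_trans one_pos ht
      rw [(hFd t ht0).deriv]
      have hE0 : 2 * (Bz m t * By m t) * (2 * π) ≤ E t := by
        simp only [hE]
        nlinarith [sq_nonneg (Bz m t - 2 * π * By m t)]
      have e : 2 * (c / t ^ 2) * (Bz m t * By m t) * Real.exp (c / (2 * π) * t⁻¹) +
          E t * (Real.exp (c / (2 * π) * t⁻¹) * (c / (2 * π) * (-(t ^ 2)⁻¹))) =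
          (c / t ^ 2 * Real.exp (c / (2 * π) * t⁻¹) / (2 * π)) *
            (2 * (Bz m t * By m t) * (2 * π) - E t) := by
        have := Real.pi_ne_zero
        field_simp
        ring
      rw [e]
      exact mul_nonpos_of_nonneg_of_nonpos (by positivity) (by linarith)
  refine ⟨F 1, ?_, fun t ht => ?_⟩
  · simp only [hF, hE]
    positivity
  · have h1 : F t ≤ F 1 := hanti (mem_Ici.2 le_rfl) ht ht
    have h2 : E t ≤ F t := by
      simp only [hF]
      have h3 : 1 ≤ Real.exp (c / (2 * π) * t⁻¹) := by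
        apply Real.one_le_exp
        have : 0 < t := by linarith
        positivity
      have h4 : 0 ≤ E t := by
        simp only [hE]
        positivity
      nlinarith
    exact h2.trans h1

/-- slowly varying complex amplitude -/
noncomputable def Bal (m t : ℝ) : ℂ :=
  ((Bz m t : ℂ) - 2 * π * Complex.I * (By m t : ℂ)) * Complex.exp ((2 * π * t) * Complex.I) *
    (Complex.I / (4 * π))

theorem osc_Bal (m t : ℝ) : osc (Bal m t) t = By m t := by
  unfold osc Bal
  have h1 : Complex.exp (-(2 * π * t) * Complex.I) * Complex.exp ((2 * π * t) * Complex.I) = 1 := by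
    rw [← Complex.exp_add]
    have : (-(2 * π * t) * Complex.I + (2 * π * t) * Complex.I : ℂ) = 0 := by ring
    rw [this, Complex.exp_zero]
  have h2 : Complex.exp (-(2 * π * t) * Complex.I) *
      (((Bz m t : ℂ) - 2 * π * Complex.I * (By m t : ℂ)) * Complex.exp ((2 * π * t) * Complex.I) *
    (Complex.I / (4 * π))) = ((By m t / 2 : ℝ) : ℂ) + ((Bz m t / (4 * π) : ℝ) : ℂ) * Complex.I := by
    have h3 : Complex.exp (-(2 * π * t) * Complex.I) *
      (((Bz m t : ℂ) - 2 * π * Complex.I * (By m t : ℂ)) * Complex.exp ((2 * π * t) * Complex.I) *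
    (Complex.I / (4 * π))) = (Complex.exp (-(2 * π * t) * Complex.I) *
      Complex.exp ((2 * π * t) * Complex.I)) *
      (((Bz m t : ℂ) - 2 * π * Complex.I * (By m t : ℂ)) * (Complex.I / (4 * π))) := by ring
    rw [h3, h1, one_mul]
    have hpi : (π : ℂ) ≠ 0 := by exact_mod_cast Real.pi_ne_zero
    push_cast
    field_simp
    have := Complex.I_sq
    linear_combination (-4 * (π : ℂ) * (By m t : ℂ)) * this
  rw [h2, Complex.add_re, Complex.ofReal_re, Complex.re_ofReal_mul, Complex.I_re]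
  ring

theorem hasDerivAt_Bal {m : ℝ} (hm : 0 ≤ m) {t : ℝ} (ht : 0 < t) :
    HasDerivAt (Bal m) ((((m * (m + 1) / t ^ 2 : ℝ) * By m t : ℝ) : ℂ) *
      Complex.exp ((2 * π * t) * Complex.I) * (Complex.I / (4 * π))) t := by
  have h1 := (hasDerivAt_Bz hm ht).ofReal_comp
  have h2 := (hasDerivAt_By hm ht).ofReal_comp
  have h3 : HasDerivAt (fun t : ℝ => Complex.exp ((2 * π * t) * Complex.I))
      (Complex.exp ((2 * π * t) * Complex.I) * (2 * π * Complex.I)) t := by
    have h4 : HasDerivAt (fun t : ℝ => ((2 * π * (t : ℂ)) * Complex.I)) (2 * π * Complex.I) t := by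
      have h5 : HasDerivAt (fun t : ℝ => (t : ℂ)) 1 t := Complex.ofRealCLM.hasDerivAt
      have h6 := (h5.const_mul (2 * π : ℂ)).mul_const Complex.I
      convert! h6 using 1
      ring
    exact h4.cexp
  have h7 := ((h1.sub (h2.const_mul (2 * π * Complex.I))).mul h3).mul_const (Complex.I / (4 * π))
  convert! h7 using 1
  push_cast
  have := Complex.I_sq
  have hI : Complex.I * Complex.I = -1 := Complex.I_mul_I
  have hpi : (π : ℂ) ≠ 0 := by exact_mod_cast Real.pi_ne_zero
  have ht' : (t : ℂ) ≠ 0 := by exact_mod_cast ht.ne'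
  simp only [Pi.sub_apply]
  field_simp
  linear_combination (4 * (π : ℂ) ^ 2 * (t : ℂ) ^ 2 * (By m t : ℂ)) * this

theorem contOn_Bal {m : ℝ} (hm : 0 ≤ m) : ContinuousOn (Bal m) (Ioi 0) := fun _ ht =>
  (hasDerivAt_Bal hm ht).continuousAt.continuousWithinAt

theorem By_bdd {m : ℝ} (hm : 0 ≤ m) : ∃ C, 0 < C ∧ ∀ t ≥ 1, |By m t| ≤ C ∧ |Bz m t| ≤ C := by
  obtain ⟨C, hC0, hC⟩ := energy_bdd hm
  refine ⟨Real.sqrt C + 1, by positivity, fun t ht => ?_⟩
  have h := hC t ht
  have hpi : 1 ≤ 4 * π ^ 2 := by nlinarith [Real.pi_gt_three]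
  have h1 : By m t ^ 2 ≤ C := by nlinarith [sq_nonneg (Bz m t), sq_nonneg (By m t)]
  have h2 : Bz m t ^ 2 ≤ C := by nlinarith [sq_nonneg (Bz m t), sq_nonneg (By m t)]
  have h3 := Real.abs_le_sqrt h1
  have h4 := Real.abs_le_sqrt h2
  constructor <;> linarith

theorem exists_lim {m : ℝ} (hm : 0 ≤ m) : ∃ a0 : ℂ, Tendsto (Bal m) atTop (𝓝 a0) := by
  obtain ⟨C, hC0, hC⟩ := By_bdd hm
  refine ⟨_, tendsto_limUnder_of_hasDerivAt_of_integrableOn_Ioi (a := 1)
    (fun t ht => hasDerivAt_Bal hm (lt_trans one_pos ht)) ?_⟩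
  have hdom : IntegrableOn (fun t : ℝ => (m * (m + 1) * C) * t ^ (-2 : ℝ)) (Ioi 1) :=
    (integrableOn_Ioi_rpow_of_lt (by norm_num) one_pos).const_mul _
  refine hdom.mono' ?_ ?_
  · apply ContinuousOn.aestronglyMeasurable _ measurableSet_Ioi
    have c1 : ContinuousOn (By m) (Ioi 1) := fun t ht =>
      (hasDerivAt_By hm (lt_trans one_pos ht)).continuousAt.continuousWithinAt
    have c2 : ContinuousOn (fun t : ℝ => (m * (m + 1) / t ^ 2) * By m t) (Ioi 1) := by
      refine ContinuousOn.mul (continuousOn_const.div (by fun_prop) ?_) c1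
      intro t ht
      have : 0 < t := lt_trans one_pos ht
      positivity
    exact ((Complex.continuous_ofReal.comp_continuousOn c2).mul (by fun_prop)).mul
      continuousOn_const
  · rw [ae_restrict_iff' measurableSet_Ioi]
    refine Eventually.of_forall fun t ht => ?_
    have ht1 : 1 < t := ht
    have ht0 : 0 < t := lt_trans one_pos ht
    have h1 : ‖Complex.exp ((2 * π * t) * Complex.I)‖ = 1 := by
      have := Complex.norm_exp_ofReal_mul_I (2 * π * t)
      push_cast at this
      exact this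
    have h2 : ‖Complex.I / (4 * π)‖ ≤ 1 := by
      rw [norm_div, Complex.norm_I]
      have : ‖(4 * π : ℂ)‖ = 4 * π := by
        rw [norm_mul, Complex.norm_real, Real.norm_of_nonneg Real.pi_pos.le]
        norm_num
      rw [this, div_le_one (by positivity)]
      linarith [Real.pi_gt_three]
    rw [norm_mul, norm_mul, h1, mul_one, Complex.norm_real, norm_mul,
      Real.norm_of_nonneg (by positivity : 0 ≤ m * (m + 1) / t ^ 2)]
    have h3 := (hC t ht1.le).1
    have h4 : t ^ (-2 : ℝ) = 1 / t ^ 2 := by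
      rw [Real.rpow_neg ht0.le, one_div]
      norm_num
    rw [h4]
    calc m * (m + 1) / t ^ 2 * ‖By m t‖ * ‖Complex.I / (4 * π)‖ ≤ m * (m + 1) / t ^ 2 * C * 1 := by
          apply mul_le_mul _ h2 (norm_nonneg _) (by positivity)
          exact mul_le_mul_of_nonneg_left h3 (by positivity)
      _ = _ := by ring

/-- Uniform bounds. -/
theorem BI_bdd {m : ℝ} (hm : 0 ≤ m) : ∃ C, 0 < C ∧
    (∀ t, |BI m t| ≤ C ∧ |BD m t| ≤ C) ∧
    (∀ t ≥ 1, t ^ (m + 1) * |BI m t| ≤ C ∧ t ^ (m + 1) * |BD m t| ≤ C) := by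
  obtain ⟨C, hC0, hC⟩ := By_bdd hm
  refine ⟨2 + 4 * π + (m + 2) * C, by positivity, fun t => ⟨?_, ?_⟩, fun t ht => ?_⟩
  · have := abs_BI_le hm t
    have h : 0 ≤ 4 * π + (m + 2) * C := by positivity
    linarith
  · have := abs_BD_le hm t
    have h : 0 ≤ 2 + (m + 2) * C := by positivity
    linarith
  · have ht0 : 0 < t := by linarith
    obtain ⟨h1, h2⟩ := hC t ht
    have e1 : t ^ (m + 1) * |BI m t| = |By m t| := by
      unfold By
      rw [abs_mul, abs_of_nonneg (Real.rpow_nonneg ht0.le _)]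
    have e2 : t ^ (m + 1) * |BD m t| = |Bz m t - (m + 1) / t * By m t| := by
      have : Bz m t - (m + 1) / t * By m t = t ^ (m + 1) * BD m t := by
        unfold Bz By
        have : t ^ (m + 1) = t ^ m * t := Real.rpow_add_one ht0.ne' _
        rw [this]
        field_simp
        ring
      rw [this, abs_mul, abs_of_nonneg (Real.rpow_nonneg ht0.le _)]
    constructor
    · rw [e1]
      have : 0 ≤ 2 + 4 * π + (m + 1) * C := by positivity
      linarith
    · rw [e2]
      have h3 := abs_sub (Bz m t) ((m + 1) / t * By m t)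
      have h4 : |(m + 1) / t * By m t| ≤ (m + 1) * C := by
        rw [abs_mul, abs_of_nonneg (by positivity : 0 ≤ (m + 1) / t)]
        have : (m + 1) / t ≤ m + 1 := by
          rw [div_le_iff₀ ht0]
          nlinarith
        exact mul_le_mul this h1 (abs_nonneg _) (by positivity)
      have : 0 ≤ 2 + 4 * π := by positivity
      linarith

end Pool.Agent.H51.Maxi
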