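import Pool.Agent.H51.Maxi.Lim
import Pool.Agent.H51.Maxi.Bessel

open MeasureTheory Set Filter Topology
open scoped ENNReal Real ComplexConjugate Interval

namespace Pool.Agent.H51.Maxi

theorem Psi_homog {q c : ℝ} (hc : 0 < c) (a b : ℝ) : Psi q (c * a) (c * b) = c ^ q * Psi q a b := by
  unfold Psi
  rw [← mul_add, abs_mul, abs_mul, abs_of_pos hc, Real.mul_rpow hc.le (abs_nonneg _),
    Real.mul_rpow hc.le (abs_nonneg _), Real.mul_rpow hc.le (abs_nonneg _)]
  have : c ^ q = c ^ (q - 2) * c ^ 2 := by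
    rw [← Real.rpow_natCast c 2, ← Real.rpow_add hc]
    congr 1
    push_cast
    ring
  rw [this]
  ring

/-- normalised profile of the transform of the ball of radius `ρ` in dimension `2m+1` -/
noncomputable def BG (m ρ t : ℝ) : ℝ := ρ ^ (2 * m + 1) * BI m (ρ * t)

theorem BG_one (m t : ℝ) : BG m 1 t = BI m t := by
  unfold BG
  rw [Real.one_rpow, one_mul, one_mul]

theorem hasDerivAt_BG {m : ℝ} (hm : 0 ≤ m) (t : ℝ) {ρ : ℝ} :
    HasDerivAt (fun ρ => BG m ρ t)
      ((2 * m + 1) * ρ ^ (2 * m) * BI m (ρ * t) + ρ ^ (2 * m + 1) * (BD m (ρ * t) * t)) ρ := by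
  have h1 : HasDerivAt (fun ρ : ℝ => ρ ^ (2 * m + 1)) ((2 * m + 1) * ρ ^ (2 * m)) ρ := by
    have := (hasDerivAt_id ρ).rpow_const (p := 2 * m + 1) (Or.inr (by linarith))
    convert! this using 1
    rw [add_sub_cancel_right]
    simp
  have h2 : HasDerivAt (fun ρ : ℝ => BI m (ρ * t)) (BD m (ρ * t) * t) ρ := by
    have h3 : HasDerivAt (fun ρ : ℝ => ρ * t) t ρ := by
      simpa using (hasDerivAt_id ρ).mul_const t
    exact (hasDerivAt_BI hm (ρ * t)).comp ρ h3
  exact h1.mul h2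

/-- the difference is small -/
theorem BG_diff {m : ℝ} (hm : 0 ≤ m) : ∃ C, 0 < C ∧ ∀ u ∈ Ioc (0 : ℝ) (1 / 2), ∀ t > 0,
    t ^ (m + 1) * |BG m (1 - u) t - BI m t| ≤ C * min 1 (u * t) ∧ t ^ (m + 1) * |BI m t| ≤ C := by
  obtain ⟨C, hC0, hC1, hC2⟩ := BI_bdd hm
  have h2m : (1 : ℝ) ≤ 2 ^ (m + 1) := Real.one_le_rpow (by norm_num) (by linarith)
  set C' := 2 ^ (m + 1) * C with hC'
  have hCC' : C ≤ C' := by rw [hC']; nlinarith
  have hC'0 : 0 < C' := by positivity
  -- basic bounds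
  have hb : ∀ ρ ∈ Icc (1 / 2 : ℝ) 1, ∀ t > 0, t ^ (m + 1) * |BI m (ρ * t)| ≤ C' ∧
      t ^ (m + 1) * |BD m (ρ * t)| ≤ C' ∧ t ^ (m + 1) * |BI m (ρ * t)| ≤ C' * t := by
    intro ρ hρ t ht
    have hρ0 : 0 < ρ := by linarith [hρ.1]
    rcases le_total 1 (ρ * t) with h | h
    · have h1 : t ^ (m + 1) ≤ 2 ^ (m + 1) * (ρ * t) ^ (m + 1) := by
        rw [← Real.mul_rpow (by norm_num) (by positivity)]
        apply Real.rpow_le_rpow ht.le _ (by linarith)
        nlinarith [hρ.1]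
      have h2 := hC2 (ρ * t) h
      have h3 : t ^ (m + 1) * |BI m (ρ * t)| ≤ C' := by
        calc t ^ (m + 1) * |BI m (ρ * t)| ≤ 2 ^ (m + 1) * (ρ * t) ^ (m + 1) * |BI m (ρ * t)| :=
              mul_le_mul_of_nonneg_right h1 (abs_nonneg _)
          _ = 2 ^ (m + 1) * ((ρ * t) ^ (m + 1) * |BI m (ρ * t)|) := by ring
          _ ≤ 2 ^ (m + 1) * C := mul_le_mul_of_nonneg_left h2.1 (by positivity)
      have h4 : t ^ (m + 1) * |BD m (ρ * t)| ≤ C' := by
        calc t ^ (m + 1) * |BD m (ρ * t)| ≤ 2 ^ (m + 1) * (ρ * t) ^ (m + 1) * |BD m (ρ * t)| :=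
              mul_le_mul_of_nonneg_right h1 (abs_nonneg _)
          _ = 2 ^ (m + 1) * ((ρ * t) ^ (m + 1) * |BD m (ρ * t)|) := by ring
          _ ≤ 2 ^ (m + 1) * C := mul_le_mul_of_nonneg_left h2.2 (by positivity)
      refine ⟨h3, h4, h3.trans ?_⟩
      have : 1 ≤ t := by nlinarith [hρ.2]
      nlinarith
    · have ht2 : t ≤ 2 := by nlinarith [hρ.1]
      have h1 : t ^ (m + 1) ≤ 2 ^ (m + 1) := Real.rpow_le_rpow ht.le ht2 (by linarith)
      have h2 : t ^ (m + 1) ≤ 2 ^ (m + 1) * t := by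
        rw [Real.rpow_add_one ht.ne']
        apply mul_le_mul_of_nonneg_right _ ht.le
        refine (Real.rpow_le_rpow ht.le ht2 hm).trans ?_
        exact Real.rpow_le_rpow_of_exponent_le (by norm_num) (by linarith)
      have h3 := hC1 (ρ * t)
      refine ⟨mul_le_mul h1 h3.1 (abs_nonneg _) (by positivity),
        mul_le_mul h1 h3.2 (abs_nonneg _) (by positivity), ?_⟩
      calc t ^ (m + 1) * |BI m (ρ * t)| ≤ 2 ^ (m + 1) * t * C :=
            mul_le_mul h2 h3.1 (abs_nonneg _) (by positivity)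
        _ = C' * t := by rw [hC']; ring
  refine ⟨(2 * m + 2) * C', by positivity, fun u hu t ht => ⟨?_, ?_⟩⟩
  · rw [mul_min_of_nonneg _ _ (by positivity), le_min_iff]
    constructor
    · have h1 : |BG m (1 - u) t| ≤ |BI m ((1 - u) * t)| := by
        unfold BG
        rw [abs_mul]
        apply mul_le_of_le_one_left (abs_nonneg _)
        rw [abs_of_nonneg (Real.rpow_nonneg (by linarith [hu.2]) _)]
        exact Real.rpow_le_one (by linarith [hu.2]) (by linarith [hu.1]) (by linarith)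
      have h2 := abs_sub (BG m (1 - u) t) (BI m t)
      have h3 := (hb (1 - u) ⟨by linarith [hu.2], by linarith [hu.1]⟩ t ht).1
      have h4 := (hb 1 ⟨by norm_num, le_rfl⟩ t ht).1
      rw [one_mul] at h4
      have h5 : 0 ≤ t ^ (m + 1) := Real.rpow_nonneg ht.le _
      calc t ^ (m + 1) * |BG m (1 - u) t - BI m t| ≤
            t ^ (m + 1) * (|BI m ((1 - u) * t)| + |BI m t|) :=
            mul_le_mul_of_nonneg_left (h2.trans (by linarith)) h5
        _ ≤ 2 * C' := by rw [mul_add]; linarith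
        _ ≤ (2 * m + 2) * C' * 1 := by nlinarith
    · have key := Convex.norm_image_sub_le_of_norm_hasDerivWithin_le (𝕜 := ℝ)
        (f := fun ρ => t ^ (m + 1) * BG m ρ t)
        (f' := fun ρ => t ^ (m + 1) * ((2 * m + 1) * ρ ^ (2 * m) * BI m (ρ * t) +
          ρ ^ (2 * m + 1) * (BD m (ρ * t) * t)))
        (s := Icc (1 / 2 : ℝ) 1) (C := (2 * m + 2) * C' * t) (x := 1) (y := 1 - u)
        (fun ρ _ => ((hasDerivAt_BG hm t).const_mul _).hasDerivWithinAt) (by
          intro ρ hρ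
          have hρ0 : 0 < ρ := by linarith [hρ.1]
          obtain ⟨h1, h2, h3⟩ := hb ρ hρ t ht
          have h4 : ρ ^ (2 * m) ≤ 1 := Real.rpow_le_one hρ0.le hρ.2 (by linarith)
          have h5 : ρ ^ (2 * m + 1) ≤ 1 := Real.rpow_le_one hρ0.le hρ.2 (by linarith)
          have h6 : 0 ≤ t ^ (m + 1) := Real.rpow_nonneg ht.le _
          have h7 : 0 ≤ ρ ^ (2 * m) := Real.rpow_nonneg hρ0.le _
          have h8 : 0 ≤ ρ ^ (2 * m + 1) := Real.rpow_nonneg hρ0.le _
          have e : t ^ (m + 1) * ((2 * m + 1) * ρ ^ (2 * m) * BI m (ρ * t) +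
              ρ ^ (2 * m + 1) * (BD m (ρ * t) * t)) =
              (2 * m + 1) * (ρ ^ (2 * m) * (t ^ (m + 1) * BI m (ρ * t))) +
              t * (ρ ^ (2 * m + 1) * (t ^ (m + 1) * BD m (ρ * t))) := by ring
          rw [e]
          refine (norm_add_le _ _).trans ?_
          rw [norm_mul, norm_mul, norm_mul, norm_mul, norm_mul, norm_mul,
            Real.norm_of_nonneg h6, Real.norm_of_nonneg h7, Real.norm_of_nonneg h8,
            Real.norm_of_nonneg ht.le, Real.norm_of_nonneg (by linarith : 0 ≤ 2 * m + 1)]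
          have i1 : ρ ^ (2 * m) * (t ^ (m + 1) * ‖BI m (ρ * t)‖) ≤ 1 * (C' * t) :=
            mul_le_mul h4 h3 (by positivity) zero_le_one
          have i2 : ρ ^ (2 * m + 1) * (t ^ (m + 1) * ‖BD m (ρ * t)‖) ≤ 1 * C' :=
            mul_le_mul h5 h2 (by positivity) zero_le_one
          have i3 := mul_le_mul_of_nonneg_left i1 (by linarith : 0 ≤ 2 * m + 1)
          have i4 := mul_le_mul_of_nonneg_left i2 ht.le
          calc _ ≤ (2 * m + 1) * (1 * (C' * t)) + t * (1 * C') := add_le_add i3 i4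
            _ = _ := by ring) (convex_Icc _ _) ⟨by norm_num, le_rfl⟩
          ⟨by linarith [hu.2], by linarith [hu.1]⟩
      have e2 : (1 - u) - 1 = -u := by ring
      rw [BG_one, ← mul_sub, norm_mul, Real.norm_of_nonneg (Real.rpow_nonneg ht.le _),
        e2, norm_neg, Real.norm_of_nonneg hu.1.le] at key
      calc _ ≤ _ := key
        _ = _ := by ring
  · have h4 := (hb 1 ⟨by norm_num, le_rfl⟩ t ht).1
    rw [one_mul] at h4
    nlinarith

/-- radial functional -/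
noncomputable def RR (m q u : ℝ) : ℝ :=
  ∫ t in Ioi (0 : ℝ), t ^ (2 * m) * Psi q (BI m t) (BG m (1 - u) t - BI m t)

/-- amplitude of the difference -/
noncomputable def Bk (m u τ : ℝ) : ℂ :=
  (((1 - u) ^ m : ℝ) : ℂ) * (Complex.exp ((2 * π * τ) * Complex.I) * Bal m (τ / u - τ)) -
    Bal m (τ / u)

theorem osc_Bk {m u τ : ℝ} (hu : u ∈ Ioo (0 : ℝ) 1) (hτ : 0 < τ) :
    osc (Bk m u τ) (τ / u) = (τ / u) ^ (m + 1) * (BG m (1 - u) (τ / u) - BI m (τ / u)) := by
  unfold Bk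
  rw [osc_sub, osc_real_mul, osc_shift, osc_Bal, osc_Bal]
  unfold By BG
  have h1 : τ / u - τ = (1 - u) * (τ / u) := by
    have := hu.1.ne'
    field_simp
  have h2 : 0 < 1 - u := by linarith [hu.2]
  have h3 : 0 < τ / u := div_pos hτ hu.1
  rw [h1, Real.mul_rpow h2.le h3.le]
  have h4 : (1 - u) ^ (2 * m + 1) = (1 - u) ^ m * (1 - u) ^ (m + 1) := by
    rw [← Real.rpow_add h2]
    congr 1
    ring
  rw [h4]
  ring

theorem RR_eq {m q u : ℝ} (hu : u ∈ Ioo (0 : ℝ) 1) :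
    RR m q u = u ^ (1 + (m + 1) * (q - 2)) * ∫ τ in Ioi (0 : ℝ), τ ^ (-2 - (m + 1) * (q - 2)) *
      Psi q (osc (Bal m (τ / u)) (1 / u * τ)) (osc (Bk m u τ) (1 / u * τ)) := by
  have hu0 := hu.1
  set s := (m + 1) * (q - 2) with hs
  have h1 := integral_comp_mul_left_Ioi (fun t => t ^ (2 * m) * Psi q (BI m t)
    (BG m (1 - u) t - BI m t)) 0 (b := 1 / u) (by positivity)
  rw [mul_zero] at h1
  have h2 : RR m q u = (1 / u) * ∫ x in Ioi (0 : ℝ), (1 / u * x) ^ (2 * m) *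
      Psi q (BI m (1 / u * x)) (BG m (1 - u) (1 / u * x) - BI m (1 / u * x)) := by
    rw [h1, smul_eq_mul]
    unfold RR
    field_simp
  rw [h2, ← integral_const_mul, ← integral_const_mul]
  apply setIntegral_congr_fun measurableSet_Ioi
  intro τ hτ
  have hτ0 : 0 < τ := hτ
  beta_reduce
  have e1 : 1 / u * τ = τ / u := by ring
  have h3 : 0 < τ / u := div_pos hτ0 hu0
  rw [e1, osc_Bk hu hτ0, osc_Bal]
  unfold By
  rw [Psi_homog (Real.rpow_pos_of_pos h3 _)]
  have e2 : ((τ / u) ^ (m + 1)) ^ q = (τ / u) ^ (2 * m) * (τ / u) ^ (2 + s) := by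
    rw [← Real.rpow_mul h3.le, ← Real.rpow_add h3]
    congr 1
    rw [hs]
    ring
  have e3 : u ^ (1 + s) * (τ ^ (-2 - s) * (τ / u) ^ (2 + s)) = 1 / u := by
    rw [Real.div_rpow hτ0.le hu0.le]
    have : τ ^ (-2 - s) * τ ^ (2 + s) = 1 := by
      rw [← Real.rpow_add hτ0]
      have : -2 - s + (2 + s) = 0 := by ring
      rw [this, Real.rpow_zero]
    have h5 : u ^ (2 + s) = u ^ (1 + s) * u := by
      rw [← Real.rpow_add_one hu0.ne']
      congr 1
      ring
    have h6 : 0 < u ^ (1 + s) := Real.rpow_pos_of_pos hu0 _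
    rw [h5]
    calc u ^ (1 + s) * (τ ^ (-2 - s) * (τ ^ (2 + s) / (u ^ (1 + s) * u))) =
          (τ ^ (-2 - s) * τ ^ (2 + s)) * (u ^ (1 + s) / (u ^ (1 + s) * u)) := by ring
      _ = 1 / u := by rw [this, one_mul]; field_simp
  rw [e2]
  calc 1 / u * ((τ / u) ^ (2 * m) * Psi q (BI m (τ / u)) (BG m (1 - u) (τ / u) - BI m (τ / u))) =
      (u ^ (1 + s) * (τ ^ (-2 - s) * (τ / u) ^ (2 + s))) * ((τ / u) ^ (2 * m) *
        Psi q (BI m (τ / u)) (BG m (1 - u) (τ / u) - BI m (τ / u))) := by rw [e3]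
    _ = _ := by ring

theorem unif_Bal {m : ℝ} (hm : 0 ≤ m) {a0 : ℂ} (ha0 : Tendsto (Bal m) atTop (𝓝 a0)) {a b : ℝ}
    (ha : 0 < a) : TendstoUniformlyOn (fun u τ => Bal m (τ / u)) (fun _ => a0) (𝓝[>] (0 : ℝ))
      (Icc a b) := by
  rw [Metric.tendstoUniformlyOn_iff]
  intro ε hε
  rw [Metric.tendsto_atTop] at ha0
  obtain ⟨N, hN⟩ := ha0 ε hε
  have h1 : Tendsto (fun u : ℝ => a / u) (𝓝[>] 0) atTop :=
    Tendsto.const_mul_atTop ha tendsto_inv_nhdsGT_zero
  filter_upwards [h1.eventually_ge_atTop N, self_mem_nhdsWithin] with u hu hu0 τ hτ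
  rw [dist_comm]
  apply hN
  refine hu.trans ?_
  have : (0 : ℝ) < u := hu0
  gcongr
  exact hτ.1

theorem unif_Bk {m : ℝ} (hm : 0 ≤ m) {a0 : ℂ} (ha0 : Tendsto (Bal m) atTop (𝓝 a0)) {a b : ℝ}
    (ha : 0 < a) : TendstoUniformlyOn (Bk m)
      (fun τ => a0 * (Complex.exp ((2 * π * τ) * Complex.I) - 1)) (𝓝[>] (0 : ℝ)) (Icc a b) := by
  rw [Metric.tendstoUniformlyOn_iff]
  intro ε hε
  have hε4 : 0 < ε / 4 := by positivity
  have ha0' := ha0
  rw [Metric.tendsto_atTop] at ha0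
  obtain ⟨N, hN⟩ := ha0 (ε / 4) hε4
  have h1 : Tendsto (fun u : ℝ => a / u) (𝓝[>] 0) atTop :=
    Tendsto.const_mul_atTop ha tendsto_inv_nhdsGT_zero
  have h2 : Tendsto (fun u : ℝ => (1 - u) ^ m) (𝓝[>] 0) (𝓝 1) := by
    have : ContinuousAt (fun u : ℝ => (1 - u) ^ m) 0 := by
      apply ContinuousAt.rpow_const (by fun_prop)
      left
      norm_num
    have h3 := this.tendsto
    simp only [sub_zero, Real.one_rpow] at h3
    exact h3.mono_left nhdsWithin_le_nhds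
  have h3 : Tendsto (fun u : ℝ => |(1 - u) ^ m - 1| * (‖a0‖ + ε / 4)) (𝓝[>] 0) (𝓝 0) := by
    have : Tendsto (fun u : ℝ => |(1 - u) ^ m - 1|) (𝓝[>] 0) (𝓝 0) := by
      have := (h2.sub_const 1).abs
      simpa using this
    simpa using this.mul_const (‖a0‖ + ε / 4)
  filter_upwards [h1.eventually_ge_atTop (N + a), self_mem_nhdsWithin,
    h3.eventually_lt_const hε4, (tendsto_nhdsWithin_of_tendsto_nhds tendsto_id :
      Tendsto (fun u : ℝ => u) (𝓝[>] 0) (𝓝 0)).eventually_lt_const one_pos] with u hu hu0 hu3 hu1 τ hτ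
  have hu0' : (0 : ℝ) < u := hu0
  have hτ0 : 0 < τ := lt_of_lt_of_le ha hτ.1
  have b1 : N ≤ τ / u - τ := by
    have h5 : τ / u - τ = τ * (1 / u - 1) := by ring
    have h6 : a / u - a = a * (1 / u - 1) := by ring
    have h7 : 0 ≤ 1 / u - 1 := by
      rw [sub_nonneg, le_div_iff₀ hu0']
      linarith
    rw [h5]
    have := mul_le_mul_of_nonneg_right hτ.1 h7
    linarith
  have b2 : N ≤ τ / u := by linarith
  have c1 := hN _ b1
  have c2 := hN _ b2
  rw [dist_eq_norm] at c1 c2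
  rw [dist_eq_norm]
  unfold Bk
  have hexp : ‖Complex.exp ((2 * π * τ) * Complex.I)‖ = 1 := by
    have := Complex.norm_exp_ofReal_mul_I (2 * π * τ)
    push_cast at this
    exact this
  have e : a0 * (Complex.exp ((2 * π * τ) * Complex.I) - 1) -
      ((((1 - u) ^ m : ℝ) : ℂ) * (Complex.exp ((2 * π * τ) * Complex.I) * Bal m (τ / u - τ)) -
        Bal m (τ / u)) =
      (Bal m (τ / u) - a0) - Complex.exp ((2 * π * τ) * Complex.I) * (Bal m (τ / u - τ) - a0) -
        (((1 - u) ^ m - 1 : ℝ) : ℂ) * (Complex.exp ((2 * π * τ) * Complex.I) *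
          Bal m (τ / u - τ)) := by
    push_cast
    ring
  rw [e]
  have n1 : ‖Bal m (τ / u - τ)‖ ≤ ‖a0‖ + ε / 4 := by
    have := norm_sub_norm_le (Bal m (τ / u - τ)) a0
    linarith
  have n2 : ‖(((1 - u) ^ m - 1 : ℝ) : ℂ) * (Complex.exp ((2 * π * τ) * Complex.I) *
          Bal m (τ / u - τ))‖ < ε / 4 := by
    rw [norm_mul, norm_mul, hexp, one_mul, Complex.norm_real]
    refine lt_of_le_of_lt ?_ hu3
    exact mul_le_mul_of_nonneg_left n1 (norm_nonneg _)
  have n3 : ‖Complex.exp ((2 * π * τ) * Complex.I) * (Bal m (τ / u - τ) - a0)‖ < ε / 4 := by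
    rw [norm_mul, hexp, one_mul]
    exact c1
  calc _ ≤ ‖(Bal m (τ / u) - a0) - Complex.exp ((2 * π * τ) * Complex.I) *
        (Bal m (τ / u - τ) - a0)‖ + _ := norm_sub_le _ _
    _ ≤ ‖Bal m (τ / u) - a0‖ + ‖Complex.exp ((2 * π * τ) * Complex.I) *
        (Bal m (τ / u - τ) - a0)‖ + _ := by gcongr; exact norm_sub_le _ _
    _ < ε := by linarith

theorem Theta_rot (q : ℝ) (a0 : ℂ) (τ : ℝ) :
    Theta q a0 (a0 * (Complex.exp ((2 * π * τ) * Complex.I) - 1)) =
      K q * (q * (‖a0‖ ^ (q - 2) * ‖a0‖ ^ 2 * (1 - Real.cos (2 * π * τ)))) := by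
  unfold Theta
  have hexp : ‖Complex.exp ((2 * π * τ) * Complex.I)‖ = 1 := by
    have := Complex.norm_exp_ofReal_mul_I (2 * π * τ)
    push_cast at this
    exact this
  have h1 : ‖a0 + a0 * (Complex.exp ((2 * π * τ) * Complex.I) - 1)‖ = ‖a0‖ := by
    have : a0 + a0 * (Complex.exp ((2 * π * τ) * Complex.I) - 1) =
        a0 * Complex.exp ((2 * π * τ) * Complex.I) := by ring
    rw [this, norm_mul, hexp, mul_one]
  have h2 : (conj a0 * (a0 * (Complex.exp ((2 * π * τ) * Complex.I) - 1))).re =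
      ‖a0‖ ^ 2 * (Real.cos (2 * π * τ) - 1) := by
    have h3 : conj a0 * (a0 * (Complex.exp ((2 * π * τ) * Complex.I) - 1)) =
        ((‖a0‖ ^ 2 : ℝ) : ℂ) * (Complex.exp ((2 * π * τ) * Complex.I) - 1) := by
      have := Complex.mul_conj a0
      rw [Complex.normSq_eq_norm_sq] at this
      rw [← this]
      ring
    rw [h3, Complex.re_ofReal_mul, Complex.sub_re, Complex.one_re]
    have h4 : ((2 * π * τ : ℂ)) = ((2 * π * τ : ℝ) : ℂ) := by push_cast; ring
    rw [h4, Complex.exp_ofReal_mul_I_re]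
  rw [h1, h2]
  ring

theorem one_sub_cos_le (τ : ℝ) : |1 - Real.cos (2 * π * τ)| ≤ 2 * π ^ 2 * min 1 (τ ^ 2) := by
  rw [abs_of_nonneg (by linarith [Real.cos_le_one (2 * π * τ)]),
    mul_min_of_nonneg _ _ (by positivity), le_min_iff]
  constructor
  · have := Real.neg_one_le_cos (2 * π * τ)
    nlinarith [Real.pi_gt_three]
  · have := Real.one_sub_sq_div_two_le_cos (x := 2 * π * τ)
    nlinarith

theorem dom_integrable {s : ℝ} (hs0 : 0 < s) (hs1 : s < 1) (C : ℝ) :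
    IntegrableOn (fun τ : ℝ => τ ^ (-2 - s) * (C * min 1 (τ ^ 2))) (Ioi 0) := by
  have hU : Ioi (0 : ℝ) = Ioc 0 1 ∪ Ioi 1 := (Ioc_union_Ioi_eq_Ioi zero_le_one).symm
  rw [hU]
  apply IntegrableOn.union
  · have h1 : IntegrableOn (fun τ : ℝ => C * τ ^ (-s)) (Ioc 0 1) := by
      have := (intervalIntegral.intervalIntegrable_rpow' (a := 0) (b := 1) (r := -s) (by linarith))
      rw [intervalIntegrable_iff_integrableOn_Ioc_of_le zero_le_one] at this
      exact this.const_mul C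
    refine h1.congr_fun ?_ measurableSet_Ioc
    intro τ hτ
    beta_reduce
    have h2 : τ ^ 2 ≤ 1 := by nlinarith [hτ.1, hτ.2]
    rw [min_eq_right h2]
    have : τ ^ (-s) = τ ^ (-2 - s) * τ ^ 2 := by
      rw [← Real.rpow_natCast τ 2, ← Real.rpow_add hτ.1]
      congr 1
      push_cast
      ring
    rw [this]
    ring
  · have h1 : IntegrableOn (fun τ : ℝ => C * τ ^ (-2 - s)) (Ioi 1) :=
      (integrableOn_Ioi_rpow_of_lt (by linarith) one_pos).const_mul C
    refine h1.congr_fun ?_ measurableSet_Ioi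
    intro τ hτ
    have hτ' : 1 < τ := hτ
    beta_reduce
    have h2 : 1 ≤ τ ^ 2 := by nlinarith
    rw [min_eq_left h2]
    ring

/-- `∫ τ^{-2-s}(1 - cos 2πτ) dτ` -/
noncomputable def SS (s : ℝ) : ℝ := ∫ τ in Ioi (0 : ℝ), τ ^ (-2 - s) * (1 - Real.cos (2 * π * τ))

theorem tendsto_RR {m q : ℝ} (hm : 0 ≤ m) (hq : 2 < q) (hq' : (m + 1) * (q - 2) < 1) {a0 : ℂ}
    (ha0 : Tendsto (Bal m) atTop (𝓝 a0)) :
    Tendsto (fun u => u ^ (-(1 + (m + 1) * (q - 2))) * RR m q u) (𝓝[>] 0)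
      (𝓝 (K q * (q * (‖a0‖ ^ (q - 2) * ‖a0‖ ^ 2)) * SS ((m + 1) * (q - 2)))) := by
  set s := (m + 1) * (q - 2) with hs
  have hs0 : 0 < s := by
    have : 0 < q - 2 := by linarith
    positivity
  obtain ⟨C, hC0, hC⟩ := BG_diff hm
  set F : ℝ → ℝ := fun τ => τ ^ (-2 - s) *
    Theta q a0 (a0 * (Complex.exp ((2 * π * τ) * Complex.I) - 1)) with hF
  set f : ℝ → ℝ → ℝ := fun u τ => τ ^ (-2 - s) *
      Psi q (osc (Bal m (τ / u)) (1 / u * τ)) (osc (Bk m u τ) (1 / u * τ)) with hf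
  set C1 := q * (q - 1) * (2 * C) ^ (q - 2) * C ^ 2 with hC1
  set C2 := K q * (q * (‖a0‖ ^ (q - 2) * ‖a0‖ ^ 2)) * (2 * π ^ 2) with hC2
  have hK : 0 ≤ K q := intervalIntegral.integral_nonneg zero_le_one fun θ _ => by positivity
  have hC10 : 0 ≤ C1 := by
    have : 0 ≤ q - 1 := by linarith
    positivity
  have hC20 : 0 ≤ C2 := by positivity
  have hcontw : ContinuousOn (fun τ : ℝ => τ ^ (-2 - s)) (Ioi 0) := by
    intro τ hτ
    exact (Real.continuousAt_rpow_const _ _ (Or.inl (ne_of_gt hτ))).continuousWithinAt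
  have hcA : ∀ u ∈ Ioo (0 : ℝ) 1, ContinuousOn (fun τ => Bal m (τ / u)) (Ioi 0) := by
    intro u hu
    apply (contOn_Bal hm).comp (by fun_prop)
    intro τ hτ
    exact div_pos hτ hu.1
  have hcB : ∀ u ∈ Ioo (0 : ℝ) 1, ContinuousOn (Bk m u) (Ioi 0) := by
    intro u hu
    unfold Bk
    refine ContinuousOn.sub (continuousOn_const.mul (ContinuousOn.mul (by fun_prop) ?_)) (hcA u hu)
    apply (contOn_Bal hm).comp (by fun_prop)
    intro τ hτ
    have hτ0 : 0 < τ := hτ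
    change 0 < τ / u - τ
    rw [sub_pos, lt_div_iff₀ hu.1]
    nlinarith [hu.2]
  have hu01 : ∀ᶠ u : ℝ in 𝓝[>] 0, u ∈ Ioo (0 : ℝ) (1 / 2) := Ioo_mem_nhdsGT (by norm_num)
  have key : Tendsto (fun u => ∫ τ in Ioi (0 : ℝ), f u τ) (𝓝[>] 0) (𝓝 (∫ τ in Ioi (0 : ℝ), F τ)) := by
    apply tendsto_of_dominated_local (dom_integrable hs0 hq' (C1 + C2))
    · filter_upwards [hu01] with u hu
      have hu' : u ∈ Ioo (0 : ℝ) 1 := ⟨hu.1, by linarith [hu.2]⟩
      constructor
      · apply ContinuousOn.aestronglyMeasurable _ measurableSet_Ioi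
        exact hcontw.mul (contOn_Psi hq.le (contOn_osc (hcA u hu') (by fun_prop))
          (contOn_osc (hcB u hu') (by fun_prop)))
      · intro τ hτ
        simp only [hf]
        rw [abs_mul, abs_of_nonneg (Real.rpow_nonneg hτ.le _)]
        apply mul_le_mul_of_nonneg_left _ (Real.rpow_nonneg hτ.le _)
        have e1 : 1 / u * τ = τ / u := by ring
        have h3 : 0 < τ / u := div_pos hτ hu.1
        rw [e1, osc_Bk hu' hτ, osc_Bal, abs_of_nonneg (Psi_nonneg hq.le _ _)]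
        obtain ⟨h4, h5⟩ := hC u ⟨hu.1, hu.2.le⟩ (τ / u) h3
        have e2 : u * (τ / u) = τ := by
          have := hu.1.ne'
          field_simp
        rw [e2] at h4
        have h6 : |(τ / u) ^ (m + 1) * (BG m (1 - u) (τ / u) - BI m (τ / u))| ≤ C * min 1 τ := by
          rw [abs_mul, abs_of_nonneg (Real.rpow_nonneg h3.le _)]
          exact h4
        have h7 : |By m (τ / u)| ≤ C := by
          unfold By
          rw [abs_mul, abs_of_nonneg (Real.rpow_nonneg h3.le _)]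
          exact h5
        have hmin : min 1 τ ≤ 1 := min_le_left _ _
        have hmin0 : 0 ≤ min 1 τ := le_min zero_le_one hτ.le
        have h8 : |(τ / u) ^ (m + 1) * (BG m (1 - u) (τ / u) - BI m (τ / u))| ≤ C :=
          h6.trans (by nlinarith)
        refine (Psi_le hq h7 h8).trans ?_
        have h9 : ((τ / u) ^ (m + 1) * (BG m (1 - u) (τ / u) - BI m (τ / u))) ^ 2 ≤
            C ^ 2 * min 1 (τ ^ 2) := by
          rw [← sq_abs]
          have h10 : (C * min 1 τ) ^ 2 = C ^ 2 * min 1 (τ ^ 2) := by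
            rw [mul_pow]
            congr 1
            rcases le_total 1 τ with h | h
            · rw [min_eq_left h, min_eq_left (by nlinarith)]
              norm_num
            · rw [min_eq_right h, min_eq_right (by nlinarith)]
          rw [← h10]
          exact pow_le_pow_left₀ (abs_nonneg _) h6 2
        have h11 : 0 ≤ q * (q - 1) * (2 * C) ^ (q - 2) := by
          have : 0 ≤ q - 1 := by linarith
          positivity
        have h12 : 0 ≤ min 1 (τ ^ 2) := le_min zero_le_one (sq_nonneg _)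
        calc _ ≤ q * (q - 1) * (2 * C) ^ (q - 2) * (C ^ 2 * min 1 (τ ^ 2)) :=
              mul_le_mul_of_nonneg_left h9 h11
          _ = C1 * min 1 (τ ^ 2) := by rw [hC1]; ring
          _ ≤ _ := by nlinarith
    · apply ContinuousOn.aestronglyMeasurable _ measurableSet_Ioi
      exact hcontw.mul (contOn_Theta hq.le continuousOn_const (by fun_prop))
    · intro τ hτ
      simp only [hF]
      rw [Theta_rot, abs_mul, abs_of_nonneg (Real.rpow_nonneg hτ.le _)]
      apply mul_le_mul_of_nonneg_left _ (Real.rpow_nonneg hτ.le _)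
      have h1 := one_sub_cos_le τ
      have e : K q * (q * (‖a0‖ ^ (q - 2) * ‖a0‖ ^ 2 * (1 - Real.cos (2 * π * τ)))) =
          K q * (q * (‖a0‖ ^ (q - 2) * ‖a0‖ ^ 2)) * (1 - Real.cos (2 * π * τ)) := by ring
      have h2 : 0 ≤ K q * (q * (‖a0‖ ^ (q - 2) * ‖a0‖ ^ 2)) := by positivity
      have h12 : 0 ≤ min 1 (τ ^ 2) := le_min zero_le_one (sq_nonneg _)
      rw [e, abs_mul, abs_of_nonneg h2]
      calc _ ≤ K q * (q * (‖a0‖ ^ (q - 2) * ‖a0‖ ^ 2)) * (2 * π ^ 2 * min 1 (τ ^ 2)) :=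
            mul_le_mul_of_nonneg_left h1 h2
        _ = C2 * min 1 (τ ^ 2) := by rw [hC2]; ring
        _ ≤ _ := by nlinarith
    · intro a b ha hab
      have hsub : Icc a b ⊆ Ioi 0 := fun x hx => lt_of_lt_of_le ha hx.1
      have hlam : Tendsto (fun u : ℝ => 1 / u) (𝓝[>] 0) atTop := by
        simpa using tendsto_inv_nhdsGT_zero
      exact equi_Psi hq.le hab hlam (hcontw.mono hsub) continuousOn_const (by fun_prop)
        (hu01.mono fun u hu => (hcA u ⟨hu.1, by linarith [hu.2]⟩).mono hsub)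
        (hu01.mono fun u hu => (hcB u ⟨hu.1, by linarith [hu.2]⟩).mono hsub)
        (unif_Bal hm ha0 ha) (unif_Bk hm ha0 ha)
  have eF : ∫ τ in Ioi (0 : ℝ), F τ = K q * (q * (‖a0‖ ^ (q - 2) * ‖a0‖ ^ 2)) * SS s := by
    unfold SS
    rw [← integral_const_mul]
    apply setIntegral_congr_fun measurableSet_Ioi
    intro τ _
    simp only [hF]
    rw [Theta_rot]
    ring
  rw [← eF]
  refine key.congr' ?_
  filter_upwards [hu01] with u hu
  rw [RR_eq ⟨hu.1, by linarith [hu.2]⟩, ← mul_assoc, ← hs]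
  have : u ^ (-(1 + s)) * u ^ (1 + s) = 1 := by
    rw [← Real.rpow_add hu.1]
    simp
  rw [this, one_mul]

end Pool.Agent.H51.Maxi
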