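import Pool.Agent.H51.Maxi.Planch
import Pool.Agent.H51.Maxi.Upper

open MeasureTheory Set Filter Topology FourierTransform
open scoped ENNReal Real ComplexConjugate Interval

namespace Pool.Agent.H51.Maxi

theorem normsq_exp_int (a b : ℝ) {τ : ℝ} (hτ : τ ≠ 0) :
    ‖∫ z in a..b, Complex.exp ((2 * π * τ * z : ℝ) * Complex.I)‖ ^ 2 =
      (1 - Real.cos (2 * π * τ * (b - a))) / (2 * π ^ 2 * τ ^ 2) := by
  have hc : (2 * π * τ : ℝ) * Complex.I ≠ 0 := by
    apply mul_ne_zero _ Complex.I_ne_zero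
    have := Real.pi_ne_zero
    exact_mod_cast (by positivity : (2 * π * τ : ℝ) ≠ 0)
  have h1 : ∫ z in a..b, Complex.exp ((2 * π * τ * z : ℝ) * Complex.I) =
      ∫ z in a..b, Complex.exp (((2 * π * τ : ℝ) * Complex.I) * (z : ℂ)) := by
    apply intervalIntegral.integral_congr
    intro z _
    beta_reduce
    congr 1
    push_cast
    ring
  rw [h1, integral_exp_mul_complex hc, norm_div, div_pow]
  have h2 : ‖((2 * π * τ : ℝ) : ℂ) * Complex.I‖ ^ 2 = 4 * π ^ 2 * τ ^ 2 := by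
    rw [norm_mul, Complex.norm_I, mul_one, Complex.norm_real, Real.norm_eq_abs, sq_abs]
    ring
  have h3 : ∀ c : ℝ, Complex.exp (((2 * π * τ : ℝ) * Complex.I) * (c : ℂ)) =
      Complex.exp ((2 * π * τ * c : ℝ) * Complex.I) := by
    intro c
    congr 1
    push_cast
    ring
  have h4 : ‖Complex.exp ((2 * π * τ * b : ℝ) * Complex.I) -
      Complex.exp ((2 * π * τ * a : ℝ) * Complex.I)‖ ^ 2 =
      2 * (1 - Real.cos (2 * π * τ * (b - a))) := by
    rw [← Complex.normSq_eq_norm_sq, Complex.normSq_apply, Complex.sub_re, Complex.sub_im,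
      Complex.exp_ofReal_mul_I_re, Complex.exp_ofReal_mul_I_re, Complex.exp_ofReal_mul_I_im,
      Complex.exp_ofReal_mul_I_im]
    have h5 : 2 * π * τ * (b - a) = 2 * π * τ * b - 2 * π * τ * a := by ring
    rw [h5, Real.cos_sub]
    have h6 := Real.sin_sq_add_cos_sq (2 * π * τ * b)
    have h7 := Real.sin_sq_add_cos_sq (2 * π * τ * a)
    nlinarith
  rw [h3, h3, h4, h2]
  have := Real.pi_ne_zero
  field_simp
  ring

/-- `∫ τ^{-2} (1 - cos 2πτ) = π²` -/
theorem lintegral_sinc : ∫⁻ τ in Ioi (0 : ℝ), ENNReal.ofReal (τ ^ (-2 : ℝ) *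
    (1 - Real.cos (2 * π * τ))) = ENNReal.ofReal (π ^ 2) := by
  set f : ℝ → ℂ := (Ioc (-(1 / 2) : ℝ) (1 / 2)).indicator (fun _ => (1 : ℂ)) with hf
  have hfi : Integrable f := by
    rw [hf, integrable_indicator_iff measurableSet_Ioc]
    exact integrableOn_const (by simp)
  have hf2 : MemLp f 2 := by
    rw [hf]
    apply memLp_indicator_const 2 measurableSet_Ioc
    right
    simp
  have hp := lintegral_fourier_sq hfi hf2
  have h1 : ∫⁻ x, ‖f x‖ₑ ^ 2 = 1 := by
    have : ∀ x, ‖f x‖ₑ ^ 2 = (Ioc (-(1 / 2) : ℝ) (1 / 2)).indicator (fun _ => (1 : ℝ≥0∞)) x := by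
      intro x
      rw [hf]
      by_cases hx : x ∈ Ioc (-(1 / 2) : ℝ) (1 / 2)
      · rw [indicator_of_mem hx, indicator_of_mem hx]
        simp
      · rw [indicator_of_notMem hx, indicator_of_notMem hx]
        simp
    simp only [this]
    rw [lintegral_indicator measurableSet_Ioc]
    simp
    norm_num
  have h2 : ∀ τ : ℝ, τ ≠ 0 → ‖𝓕 f τ‖ₑ ^ 2 =
      ENNReal.ofReal ((1 - Real.cos (2 * π * τ)) / (2 * π ^ 2 * τ ^ 2)) := by
    intro τ hτ
    have h3 : 𝓕 f τ = ∫ z in (-(1 / 2) : ℝ)..(1 / 2), Complex.exp ((2 * π * (-τ) * z : ℝ) * Complex.I) := by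
      rw [Real.fourier_real_eq_integral_exp_smul, intervalIntegral.integral_of_le (by norm_num),
        ← integral_indicator measurableSet_Ioc]
      congr 1
      ext x
      rw [hf]
      by_cases hx : x ∈ Ioc (-(1 / 2) : ℝ) (1 / 2)
      · rw [indicator_of_mem hx, indicator_of_mem hx, smul_eq_mul, mul_one]
        congr 1
        push_cast
        ring
      · rw [indicator_of_notMem hx, indicator_of_notMem hx, smul_zero]
    have h4 := normsq_exp_int (-(1 / 2)) (1 / 2) (neg_ne_zero.2 hτ)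
    rw [← h3] at h4
    rw [← ofReal_norm, ← ENNReal.ofReal_pow (norm_nonneg _), h4]
    congr 1
    have : 2 * π * -τ * (1 / 2 - -(1 / 2)) = -(2 * π * τ) := by ring
    rw [this, Real.cos_neg]
    ring
  set φ : ℝ → ℝ≥0∞ := fun τ => ENNReal.ofReal ((1 - Real.cos (2 * π * τ)) / (2 * π ^ 2 * τ ^ 2)) with hφ
  have hae : ∀ᵐ τ : ℝ, τ ≠ 0 := by
    rw [ae_iff]
    simp
  have h5 : ∫⁻ τ : ℝ, φ τ = 1 := by
    rw [← h1, ← hp]
    apply lintegral_congr_ae
    filter_upwards [hae] with τ hτ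
    rw [h2 τ hτ]
  have hφm : Measurable φ := by
    apply Measurable.ennreal_ofReal
    fun_prop
  have h6 : ∫⁻ τ : ℝ, φ τ = (∫⁻ τ in Ioi (0 : ℝ), φ τ) + ∫⁻ τ in Iic (0 : ℝ), φ τ := by
    rw [← lintegral_add_compl φ (measurableSet_Ioi (a := (0 : ℝ))), compl_Ioi]
  have h7 : ∫⁻ τ in Iic (0 : ℝ), φ τ = ∫⁻ τ in Ioi (0 : ℝ), φ τ := by
    have h8 : ∫⁻ τ in Iic (0 : ℝ), φ τ = ∫⁻ τ in Iio (0 : ℝ), φ τ :=
      setLIntegral_congr Iio_ae_eq_Iic.symm
    rw [h8]
    have h9 := (Measure.measurePreserving_neg (volume : Measure ℝ)).setLIntegral_comp_preimage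
      (s := Iio (0 : ℝ)) measurableSet_Iio hφm
    rw [← h9]
    have h10 : (Neg.neg ⁻¹' Iio (0 : ℝ)) = Ioi 0 := by
      ext x
      simp
    rw [h10]
    apply lintegral_congr
    intro τ
    simp only [hφ]
    have : 2 * π * -τ = -(2 * π * τ) := by ring
    rw [this, Real.cos_neg, neg_sq]
  have h11 : ∫⁻ τ in Ioi (0 : ℝ), φ τ = ENNReal.ofReal (1 / 2) := by
    rw [h7, ← two_mul] at h6
    rw [h5] at h6
    have h12 : ENNReal.ofReal (1 / 2) = 2⁻¹ := by
      rw [one_div, ENNReal.ofReal_inv_of_pos (by norm_num)]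
      norm_num
    rw [h12]
    exact ENNReal.eq_inv_of_mul_eq_one_left (by rw [mul_comm]; exact h6.symm)
  have h13 : ∫⁻ τ in Ioi (0 : ℝ), ENNReal.ofReal (τ ^ (-2 : ℝ) * (1 - Real.cos (2 * π * τ))) =
      ENNReal.ofReal (2 * π ^ 2) * ∫⁻ τ in Ioi (0 : ℝ), φ τ := by
    rw [← lintegral_const_mul _ hφm]
    apply setLIntegral_congr_fun measurableSet_Ioi
    intro τ hτ
    have hτ' : 0 < τ := hτ
    simp only [hφ]
    rw [← ENNReal.ofReal_mul (by positivity)]
    congr 1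
    have h14 : τ ^ (-2 : ℝ) = 1 / τ ^ 2 := by
      rw [Real.rpow_neg hτ'.le, one_div]
      norm_num
    rw [h14]
    have := Real.pi_ne_zero
    field_simp
  rw [h13, h11, ← ENNReal.ofReal_mul (by positivity)]
  congr 1
  ring

theorem K_two : K 2 = 2 := by
  unfold K
  have h1 : ∀ θ : ℝ, |osc 1 θ| ^ (2 : ℝ) = 2 + 2 * Real.cos (4 * π * θ) := by
    intro θ
    rw [Real.rpow_two, sq_abs]
    unfold osc
    rw [mul_one]
    have h2 : (-(2 * π * θ) * Complex.I : ℂ) = ((-(2 * π * θ) : ℝ) : ℂ) * Complex.I := by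
      push_cast
      ring
    rw [h2, Complex.exp_ofReal_mul_I_re, Real.cos_neg]
    have h3 : 4 * π * θ = 2 * (2 * π * θ) := by ring
    rw [h3, Real.cos_two_mul]
    ring
  simp only [h1]
  rw [intervalIntegral.integral_add (by simp) ((by fun_prop : Continuous fun θ : ℝ =>
    2 * Real.cos (4 * π * θ)).intervalIntegrable _ _), intervalIntegral.integral_const_mul,
    intervalIntegral.integral_comp_mul_left (fun x => Real.cos x) (by positivity : 4 * π ≠ 0)]
  simp only [integral_cos, mul_zero, mul_one, Real.sin_zero, sub_zero]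
  have : Real.sin (4 * π) = 0 := by
    have := Real.sin_nat_mul_pi 4
    push_cast at this
    exact this
  rw [this]
  simp

end Pool.Agent.H51.Maxi
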