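import Pool.Agent.H51.Maxi.Cos
import Pool.Agent.H51.Maxi.Geo
import Pool.Agent.H51.Maxi.Sinc

open MeasureTheory Set Filter Topology FourierTransform
open scoped ENNReal Real InnerProductSpace Interval ComplexConjugate

namespace Pool.Agent.H51.Maxi

variable {n : ℕ}

theorem integral_EE {φ : EE n → ℝ} : ∫ x, φ x = ∫ z : V n × ℝ, φ (pr z.1 z.2) :=
  ((WithLp.volume_preserving_toLp (V n) ℝ).integral_comp
    (MeasurableEquiv.toLp 2 (V n × ℝ)).measurableEmbedding φ).symm

theorem integrable_EE {φ : EE n → ℝ} : Integrable φ ↔ Integrable fun z : V n × ℝ => φ (pr z.1 z.2) :=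
  ((WithLp.volume_preserving_toLp (V n) ℝ).integrable_comp_emb
    (MeasurableEquiv.toLp 2 (V n × ℝ)).measurableEmbedding).symm

theorem sym_ball (r : ℝ) : Sym (Metric.ball (0 : EE n) r) :=
  ⟨measurableSet_ball, fun x => by simp, measure_ball_lt_top.ne⟩

/-- volume of the unit ball of the base space -/
noncomputable def vn (n : ℕ) : ℝ := volume.real (Metric.ball (0 : V n) 1)

theorem vn_pos : 0 < vn n := by
  unfold vn
  rw [measureReal_def]
  exact ENNReal.toReal_pos (Metric.measure_ball_pos volume (0 : V n) one_pos).ne'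
    measure_ball_lt_top.ne

theorem real_ball {E : Type*} [NormedAddCommGroup E] [InnerProductSpace ℝ E]
    [MeasurableSpace E] [BorelSpace E] [FiniteDimensional ℝ E] {r : ℝ} (hr : 0 < r) :
    (volume : Measure E).real (Metric.ball (0 : E) r) =
      r ^ Module.finrank ℝ E * (volume : Measure E).real (Metric.ball (0 : E) 1) := by
  rw [measureReal_def, measureReal_def, Measure.addHaar_ball_of_pos _ _ hr, ENNReal.toReal_mul,
    ENNReal.toReal_ofReal (by positivity)]

theorem sqrt_pow_eq {x : ℝ} (hx : 0 ≤ x) : √x ^ n = x ^ ((n : ℝ) / 2) := by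
  rw [Real.sqrt_eq_rpow, ← Real.rpow_natCast, ← Real.rpow_mul hx]
  congr 1
  ring

theorem ct_ball {ρ : ℝ} (hρ : 0 < ρ) (ξ : EE n) :
    ct (Metric.ball (0 : EE n) ρ) ξ = vn n * BG (n / 2) ρ ‖ξ‖ := by
  set s := ‖ξ‖ with hs
  have hs0 : 0 ≤ s := norm_nonneg _
  have h0 : ct (Metric.ball (0 : EE n) ρ) ξ = ct (Metric.ball (0 : EE n) ρ) (pr 0 s) := by
    apply ct_radial
    · intro x x' h
      rw [mem_ball_zero_iff, mem_ball_zero_iff, h]
    · exact measurableSet_ball
    · rw [norm_pr, norm_zero]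
      simp [Real.sqrt_sq hs0, hs]
  rw [h0]
  unfold ct
  rw [← integral_indicator measurableSet_ball, integral_EE, Measure.volume_eq_prod,
    integral_prod_symm]
  · have h1 : ∀ t : ℝ, ∫ y : V n, (Metric.ball (0 : EE n) ρ).indicator
        (fun x => Real.cos (2 * π * ⟪x, pr 0 s⟫_ℝ)) (pr y t) =
        (Ioo (-ρ) ρ).indicator (fun t => vn n * (ρ ^ 2 - t ^ 2) ^ ((n : ℝ) / 2) *
          Real.cos (2 * π * s * t)) t := by
      intro t
      have hmem : ∀ y : V n, pr y t ∈ Metric.ball (0 : EE n) ρ ↔ ‖y‖ ^ 2 < ρ ^ 2 - t ^ 2 := by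
        intro y
        rw [mem_ball_zero_iff, ← sq_lt_sq₀ (norm_nonneg _) hρ.le, norm_pr_sq]
        constructor <;> intro h <;> linarith
      have hcos : ∀ y : V n, Real.cos (2 * π * ⟪pr y t, pr 0 s⟫_ℝ) = Real.cos (2 * π * s * t) := by
        intro y
        rw [inner_pr, inner_zero_right, zero_add]
        congr 1
        ring
      by_cases ht : t ∈ Ioo (-ρ) ρ
      · rw [indicator_of_mem ht]
        have hpos : 0 < ρ ^ 2 - t ^ 2 := by nlinarith [ht.1, ht.2]
        have h2 : ∀ y : V n, (Metric.ball (0 : EE n) ρ).indicator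
            (fun x => Real.cos (2 * π * ⟪x, pr 0 s⟫_ℝ)) (pr y t) =
            (Metric.ball (0 : V n) (√(ρ ^ 2 - t ^ 2))).indicator
              (fun _ => Real.cos (2 * π * s * t)) y := by
          intro y
          by_cases hy : y ∈ Metric.ball (0 : V n) (√(ρ ^ 2 - t ^ 2))
          · rw [indicator_of_mem hy, indicator_of_mem, hcos]
            rw [hmem]
            rw [mem_ball_zero_iff, Real.lt_sqrt (norm_nonneg _)] at hy
            exact hy
          · rw [indicator_of_notMem hy, indicator_of_notMem]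
            rw [hmem]
            rw [mem_ball_zero_iff, Real.lt_sqrt (norm_nonneg _)] at hy
            exact hy
        simp only [h2]
        rw [integral_indicator measurableSet_ball, setIntegral_const,
          real_ball (Real.sqrt_pos.2 hpos), finrank_euclideanSpace,
          Fintype.card_fin, sqrt_pow_eq hpos.le, smul_eq_mul]
        unfold vn
        ring
      · rw [indicator_of_notMem ht]
        have h2 : ∀ y : V n, (Metric.ball (0 : EE n) ρ).indicator
            (fun x => Real.cos (2 * π * ⟪x, pr 0 s⟫_ℝ)) (pr y t) = 0 := by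
          intro y
          rw [indicator_of_notMem]
          rw [hmem]
          intro h
          apply ht
          have := sq_nonneg ‖y‖
          exact ⟨by nlinarith, by nlinarith⟩
        simp only [h2, integral_zero]
    rw [integral_congr_ae (Eventually.of_forall h1), integral_indicator measurableSet_Ioo,
      ← integral_Ioc_eq_integral_Ioo, ← intervalIntegral.integral_of_le (by linarith)]
    have h3 := intervalIntegral.integral_comp_mul_left (a := -1) (b := 1)
      (fun t => vn n * (ρ ^ 2 - t ^ 2) ^ ((n : ℝ) / 2) * Real.cos (2 * π * s * t)) hρ.ne'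
    rw [mul_neg, mul_one] at h3
    have h4 : ∫ t in (-ρ)..ρ, vn n * (ρ ^ 2 - t ^ 2) ^ ((n : ℝ) / 2) * Real.cos (2 * π * s * t) =
        ρ * ∫ x in (-1 : ℝ)..1, vn n * (ρ ^ 2 - (ρ * x) ^ 2) ^ ((n : ℝ) / 2) *
          Real.cos (2 * π * s * (ρ * x)) := by
      rw [h3, smul_eq_mul, ← mul_assoc, mul_inv_cancel₀ hρ.ne', one_mul]
    rw [h4, ← intervalIntegral.integral_const_mul]
    unfold BG BI
    rw [← intervalIntegral.integral_const_mul, ← intervalIntegral.integral_const_mul]
    apply intervalIntegral.integral_congr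
    intro x hx
    rw [uIcc_of_le (by norm_num)] at hx
    beta_reduce
    have h5 : 0 ≤ 1 - x ^ 2 := by nlinarith [hx.1, hx.2]
    have h6 : ρ ^ 2 - (ρ * x) ^ 2 = ρ ^ 2 * (1 - x ^ 2) := by ring
    have h7 : (ρ ^ 2) ^ ((n : ℝ) / 2) = ρ ^ n := by
      rw [← sqrt_pow_eq (by positivity), Real.sqrt_sq hρ.le]
    have h8 : ρ ^ (2 * ((n : ℝ) / 2) + 1) = ρ ^ n * ρ := by
      have : 2 * ((n : ℝ) / 2) + 1 = ((n + 1 : ℕ) : ℝ) := by
        push_cast
        ring
      rw [this, Real.rpow_natCast, pow_succ]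
    rw [h6, Real.mul_rpow (by positivity) h5, h7, h8]
    have h9 : 2 * π * s * (ρ * x) = 2 * π * (ρ * s) * x := by ring
    rw [h9]
    ring
  · rw [← Measure.volume_eq_prod]
    apply (integrable_EE (φ := (Metric.ball (0 : EE n) ρ).indicator
      (fun x => Real.cos (2 * π * ⟪x, pr 0 s⟫_ℝ)))).1
    rw [integrable_indicator_iff measurableSet_ball]
    refine (integrableOn_const (C := (1 : ℝ)) measure_ball_lt_top.ne).mono' (by fun_prop) ?_
    exact Eventually.of_forall fun x => Real.abs_cos_le_one _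

theorem finrank_EE : Module.finrank ℝ (EE n) = n + 1 := by
  rw [(WithLp.linearEquiv 2 ℝ (V n × ℝ)).finrank_eq, Module.finrank_prod]
  simp

instance : Nontrivial (EE n) := Module.nontrivial_of_finrank_pos (R := ℝ) (by rw [finrank_EE]; omega)

/-- volume of the unit ball of the full space -/
noncomputable def bE (n : ℕ) : ℝ := volume.real (Metric.ball (0 : EE n) 1)

theorem bE_pos : 0 < bE n := by
  unfold bE
  rw [measureReal_def]
  exact ENNReal.toReal_pos (Metric.measure_ball_pos volume (0 : EE n) one_pos).ne'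
    measure_ball_lt_top.ne

theorem vol_ball {r : ℝ} (hr : 0 ≤ r) : volume.real (Metric.ball (0 : EE n) r) = r ^ (n + 1) * bE n := by
  rcases hr.eq_or_lt with rfl | hr
  · simp
  · rw [real_ball hr, finrank_EE]
    rfl

theorem radial_integral (f : ℝ → ℝ) :
    ∫ ξ : EE n, f ‖ξ‖ = (n + 1) * bE n * ∫ t in Ioi (0 : ℝ), t ^ n * f t := by
  rw [integral_fun_norm_addHaar, finrank_EE]
  simp only [nsmul_eq_mul, smul_eq_mul, Nat.add_sub_cancel]
  push_cast
  unfold bE
  ring

theorem radial_integrable (f : ℝ → ℝ) :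
    Integrable (fun ξ : EE n => f ‖ξ‖) ↔ IntegrableOn (fun t => t ^ n * f t) (Ioi 0) := by
  rw [integrable_fun_norm_addHaar, finrank_EE]
  simp only [smul_eq_mul, Nat.add_sub_cancel]

theorem ct_ball_one (ξ : EE n) : ct (Metric.ball (0 : EE n) 1) ξ = vn n * BI (n / 2) ‖ξ‖ := by
  rw [ct_ball one_pos, BG_one]

/-- `Φ(ρ)` in terms of the one-dimensional functional -/
theorem Phi_eq {q u : ℝ} (hu : u ∈ Ioo (0 : ℝ) 1) :
    ∫ ξ : EE n, Psi q (ct (Metric.ball (0 : EE n) 1) ξ)
      (ct (Metric.ball (0 : EE n) (1 - u)) ξ - ct (Metric.ball (0 : EE n) 1) ξ) =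
      (n + 1) * bE n * vn n ^ q * RR (n / 2) q u := by
  have h1 : ∀ ξ : EE n, Psi q (ct (Metric.ball (0 : EE n) 1) ξ)
      (ct (Metric.ball (0 : EE n) (1 - u)) ξ - ct (Metric.ball (0 : EE n) 1) ξ) =
      (fun t => vn n ^ q * Psi q (BI (n / 2) t) (BG (n / 2) (1 - u) t - BI (n / 2) t)) ‖ξ‖ := by
    intro ξ
    beta_reduce
    rw [ct_ball (ρ := 1 - u) (by linarith [hu.2]), ct_ball_one, ← mul_sub, Psi_homog vn_pos]
  simp only [h1]
  rw [radial_integral (fun t => vn n ^ q * Psi q (BI (n / 2) t) (BG (n / 2) (1 - u) t - BI (n / 2) t)),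
    mul_assoc ((n + 1) * bE n)]
  congr 1
  unfold RR
  rw [← integral_const_mul]
  apply setIntegral_congr_fun measurableSet_Ioi
  intro t _
  beta_reduce
  have : 2 * ((n : ℝ) / 2) = n := by ring
  rw [this, Real.rpow_natCast]
  ring

theorem Phi_two {u : ℝ} (hu : u ∈ Ioo (0 : ℝ) 1) :
    IntegrableOn (fun t => t ^ (2 * ((n : ℝ) / 2)) * (BG (n / 2) (1 - u) t - BI (n / 2) t) ^ 2) (Ioi 0) ∧
    (n + 1) * bE n * vn n ^ 2 * RR (n / 2) 2 u = bE n * (1 - (1 - u) ^ (n + 1)) := by
  have hsub : Metric.ball (0 : EE n) (1 - u) ⊆ Metric.ball (0 : EE n) 1 :=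
    Metric.ball_subset_ball (by linarith [hu.1])
  have hS := (sym_ball (n := n) 1).diff (sym_ball (1 - u))
  have h1 := integral_ct_sq hS
  have h2 : ∀ ξ : EE n, ct (Metric.ball (0 : EE n) 1 \ Metric.ball (0 : EE n) (1 - u)) ξ ^ 2 =
      (fun t => vn n ^ 2 * (BG (n / 2) (1 - u) t - BI (n / 2) t) ^ 2) ‖ξ‖ := by
    intro ξ
    beta_reduce
    rw [ct_diff (sym_ball _) (sym_ball _) hsub, ct_ball (ρ := 1 - u) (by linarith [hu.2]),
      ct_ball_one]
    ring
  have hint : Integrable fun ξ : EE n =>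
      (fun t => vn n ^ 2 * (BG (n / 2) (1 - u) t - BI (n / 2) t) ^ 2) ‖ξ‖ := by
    have := (ct_L2 hS).integrable_sq
    refine this.congr (Eventually.of_forall h2)
  constructor
  · have h3 := (radial_integrable (n := n)
      (fun t => vn n ^ 2 * (BG (n / 2) (1 - u) t - BI (n / 2) t) ^ 2)).1 hint
    have h4 := h3.const_mul ((vn n ^ 2)⁻¹)
    refine h4.congr (Eventually.of_forall fun t => ?_)
    have hv := (vn_pos (n := n)).ne'
    have : 2 * ((n : ℝ) / 2) = n := by ring
    beta_reduce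
    rw [this, Real.rpow_natCast]
    field_simp
  · have h5 : volume.real (Metric.ball (0 : EE n) 1 \ Metric.ball (0 : EE n) (1 - u)) =
        bE n * (1 - (1 - u) ^ (n + 1)) := by
      rw [measureReal_diff hsub measurableSet_ball measure_ball_lt_top.ne,
        vol_ball (r := 1 - u) (by linarith [hu.2])]
      change bE n - _ = _
      ring
    rw [h5] at h1
    rw [← h1]
    simp only [h2]
    rw [radial_integral (fun t => vn n ^ 2 * (BG (n / 2) (1 - u) t - BI (n / 2) t) ^ 2),
      mul_assoc ((n + 1) * bE n)]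
    congr 1
    unfold RR
    rw [← integral_const_mul]
    apply setIntegral_congr_fun measurableSet_Ioi
    intro t _
    beta_reduce
    have : 2 * ((n : ℝ) / 2) = n := by ring
    rw [this, Real.rpow_natCast, Psi_two]
    ring

end Pool.Agent.H51.Maxi
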