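import Pool.Agent.H51.Maxi.Affine

open MeasureTheory Set Filter Topology FourierTransform
open scoped ENNReal Real InnerProductSpace Interval ComplexConjugate Pointwise symmDiff

namespace Pool.Agent.H51.Maxi

theorem symmDiff_sub {α : Type*} {X Y Z : Set α} (hX : X ⊆ Z) (hY : Y ⊆ Z) :
    X ∆ Y ⊆ (Z \ X) ∪ (Z \ Y) := by
  rintro x (⟨h1, h2⟩ | ⟨h1, h2⟩)
  · exact Or.inr ⟨hX h1, h2⟩
  · exact Or.inl ⟨hY h1, h2⟩

/-- the standard space of dimension `n + 1` -/
abbrev WW (n : ℕ) := EuclideanSpace ℝ (Fin (n + 1))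

theorem beat {n : ℕ} (hn : 1 ≤ n) {q : ℝ} (hq : 2 < q) (hq' : ((n : ℝ) / 2 + 1) * (q - 2) < 1)
    (A : WW n ≃ₗ[ℝ] WW n) (b : WW n)
    (hvol : volume ((fun x => A x + b) '' Metric.closedBall 0 1) = 1) {ε : ℝ≥0∞} (hε : 0 < ε) :
    ∃ F : Set (WW n), MeasurableSet F ∧ volume F = 1 ∧
      volume (F ∆ ((fun x => A x + b) '' Metric.closedBall 0 1)) < ε ∧
      JE q ((fun x => A x + b) '' Metric.closedBall 0 1) < JE q F := by
  set D := |LinearMap.det (A : (WW n) →ₗ[ℝ] (WW n))| with hD
  have hD0 : 0 < D := abs_pos.2 (det_ne A)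
  have hβ := bE_pos (n := n)
  set β := bE n with hβd
  -- isometry
  set L : EE n ≃ₗᵢ[ℝ] (WW n) := ((stdOrthonormalBasis ℝ (EE n)).reindex (finCongr finrank_EE)).repr
    with hL
  have hLvol : ∀ s : Set (EE n), volume (L '' s) = volume s := by
    intro s
    have h1 : L '' s = L.symm ⁻¹' s := L.toLinearEquiv.toEquiv.image_eq_preimage_symm s
    rw [h1]
    exact L.symm.measurePreserving.measure_preimage_emb
      L.symm.toHomeomorph.measurableEmbedding s
  have hLball : L '' Metric.ball (0 : EE n) 1 = Metric.ball (0 : WW n) 1 := by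
    rw [L.image_ball, map_zero]
  have hBfin : volume (Metric.ball (0 : EE n) 1) ≠ ⊤ := measure_ball_lt_top.ne
  have hBβ : volume (Metric.ball (0 : EE n) 1) = ENNReal.ofReal β :=
    (ENNReal.ofReal_toReal hBfin).symm
  have hcBall : volume (Metric.closedBall (0 : WW n) 1) = ENNReal.ofReal β := by
    rw [Measure.addHaar_closedBall_eq_addHaar_ball, ← hLball, hLvol, hBβ]
  have hDβ : D * β = 1 := by
    rw [vol_affine, hcBall, ← ENNReal.ofReal_mul (abs_nonneg _), ← ENNReal.ofReal_one] at hvol
    exact (ENNReal.ofReal_eq_ofReal_iff (by positivity) zero_le_one).1 hvol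
  -- choice of r
  set e := (min ε 1).toReal with he
  have hmin0 : min ε 1 ≠ 0 := (lt_min hε one_pos).ne'
  have hminT : min ε 1 ≠ ⊤ := ((min_le_right ε 1).trans_lt ENNReal.one_lt_top).ne
  have he0 : 0 < e := ENNReal.toReal_pos hmin0 hminT
  have hη0 : 0 < min (β / 2) (e * β / 8) := by positivity
  obtain ⟨r, ⟨hr, hbeat⟩, hη⟩ := ((main_EE hn hq hq').and_eventually
    ((tendsto_vol_cap (n := n)).eventually_lt_const hη0)).exists
  have hFm : MeasurableSet (Fr n r) := (star_Fr r).meas
  have hFB : Fr n r ⊆ Metric.ball (0 : EE n) 1 := fun x hx => mem_ball_zero_iff.2 hx.1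
  set φ := volume.real (Fr n r) with hφ
  have hFfin := Fr_fin (n := n) r
  have hFφ : volume (Fr n r) = ENNReal.ofReal φ := (ENNReal.ofReal_toReal hFfin).symm
  have hdiff : volume.real (Metric.ball (0 : EE n) 1 \ Fr n r) = β - φ := by
    rw [measureReal_sdiff hFB hFm]
    rfl
  rw [hdiff] at hη
  have hη1 : β - φ < β / 2 := hη.trans_le (min_le_left _ _)
  have hη2 : β - φ < e * β / 8 := hη.trans_le (min_le_right _ _)
  have hφβ : φ ≤ β := by
    have : 0 ≤ volume.real (Metric.ball (0 : EE n) 1 \ Fr n r) := measureReal_nonneg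
    linarith
  have hφ2 : β / 2 < φ := by linarith
  have hφ0 : 0 < φ := by linarith
  -- the dilation
  set lam : ℝ := (β / φ) ^ (1 / ((n : ℝ) + 1)) with hlam
  have hlam0 : 0 < lam := Real.rpow_pos_of_pos (by positivity) _
  have hlam1 : 1 ≤ lam := Real.one_le_rpow (by rw [le_div_iff₀ hφ0]; linarith) (by positivity)
  have hlamp : lam ^ (n + 1) = β / φ := by
    rw [hlam, ← Real.rpow_natCast, ← Real.rpow_mul (by positivity)]
    push_cast
    rw [one_div_mul_cancel (by positivity), Real.rpow_one]
  have hfr : Module.finrank ℝ (WW n) = n + 1 := by rw [finrank_euclideanSpace, Fintype.card_fin]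
  set A' : (WW n) ≃ₗ[ℝ] (WW n) := (LinearEquiv.smulOfNeZero ℝ (WW n) lam hlam0.ne').trans A with hA'
  have hA'x : ∀ x, A' x = A (lam • x) := fun x => rfl
  have hA'lin : (A' : (WW n) →ₗ[ℝ] (WW n)) = lam • (A : (WW n) →ₗ[ℝ] (WW n)) := by
    ext1 x
    change A (lam • x) = lam • A x
    rw [map_smul]
  have hdetA' : |LinearMap.det (A' : (WW n) →ₗ[ℝ] (WW n))| = β / φ * D := by
    rw [hA'lin, LinearMap.det_smul, hfr, abs_mul, hlamp, abs_of_pos (by positivity)]
  set G : Set (WW n) := L '' Fr n r with hG
  have hGm : MeasurableSet G := L.toHomeomorph.measurableEmbedding.measurableSet_image.2 hFm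
  have hGvol : volume G = ENNReal.ofReal φ := by rw [hG, hLvol, hFφ]
  have hprod : β / φ * D * φ = 1 := by
    rw [← hDβ]
    field_simp
  refine ⟨(fun x => A' x + b) '' G, ?_, ?_, ?_, ?_⟩
  · have hemb : MeasurableEmbedding fun x : (WW n) => A' x + b :=
      (measurableEmbedding_addRight b).comp (emb_lin (det_ne A'))
    exact hemb.measurableSet_image.2 hGm
  · rw [vol_affine, hdetA', hGvol, ← ENNReal.ofReal_mul (by positivity), hprod, ENNReal.ofReal_one]
  · -- closeness
    have hinj : Function.Injective fun x => A x + b := fun x y h => by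
      have : A x + b = A y + b := h
      exact A.injective (add_right_cancel this)
    have h1 : (fun x => A' x + b) '' G = (fun x => A x + b) '' (lam • G) := by
      rw [← image_smul, image_image (fun x => A x + b) (fun x => lam • x) G]
      rfl
    rw [h1, ← image_symmDiff hinj, vol_affine]
    set cB := Metric.closedBall (0 : WW n) 1 with hcB
    have hZX : lam • G ⊆ lam • cB := by
      apply smul_set_mono
      rw [hG]
      refine (image_mono hFB).trans ?_
      rw [hLball]
      exact Metric.ball_subset_closedBall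
    have hZY : cB ⊆ lam • cB := by
      rw [hcB, smul_closedBall _ _ zero_le_one, smul_zero, Real.norm_of_nonneg hlam0.le, mul_one]
      exact Metric.closedBall_subset_closedBall hlam1
    have hpow : |lam ^ Module.finrank ℝ (WW n)| = β / φ := by
      rw [hfr, hlamp, abs_of_pos (by positivity)]
    have vX : volume (lam • G) = ENNReal.ofReal β := by
      rw [Measure.addHaar_smul, hpow, hGvol, ← ENNReal.ofReal_mul (by positivity)]
      congr 1
      field_simp
    have vZ : volume (lam • cB) = ENNReal.ofReal (β / φ * β) := by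
      rw [Measure.addHaar_smul, hpow, hcBall, ← ENNReal.ofReal_mul (by positivity)]
    have hXm : MeasurableSet (lam • G) := hGm.const_smul₀ lam
    have vZX : volume (lam • cB \ lam • G) = ENNReal.ofReal (β / φ * β - β) := by
      rw [measure_sdiff hZX hXm.nullMeasurableSet (by rw [vX]; exact ENNReal.ofReal_ne_top), vX, vZ,
        ENNReal.ofReal_sub _ hβ.le]
    have vZY : volume (lam • cB \ cB) = ENNReal.ofReal (β / φ * β - β) := by
      rw [measure_sdiff hZY measurableSet_closedBall.nullMeasurableSet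
        (by rw [hcBall]; exact ENNReal.ofReal_ne_top), hcBall, vZ, ENNReal.ofReal_sub _ hβ.le]
    have hx0 : 0 ≤ β / φ * β - β := by
      have : 1 ≤ β / φ := by rw [le_div_iff₀ hφ0]; linarith
      nlinarith
    calc ENNReal.ofReal D * volume ((lam • G) ∆ cB)
        ≤ ENNReal.ofReal D * (volume (lam • cB \ lam • G) + volume (lam • cB \ cB)) := by
          gcongr
          exact (measure_mono (symmDiff_sub hZX hZY)).trans (measure_union_le _ _)
      _ = ENNReal.ofReal (D * (2 * (β / φ * β - β))) := by
          rw [vZX, vZY, ← ENNReal.ofReal_add hx0 hx0, ← ENNReal.ofReal_mul hD0.le]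
          congr 1
          ring
      _ < ENNReal.ofReal e := by
          rw [ENNReal.ofReal_lt_ofReal_iff he0]
          have h2 : D * (2 * (β / φ * β - β)) = 2 * (β - φ) / φ := by
            have : D * (2 * (β / φ * β - β)) = 2 * (D * β) * (β / φ - 1) := by ring
            rw [this, hDβ]
            field_simp
          rw [h2, div_lt_iff₀ hφ0]
          nlinarith
      _ = min ε 1 := ENNReal.ofReal_toReal hminT
      _ ≤ ε := min_le_left _ _
  · -- the functional
    have hq1 : 1 ≤ q := by linarith
    have e1 : JE q (Metric.closedBall (0 : WW n) 1) =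
        ENNReal.ofReal (JJ q (Metric.ball (0 : EE n) 1)) := by
      have h1 : Metric.closedBall (0 : WW n) 1 =ᵐ[volume] Metric.ball (0 : WW n) 1 := by
        have h2 : volume (Metric.sphere (0 : WW n) 1) = 0 :=
          Measure.addHaar_sphere_of_ne_zero _ _ one_ne_zero
        rw [← Metric.ball_union_sphere]
        exact union_ae_eq_left_of_ae_eq_empty (ae_eq_empty.2 h2)
      rw [JE_congr h1, ← hLball, JE_isometry, JE_sym hq.le (sym_ball 1)]
    have hJF : 0 ≤ JJ q (Fr n r) := by
      unfold JJ
      exact integral_nonneg fun ξ => by positivity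
    have hJB : 0 ≤ JJ q (Metric.ball (0 : EE n) 1) := by
      unfold JJ
      exact integral_nonneg fun ξ => by positivity
    have hpos : 0 < (β / φ * D) ^ (q - 1) := Real.rpow_pos_of_pos (by positivity) _
    have e2 : D ^ (q - 1) * JJ q (Metric.ball (0 : EE n) 1) <
        (β / φ * D) ^ (q - 1) * JJ q (Fr n r) := by
      have h1 := mul_lt_mul_of_pos_left hbeat hpos
      have h2 : (β / φ * D) ^ (q - 1) * (JJ q (Metric.ball (0 : EE n) 1) * (φ / β) ^ (q - 1)) =
          D ^ (q - 1) * JJ q (Metric.ball (0 : EE n) 1) := by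
        have h3 : (β / φ * D) ^ (q - 1) * (φ / β) ^ (q - 1) = D ^ (q - 1) := by
          rw [← Real.mul_rpow (by positivity) (by positivity)]
          congr 1
          field_simp
        rw [← h3]
        ring
      rwa [h2] at h1
    rw [JE_affine hq1, JE_affine hq1, e1, hG, JE_isometry, JE_sym hq.le (sym_Fr r), hdetA',
      ← ENNReal.ofReal_mul (by positivity), ← ENNReal.ofReal_mul (by positivity)]
    exact (ENNReal.ofReal_lt_ofReal_iff_of_nonneg (by positivity)).2 e2

end Pool.Agent.H51.Maxi
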