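import Mathlib

open MeasureTheory Set Filter Topology
open scoped ENNReal Real ComplexConjugate

namespace Pool.Agent.H51.Maxi

/-- Bregman divergence of `|x|^q`. -/
noncomputable def Psi (q a b : ℝ) : ℝ := |a + b| ^ q - |a| ^ q - q * (|a| ^ (q - 2) * a * b)

theorem tangent {p x y : ℝ} (hp : 1 ≤ p) (hx : 0 ≤ x) (hy : 0 ≤ y) :
    x ^ p + p * x ^ (p - 1) * (y - x) ≤ y ^ p := by
  rcases hx.eq_or_lt with rfl | hx
  · rcases hp.eq_or_lt with rfl | hp
    · simp
    · rw [Real.zero_rpow (by linarith), Real.zero_rpow (by linarith)]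
      have := Real.rpow_nonneg hy p
      linarith
  · have h := one_add_mul_self_le_rpow_one_add (s := y / x - 1) (by
      have : 0 ≤ y / x := by positivity
      linarith) hp
    have h1 : (1 + (y / x - 1)) ^ p = y ^ p / x ^ p := by
      rw [← Real.div_rpow hy hx.le]
      congr 1
      ring
    rw [h1, le_div_iff₀ (by positivity)] at h
    have h2 : x ^ p = x ^ (p - 1) * x := by
      rw [Real.rpow_sub_one hx.ne']
      field_simp
    calc x ^ p + p * x ^ (p - 1) * (y - x) = (1 + p * (y / x - 1)) * x ^ p := by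
          rw [h2]; field_simp
      _ ≤ y ^ p := h

theorem tangent_lt {p x y : ℝ} (hp : 1 < p) (hx : 0 ≤ x) (hy : 0 ≤ y) (hxy : x ≠ y) :
    x ^ p + p * x ^ (p - 1) * (y - x) < y ^ p := by
  rcases hx.eq_or_lt with rfl | hx
  · rw [Real.zero_rpow (by linarith), Real.zero_rpow (by linarith)]
    have hy' : 0 < y := lt_of_le_of_ne hy hxy
    have := Real.rpow_pos_of_pos hy' p
    linarith
  · have h := one_add_mul_self_lt_rpow_one_add (s := y / x - 1) (by
      have : 0 ≤ y / x := by positivity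
      linarith) (by
      intro h0
      apply hxy
      have : y / x = 1 := by linarith
      rw [div_eq_one_iff_eq hx.ne'] at this
      exact this.symm) hp
    have h1 : (1 + (y / x - 1)) ^ p = y ^ p / x ^ p := by
      rw [← Real.div_rpow hy hx.le]
      congr 1
      ring
    rw [h1, lt_div_iff₀ (by positivity)] at h
    have h2 : x ^ p = x ^ (p - 1) * x := by
      rw [Real.rpow_sub_one hx.ne']
      field_simp
    calc x ^ p + p * x ^ (p - 1) * (y - x) = (1 + p * (y / x - 1)) * x ^ p := by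
          rw [h2]; field_simp
      _ < y ^ p := h

theorem sq_rpow (x p : ℝ) : (x ^ 2) ^ (p / 2) = |x| ^ p := by
  rw [← sq_abs, ← Real.rpow_natCast, ← Real.rpow_mul (abs_nonneg x)]
  congr 1
  push_cast
  ring

theorem sq_rpow' (x p : ℝ) : (x ^ 2) ^ (p / 2 - 1) = |x| ^ (p - 2) := by
  rw [← sq_rpow x (p - 2)]
  congr 1
  ring

theorem Psi_ge {q : ℝ} (hq : 2 ≤ q) (a b : ℝ) : q / 2 * (|a| ^ (q - 2) * b ^ 2) ≤ Psi q a b := by
  have h := tangent (p := q / 2) (x := a ^ 2) (y := (a + b) ^ 2) (by linarith) (by positivity)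
    (by positivity)
  rw [sq_rpow, sq_rpow, sq_rpow'] at h
  have h2 : q / 2 * |a| ^ (q - 2) * ((a + b) ^ 2 - a ^ 2) =
      q * (|a| ^ (q - 2) * a * b) + q / 2 * (|a| ^ (q - 2) * b ^ 2) := by ring
  unfold Psi
  linarith

theorem Psi_nonneg {q : ℝ} (hq : 2 ≤ q) (a b : ℝ) : 0 ≤ Psi q a b :=
  le_trans (by positivity) (Psi_ge hq a b)

theorem Psi_two (a b : ℝ) : Psi 2 a b = b ^ 2 := by
  unfold Psi
  norm_num
  ring

/-- derivative of `|x|^(q-2) x` -/
theorem hasDerivAt_h {q : ℝ} (hq : 2 < q) (x : ℝ) :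
    HasDerivAt (fun x : ℝ => |x| ^ (q - 2) * x) ((q - 1) * |x| ^ (q - 2)) x := by
  rcases eq_or_ne x 0 with rfl | hx
  · rw [abs_zero, Real.zero_rpow (by linarith), mul_zero]
    rw [hasDerivAt_iff_tendsto_slope]
    have h1 : Tendsto (fun x : ℝ => |x| ^ (q - 2)) (𝓝[≠] 0) (𝓝 0) := by
      have hc : Continuous (fun x : ℝ => |x| ^ (q - 2)) :=
        continuous_abs.rpow_const fun x => Or.inr (by linarith)
      have := hc.tendsto 0
      rw [abs_zero, Real.zero_rpow (by linarith)] at this
      exact this.mono_left nhdsWithin_le_nhds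
    refine h1.congr' ?_
    filter_upwards [self_mem_nhdsWithin] with y hy
    have hy' : y ≠ 0 := hy
    rw [slope_def_field]
    simp
    field_simp
  · have h1 := hasDerivAt_abs_rpow x (p := q) (by linarith)
    have h2 : HasDerivAt (fun y : ℝ => |y| ^ (q - 2)) ((q - 2) * |x| ^ (q - 4) * x) x := by
      have h3 : HasDerivAt (fun y : ℝ => (y ^ 2) ^ ((q - 2) / 2))
          (((q - 2) / 2) * (x ^ 2) ^ ((q - 2) / 2 - 1) * (2 * x)) x := by
        have h4 : HasDerivAt (fun y : ℝ => y ^ 2) (2 * x) x := by simpa using hasDerivAt_pow 2 x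
        have h5 := h4.rpow_const (p := (q - 2) / 2) (Or.inl (by positivity))
        convert! h5 using 1
        ring
      have h6 : (x ^ 2) ^ ((q - 2) / 2 - 1) = |x| ^ (q - 4) := by
        rw [sq_rpow']
        congr 1
        ring
      rw [h6] at h3
      have h7 : (fun y : ℝ => (y ^ 2) ^ ((q - 2) / 2)) = fun y : ℝ => |y| ^ (q - 2) := by
        ext y
        rw [sq_rpow]
      rw [h7] at h3
      convert! h3 using 1
      ring
    have h8 := h2.mul (hasDerivAt_id x)
    convert! h8 using 1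
    have h9 : |x| ^ (q - 4) * x * x = |x| ^ (q - 2) := by
      have : |x| ^ (q - 2) = |x| ^ (q - 4) * |x| ^ (2 : ℝ) := by
        rw [← Real.rpow_add (abs_pos.2 hx)]
        congr 1
        ring
      rw [this, Real.rpow_two, sq_abs]
      ring
    simp only [id]
    have : (q - 2) * |x| ^ (q - 4) * x * x = (q - 2) * (|x| ^ (q - 4) * x * x) := by ring
    rw [this, h9]
    ring

theorem h_lip {q M : ℝ} (hq : 2 < q) {x y : ℝ} (hx : |x| ≤ M) (hy : |y| ≤ M) :
    |(|y| ^ (q - 2) * y - |x| ^ (q - 2) * x)| ≤ (q - 1) * M ^ (q - 2) * |y - x| := by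
  have := Convex.norm_image_sub_le_of_norm_hasDerivWithin_le (𝕜 := ℝ)
    (f := fun x : ℝ => |x| ^ (q - 2) * x) (f' := fun x => (q - 1) * |x| ^ (q - 2))
    (s := Icc (-M) M) (C := (q - 1) * M ^ (q - 2)) (x := x) (y := y)
    (fun z _ => (hasDerivAt_h hq z).hasDerivWithinAt) (by
      intro z hz
      rw [Real.norm_of_nonneg (by have := Real.rpow_nonneg (abs_nonneg z) (q - 2); nlinarith)]
      have hz' : |z| ≤ M := abs_le.2 hz
      have := Real.rpow_le_rpow (abs_nonneg z) hz' (by linarith : 0 ≤ q - 2)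
      exact mul_le_mul_of_nonneg_left this (by linarith)) (convex_Icc _ _) (abs_le.1 hx) (abs_le.1 hy)
  exact this

theorem Psi_le {q M : ℝ} (hq : 2 < q) {a b : ℝ} (ha : |a| ≤ M) (hb : |b| ≤ M) :
    Psi q a b ≤ q * (q - 1) * (2 * M) ^ (q - 2) * b ^ 2 := by
  have hM : 0 ≤ M := (abs_nonneg a).trans ha
  have key := Convex.norm_image_sub_le_of_norm_hasDerivWithin_le (𝕜 := ℝ)
    (f := fun s : ℝ => |a + s| ^ q - q * (|a| ^ (q - 2) * a) * s)
    (f' := fun s => q * (|a + s| ^ (q - 2) * (a + s)) - q * (|a| ^ (q - 2) * a))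
    (s := uIcc 0 b) (C := q * (q - 1) * (2 * M) ^ (q - 2) * |b|) (x := 0) (y := b)
    (fun s _ => by
      have h1 := hasDerivAt_abs_rpow (a + s) (p := q) (by linarith)
      have h2 : HasDerivAt (fun s : ℝ => a + s) 1 s := by
        simpa using (hasDerivAt_id s).const_add a
      have h3 := h1.comp s h2
      have h4 := h3.sub ((hasDerivAt_id s).const_mul (q * (|a| ^ (q - 2) * a)))
      refine HasDerivAt.hasDerivWithinAt ?_
      convert! h4 using 1
      ring) (by
      intro s hs
      have hs' : |s| ≤ |b| := by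
        have := abs_sub_left_of_mem_uIcc hs
        simpa using this
      rw [← mul_sub, norm_mul, Real.norm_of_nonneg (by linarith : (0 : ℝ) ≤ q)]
      have h1 : |a| ≤ 2 * M := by linarith
      have h2 : |a + s| ≤ 2 * M := by
        have := abs_add_le a s
        linarith
      have h3 := h_lip hq h1 h2
      rw [add_sub_cancel_left] at h3
      have h4 : (q - 1) * (2 * M) ^ (q - 2) * |s| ≤ (q - 1) * (2 * M) ^ (q - 2) * |b| :=
        mul_le_mul_of_nonneg_left hs'
          (mul_nonneg (by linarith) (Real.rpow_nonneg (by linarith) _))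
      calc q * ‖|a + s| ^ (q - 2) * (a + s) - |a| ^ (q - 2) * a‖
          ≤ q * ((q - 1) * (2 * M) ^ (q - 2) * |b|) :=
            mul_le_mul_of_nonneg_left (h3.trans h4) (by linarith)
        _ = _ := by ring) (convex_uIcc _ _) left_mem_uIcc right_mem_uIcc
  have h5 : |a + b| ^ q - q * (|a| ^ (q - 2) * a) * b - (|a + 0| ^ q - q * (|a| ^ (q - 2) * a) * 0) =
      Psi q a b := by
    unfold Psi
    rw [add_zero]
    ring
  simp only [sub_zero] at key
  have h6 : Psi q a b ≤ ‖|a + b| ^ q - q * (|a| ^ (q - 2) * a) * b -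
      (|a + 0| ^ q - q * (|a| ^ (q - 2) * a) * 0)‖ := by
    rw [h5]
    exact Real.le_norm_self _
  refine h6.trans (key.trans (le_of_eq ?_))
  rw [Real.norm_eq_abs, mul_assoc, abs_mul_abs_self]
  ring

theorem continuous_Psi {q : ℝ} (hq : 2 ≤ q) : Continuous fun p : ℝ × ℝ => Psi q p.1 p.2 := by
  unfold Psi
  refine Continuous.sub (Continuous.sub ?_ ?_) ?_
  · exact (continuous_fst.add continuous_snd).abs.rpow_const fun x => Or.inr (by linarith)
  · exact continuous_fst.abs.rpow_const fun x => Or.inr (by linarith)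
  · exact continuous_const.mul (((continuous_fst.abs.rpow_const fun x => Or.inr (by linarith)).mul
      continuous_fst).mul continuous_snd)

theorem cont_Psi {X : Type*} [TopologicalSpace X] {q : ℝ} (hq : 2 ≤ q) {a b : X → ℝ}
    (ha : Continuous a) (hb : Continuous b) : Continuous fun x => Psi q (a x) (b x) := by
  unfold Psi
  refine Continuous.sub (Continuous.sub ?_ ?_) ?_
  · exact (ha.add hb).abs.rpow_const fun x => Or.inr (by linarith)
  · exact ha.abs.rpow_const fun x => Or.inr (by linarith)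
  · exact continuous_const.mul (((ha.abs.rpow_const fun x => Or.inr (by linarith)).mul
      ha).mul hb)

theorem contOn_Psi {X : Type*} [TopologicalSpace X] {s : Set X} {q : ℝ} (hq : 2 ≤ q) {a b : X → ℝ}
    (ha : ContinuousOn a s) (hb : ContinuousOn b s) :
    ContinuousOn (fun x => Psi q (a x) (b x)) s := by
  unfold Psi
  refine ContinuousOn.sub (ContinuousOn.sub ?_ ?_) ?_
  · exact (ha.add hb).abs.rpow_const fun x _ => Or.inr (by linarith)
  · exact ha.abs.rpow_const fun x _ => Or.inr (by linarith)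
  · exact continuousOn_const.mul (((ha.abs.rpow_const fun x _ => Or.inr (by linarith)).mul
      ha).mul hb)

/-- `2 Re (e^{-2πiθ} A)` -/
noncomputable def osc (A : ℂ) (θ : ℝ) : ℝ := 2 * (Complex.exp (-(2 * π * θ) * Complex.I) * A).re

theorem osc_add (A B : ℂ) (θ : ℝ) : osc (A + B) θ = osc A θ + osc B θ := by
  unfold osc
  rw [mul_add, Complex.add_re]
  ring

theorem osc_sub (A B : ℂ) (θ : ℝ) : osc (A - B) θ = osc A θ - osc B θ := by
  unfold osc
  rw [mul_sub, Complex.sub_re]
  ring

theorem osc_real_mul (r : ℝ) (A : ℂ) (θ : ℝ) : osc (r * A) θ = r * osc A θ := by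
  unfold osc
  have : Complex.exp (-(2 * π * θ) * Complex.I) * (r * A) =
      r * (Complex.exp (-(2 * π * θ) * Complex.I) * A) := by ring
  rw [this, Complex.re_ofReal_mul]
  ring

theorem osc_shift (A : ℂ) (φ θ : ℝ) :
    osc (Complex.exp ((2 * π * φ) * Complex.I) * A) θ = osc A (θ - φ) := by
  unfold osc
  congr 2
  rw [← mul_assoc, ← Complex.exp_add]
  congr 2
  push_cast
  ring

theorem osc_periodic (A : ℂ) : Function.Periodic (osc A) 1 := by
  intro θ
  unfold osc
  congr 3
  have : (-(2 * π * ((θ + 1 : ℝ) : ℂ)) * Complex.I) = -(2 * π * θ) * Complex.I - 2 * π * Complex.I := by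
    push_cast
    ring
  rw [this, Complex.exp_sub, Complex.exp_two_pi_mul_I, div_one]

theorem continuous_osc : Continuous fun p : ℂ × ℝ => osc p.1 p.2 := by
  unfold osc
  fun_prop

theorem continuous_osc' (A : ℂ) : Continuous (osc A) := by
  have : osc A = fun θ : ℝ => 2 * (Complex.exp (-(2 * π * θ) * Complex.I) * A).re := rfl
  rw [this]
  fun_prop

theorem cont_osc {X : Type*} [TopologicalSpace X] {A : X → ℂ} {θ : X → ℝ} (hA : Continuous A)
    (hθ : Continuous θ) : Continuous fun x => osc (A x) (θ x) := by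
  unfold osc
  fun_prop

theorem contOn_osc {X : Type*} [TopologicalSpace X] {s : Set X} {A : X → ℂ} {θ : X → ℝ}
    (hA : ContinuousOn A s) (hθ : ContinuousOn θ s) : ContinuousOn (fun x => osc (A x) (θ x)) s := by
  unfold osc
  fun_prop

theorem abs_osc_le (A : ℂ) (θ : ℝ) : |osc A θ| ≤ 2 * ‖A‖ := by
  unfold osc
  rw [abs_mul, abs_two]
  have h1 := Complex.abs_re_le_norm (Complex.exp (-(2 * π * θ) * Complex.I) * A)
  have h2 : ‖Complex.exp (-(2 * π * θ) * Complex.I)‖ = 1 := by
    have := Complex.norm_exp_ofReal_mul_I (-(2 * π * θ))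
    push_cast at this
    exact this
  rw [norm_mul, h2, one_mul] at h1
  linarith

theorem hasDerivAt_osc (A : ℂ) (θ : ℝ) :
    HasDerivAt (osc A) (-(2 * π) * osc (Complex.I * A) θ) θ := by
  have h1 : HasDerivAt (fun θ : ℝ => Complex.exp (-(2 * π * θ) * Complex.I) * A)
      (Complex.exp (-(2 * π * θ) * Complex.I) * (-(2 * π) * Complex.I) * A) θ := by
    have h2 : HasDerivAt (fun θ : ℝ => (-(2 * π * (θ : ℂ)) * Complex.I)) (-(2 * π) * Complex.I) θ := by
      have h3 : HasDerivAt (fun θ : ℝ => (θ : ℂ)) 1 θ := Complex.ofRealCLM.hasDerivAt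
      have h4 := (h3.const_mul (-(2 * π : ℂ))).mul_const Complex.I
      convert! h4 using 1
      · ext x
        ring
      · ring
    exact (h2.cexp).mul_const A
  have h5 := (Complex.reCLM.hasFDerivAt.comp_hasDerivAt θ h1).const_mul 2
  convert! h5 using 1
  unfold osc
  simp only [Complex.reCLM_apply]
  have : Complex.exp (-(2 * π * θ) * Complex.I) * (-(2 * π) * Complex.I) * A =
      ((-(2 * π) : ℝ) : ℂ) * (Complex.exp (-(2 * π * θ) * Complex.I) * (Complex.I * A)) := by
    push_cast
    ring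
  rw [this, Complex.re_ofReal_mul]
  ring

/-- `∫ |2cos|^q` -/
noncomputable def K (q : ℝ) : ℝ := ∫ θ in (0 : ℝ)..1, |osc 1 θ| ^ q

theorem exists_phase (A : ℂ) : ∃ φ : ℝ, A = Complex.exp ((2 * π * φ) * Complex.I) * ‖A‖ := by
  refine ⟨A.arg / (2 * π), ?_⟩
  have h := Complex.norm_mul_exp_arg_mul_I A
  have h2 : (2 * π * ((A.arg / (2 * π) : ℝ) : ℂ)) = A.arg := by
    push_cast
    field_simp
  rw [h2, mul_comm, h]

theorem osc_eq (A : ℂ) : ∃ φ : ℝ, ∀ θ, osc A θ = ‖A‖ * osc 1 (θ - φ) := by
  obtain ⟨φ, hφ⟩ := exists_phase A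
  refine ⟨φ, fun θ => ?_⟩
  conv_lhs => rw [hφ]
  rw [osc_shift, ← osc_real_mul, mul_one]

theorem avg_pow {q : ℝ} (hq : 2 ≤ q) (A : ℂ) :
    ∫ θ in (0 : ℝ)..1, |osc A θ| ^ q = ‖A‖ ^ q * K q := by
  obtain ⟨φ, hφ⟩ := osc_eq A
  have h1 : ∀ θ, |osc A θ| ^ q = ‖A‖ ^ q * |osc 1 (θ - φ)| ^ q := by
    intro θ
    rw [hφ, abs_mul, abs_norm, Real.mul_rpow (norm_nonneg _) (abs_nonneg _)]
  simp only [h1]
  rw [intervalIntegral.integral_const_mul]
  congr 1
  rw [intervalIntegral.integral_comp_sub_right (fun θ => |osc 1 θ| ^ q)]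
  have hp : Function.Periodic (fun θ => |osc 1 θ| ^ q) 1 := by
    intro θ
    beta_reduce
    rw [osc_periodic 1 θ]
  have := hp.intervalIntegral_add_eq (0 - φ) 0
  rw [zero_add] at this
  have h2 : (0 : ℝ) - φ + 1 = 1 - φ := by ring
  rw [h2] at this
  exact this

theorem avg_cross {q : ℝ} (hq : 2 ≤ q) (A B : ℂ) :
    ∫ θ in (0 : ℝ)..1, |osc A θ| ^ (q - 2) * osc A θ * osc B θ =
      ‖A‖ ^ (q - 2) * (conj A * B).re * K q := by
  rcases eq_or_ne A 0 with rfl | hA
  · have : ∀ θ, osc 0 θ = 0 := by intro θ; simp [osc]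
    simp [this]
  · set z := B / A with hz
    have hB : B = z * A := by rw [hz, div_mul_cancel₀ _ hA]
    have h1 : ∀ θ, osc B θ = z.re * osc A θ + z.im * osc (Complex.I * A) θ := by
      intro θ
      rw [← osc_real_mul, ← osc_real_mul, ← osc_add]
      congr 1
      rw [hB]
      conv_lhs => rw [← Complex.re_add_im z]
      ring
    have c1 : Continuous (osc A) := continuous_osc' A
    have c2 : Continuous (osc (Complex.I * A)) := continuous_osc' _
    have c3 : Continuous fun θ => |osc A θ| ^ (q - 2) * osc A θ :=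
      (c1.abs.rpow_const fun x => Or.inr (by linarith)).mul c1
    have h2 : ∀ θ, |osc A θ| ^ (q - 2) * osc A θ * osc B θ =
        z.re * (|osc A θ| ^ (q - 2) * osc A θ * osc A θ) +
          z.im * (|osc A θ| ^ (q - 2) * osc A θ * osc (Complex.I * A) θ) := by
      intro θ
      rw [h1]
      ring
    simp only [h2]
    have i1 : IntervalIntegrable (fun θ => z.re * (|osc A θ| ^ (q - 2) * osc A θ * osc A θ))
        volume 0 1 := (continuous_const.mul (c3.mul c1)).intervalIntegrable _ _
    have i2 : IntervalIntegrable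
        (fun θ => z.im * (|osc A θ| ^ (q - 2) * osc A θ * osc (Complex.I * A) θ))
        volume 0 1 := (continuous_const.mul (c3.mul c2)).intervalIntegrable _ _
    rw [intervalIntegral.integral_add i1 i2, intervalIntegral.integral_const_mul,
      intervalIntegral.integral_const_mul]
    have h3 : ∫ θ in (0 : ℝ)..1, |osc A θ| ^ (q - 2) * osc A θ * osc (Complex.I * A) θ = 0 := by
      have hder : ∀ θ ∈ uIcc (0 : ℝ) 1, HasDerivAt (fun θ => |osc A θ| ^ q)
          (q * |osc A θ| ^ (q - 2) * osc A θ * (-(2 * π) * osc (Complex.I * A) θ)) θ := by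
        intro θ _
        exact (hasDerivAt_abs_rpow (osc A θ) (p := q) (by linarith)).comp θ (hasDerivAt_osc A θ)
      have hint := intervalIntegral.integral_eq_sub_of_hasDerivAt hder (by
        apply Continuous.intervalIntegrable
        exact ((continuous_const.mul (c1.abs.rpow_const fun x => Or.inr (by linarith))).mul c1).mul
          (continuous_const.mul c2))
      have h4 : osc A 1 = osc A 0 := by
        have := osc_periodic A 0
        rw [zero_add] at this
        exact this
      rw [h4, sub_self] at hint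
      have h5 : ∀ θ, q * |osc A θ| ^ (q - 2) * osc A θ * (-(2 * π) * osc (Complex.I * A) θ) =
          (-(2 * π) * q) * (|osc A θ| ^ (q - 2) * osc A θ * osc (Complex.I * A) θ) := by
        intro θ
        ring
      simp only [h5] at hint
      rw [intervalIntegral.integral_const_mul] at hint
      rcases mul_eq_zero.1 hint with h | h
      · have := Real.pi_pos
        nlinarith
      · exact h
    rw [h3, mul_zero, add_zero]
    have h6 : ∀ θ, |osc A θ| ^ (q - 2) * osc A θ * osc A θ = |osc A θ| ^ q := by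
      intro θ
      rcases eq_or_ne (osc A θ) 0 with h | h
      · rw [h, mul_zero, abs_zero, Real.zero_rpow (by linarith)]
      · have : |osc A θ| ^ q = |osc A θ| ^ (q - 2) * |osc A θ| ^ (2 : ℝ) := by
          rw [← Real.rpow_add (abs_pos.2 h)]
          congr 1
          ring
        rw [this, Real.rpow_two, sq_abs]
        ring
    simp only [h6]
    rw [avg_pow hq, hB]
    have h7 : (conj A * (z * A)) = ((‖A‖ ^ 2 : ℝ) : ℂ) * z := by
      have := Complex.mul_conj A
      rw [Complex.normSq_eq_norm_sq] at this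
      rw [← this]
      ring
    rw [h7, Complex.re_ofReal_mul]
    have h8 : ‖A‖ ^ q = ‖A‖ ^ (q - 2) * ‖A‖ ^ 2 := by
      rw [← Real.rpow_two, ← Real.rpow_add (norm_pos_iff.2 hA)]
      congr 1
      ring
    rw [h8]
    ring

/-- Phase average of `Psi`. -/
noncomputable def Theta (q : ℝ) (A B : ℂ) : ℝ :=
  K q * (‖A + B‖ ^ q - ‖A‖ ^ q - q * (‖A‖ ^ (q - 2) * (conj A * B).re))

theorem avg_Psi {q : ℝ} (hq : 2 ≤ q) (A B : ℂ) :
    ∫ θ in (0 : ℝ)..1, Psi q (osc A θ) (osc B θ) = Theta q A B := by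
  have c1 : ∀ A, Continuous (osc A) := continuous_osc'
  unfold Psi
  rw [intervalIntegral.integral_sub, intervalIntegral.integral_sub,
    intervalIntegral.integral_const_mul, avg_cross hq, avg_pow hq]
  · have : ∀ θ, |osc A θ + osc B θ| ^ q = |osc (A + B) θ| ^ q := by
      intro θ
      rw [osc_add]
    simp only [this]
    rw [avg_pow hq]
    unfold Theta
    ring
  · exact (((c1 A).add (c1 B)).abs.rpow_const fun x => Or.inr (by linarith)).intervalIntegrable _ _
  · exact ((c1 A).abs.rpow_const fun x => Or.inr (by linarith)).intervalIntegrable _ _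
  · exact ((((c1 A).add (c1 B)).abs.rpow_const fun x => Or.inr (by linarith)).sub
      ((c1 A).abs.rpow_const fun x => Or.inr (by linarith))).intervalIntegrable _ _
  · exact (continuous_const.mul ((((c1 A).abs.rpow_const fun x => Or.inr (by linarith)).mul
      (c1 A)).mul (c1 B))).intervalIntegrable _ _

end Pool.Agent.H51.Maxi
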