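import Pool.Agent.H51.Maxi.Planch
import Pool.Agent.H51.Maxi.Psi

open MeasureTheory Set Filter Topology FourierTransform
open scoped ENNReal Real InnerProductSpace

namespace Pool.Agent.H51.Maxi

variable {E : Type*} [NormedAddCommGroup E] [InnerProductSpace ℝ E] [FiniteDimensional ℝ E]
  [MeasurableSpace E] [BorelSpace E]

/-- cosine transform of a set -/
noncomputable def ct (F : Set E) (ξ : E) : ℝ := ∫ x in F, Real.cos (2 * π * ⟪x, ξ⟫_ℝ)

/-- measurable symmetric set of finite measure -/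
structure Sym (F : Set E) : Prop where
  meas : MeasurableSet F
  symm : ∀ x, -x ∈ F ↔ x ∈ F
  fin : volume F ≠ ⊤

theorem ind_int {F : Set E} (hF : Sym F) : Integrable (F.indicator fun _ => (1 : ℂ)) := by
  rw [integrable_indicator_iff hF.meas]
  exact integrableOn_const hF.fin

theorem ind_L2 {F : Set E} (hF : Sym F) : MemLp (F.indicator fun _ => (1 : ℂ)) 2 :=
  memLp_indicator_const 2 hF.meas _ (Or.inr hF.fin)

theorem fourier_ind {F : Set E} (hF : Sym F) (ξ : E) :
    𝓕 (F.indicator fun _ => (1 : ℂ)) ξ = (ct F ξ : ℂ) := by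
  have h1 : 𝓕 (F.indicator fun _ => (1 : ℂ)) ξ =
      ∫ x in F, Complex.exp (((-2 * π * ⟪x, ξ⟫_ℝ : ℝ) : ℂ) * Complex.I) := by
    rw [Real.fourier_eq', ← integral_indicator hF.meas]
    congr 1
    ext x
    by_cases hx : x ∈ F
    · rw [indicator_of_mem hx, indicator_of_mem hx, smul_eq_mul, mul_one]
    · rw [indicator_of_notMem hx, indicator_of_notMem hx, smul_zero]
  have hci : IntegrableOn (fun x : E => Real.cos (2 * π * ⟪x, ξ⟫_ℝ)) F := by
    refine (integrableOn_const (C := (1 : ℝ)) hF.fin).mono' (by fun_prop) ?_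
    exact Eventually.of_forall fun x => Real.abs_cos_le_one _
  have hsi : IntegrableOn (fun x : E => Real.sin (2 * π * ⟪x, ξ⟫_ℝ)) F := by
    refine (integrableOn_const (C := (1 : ℝ)) hF.fin).mono' (by fun_prop) ?_
    exact Eventually.of_forall fun x => Real.abs_sin_le_one _
  have h2 : ∀ x : E, Complex.exp (((-2 * π * ⟪x, ξ⟫_ℝ : ℝ) : ℂ) * Complex.I) =
      (Real.cos (2 * π * ⟪x, ξ⟫_ℝ) : ℂ) - (Real.sin (2 * π * ⟪x, ξ⟫_ℝ) : ℂ) * Complex.I := by
    intro x
    rw [Complex.exp_mul_I, ← Complex.ofReal_cos, ← Complex.ofReal_sin]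
    have : -2 * π * ⟪x, ξ⟫_ℝ = -(2 * π * ⟪x, ξ⟫_ℝ) := by ring
    rw [this, Real.cos_neg, Real.sin_neg]
    push_cast
    ring
  rw [h1]
  simp only [h2]
  rw [integral_sub hci.ofReal (hsi.ofReal.mul_const _), integral_mul_const,
    integral_complex_ofReal, integral_complex_ofReal]
  have h3 : ∫ x in F, Real.sin (2 * π * ⟪x, ξ⟫_ℝ) = 0 := by
    have h4 : ∫ x in F, Real.sin (2 * π * ⟪x, ξ⟫_ℝ) = -∫ x in F, Real.sin (2 * π * ⟪x, ξ⟫_ℝ) := by
      rw [← integral_indicator hF.meas, ← integral_neg]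
      conv_lhs => rw [← integral_neg_eq_self]
      congr 1
      ext x
      by_cases hx : x ∈ F
      · rw [indicator_of_mem hx, indicator_of_mem ((hF.symm x).2 hx), inner_neg_left]
        rw [mul_neg, Real.sin_neg]
      · rw [indicator_of_notMem hx, indicator_of_notMem (fun h => hx ((hF.symm x).1 h)), neg_zero]
    linarith
  rw [h3]
  simp [ct]

theorem abs_ct_le {F : Set E} (ξ : E) (hfin : volume F ≠ ⊤) : |ct F ξ| ≤ volume.real F := by
  unfold ct
  have := norm_setIntegral_le_of_norm_le_const (μ := volume) (s := F) (C := 1)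
    (f := fun x : E => Real.cos (2 * π * ⟪x, ξ⟫_ℝ)) hfin.lt_top
    (fun x _ => Real.abs_cos_le_one _)
  rw [one_mul] at this
  exact this

theorem continuous_ct {F : Set E} (hF : Sym F) : Continuous (ct F) := by
  have h1 : Continuous (𝓕 (F.indicator fun _ => (1 : ℂ))) :=
    VectorFourier.fourierIntegral_continuous (Real.continuous_fourierChar)
        (by exact continuous_inner) (ind_int hF)
  have h2 : ct F = fun ξ => (𝓕 (F.indicator fun _ => (1 : ℂ)) ξ).re := by
    ext ξ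
    rw [fourier_ind hF, Complex.ofReal_re]
  rw [h2]
  exact Complex.continuous_re.comp h1

theorem ct_L2 {F : Set E} (hF : Sym F) : MemLp (ct F) 2 := by
  have h := memLp_fourier (ind_int hF) (ind_L2 hF)
  have h2 : ct F = fun ξ => (𝓕 (F.indicator fun _ => (1 : ℂ)) ξ).re := by
    ext ξ
    rw [fourier_ind hF, Complex.ofReal_re]
  rw [h2]
  exact h.re

theorem integral_ct_sq {F : Set E} (hF : Sym F) : ∫ ξ, ct F ξ ^ 2 = volume.real F := by
  have h := integral_fourier_sq (ind_int hF) (ind_L2 hF)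
  have h1 : ∀ ξ, ‖𝓕 (F.indicator fun _ => (1 : ℂ)) ξ‖ ^ 2 = ct F ξ ^ 2 := by
    intro ξ
    rw [fourier_ind hF, Complex.norm_real, Real.norm_eq_abs, sq_abs]
  have h2 : ∀ x, ‖F.indicator (fun _ => (1 : ℂ)) x‖ ^ 2 = F.indicator (fun _ => (1 : ℝ)) x := by
    intro x
    by_cases hx : x ∈ F
    · rw [indicator_of_mem hx, indicator_of_mem hx]
      simp
    · rw [indicator_of_notMem hx, indicator_of_notMem hx]
      simp
  simp only [h1, h2] at h
  rw [h, integral_indicator hF.meas]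
  simp

theorem ct_diff {F G : Set E} (hF : Sym F) (hG : Sym G) (hsub : F ⊆ G) (ξ : E) :
    ct (G \ F) ξ = ct G ξ - ct F ξ := by
  unfold ct
  apply integral_diff hF.meas _ hsub
  refine (integrableOn_const (C := (1 : ℝ)) hG.fin).mono' (by fun_prop) ?_
  exact Eventually.of_forall fun x => Real.abs_cos_le_one _

theorem Sym.diff {F G : Set E} (hG : Sym G) (hF : Sym F) : Sym (G \ F) :=
  ⟨hG.meas.diff hF.meas, fun x => by rw [mem_diff, mem_diff, hG.symm, hF.symm],
    (measure_lt_top_of_subset diff_subset hG.fin).ne⟩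

/-- `|g|^{q-2} g` -/
noncomputable def Hq (q : ℝ) (F : Set E) (ξ : E) : ℝ := |ct F ξ| ^ (q - 2) * ct F ξ

theorem continuous_Hq {q : ℝ} (hq : 2 ≤ q) {F : Set E} (hF : Sym F) : Continuous (Hq q F) := by
  unfold Hq
  exact ((continuous_ct hF).abs.rpow_const fun x => Or.inr (by linarith)).mul (continuous_ct hF)

theorem Hq_L2 {q : ℝ} (hq : 2 ≤ q) {F : Set E} (hF : Sym F) : MemLp (Hq q F) 2 := by
  refine MemLp.of_le_mul (c := volume.real F ^ (q - 2)) (ct_L2 hF)
    (continuous_Hq hq hF).aestronglyMeasurable (Eventually.of_forall fun ξ => ?_)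
  unfold Hq
  rw [norm_mul, Real.norm_of_nonneg (Real.rpow_nonneg (abs_nonneg _) _)]
  exact mul_le_mul_of_nonneg_right (Real.rpow_le_rpow (abs_nonneg _) (abs_ct_le ξ hF.fin)
    (by linarith)) (norm_nonneg _)

theorem Hq_int {q : ℝ} (hq : 2 ≤ q) {F G : Set E} (hF : Sym F) (hG : Sym G) :
    Integrable (fun ξ => Hq q F ξ * ct G ξ) :=
  MemLp.integrable_mul (Hq_L2 hq hF) (ct_L2 hG)

theorem abs_rpow_eq {q : ℝ} (hq : 2 ≤ q) (x : ℝ) : |x| ^ q = |x| ^ (q - 2) * x ^ 2 := by
  rcases eq_or_ne x 0 with rfl | hx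
  · rw [abs_zero, Real.zero_rpow (by linarith)]
    simp
  · have : |x| ^ q = |x| ^ (q - 2) * |x| ^ (2 : ℝ) := by
      rw [← Real.rpow_add (abs_pos.2 hx)]
      congr 1
      ring
    rw [this, Real.rpow_two, sq_abs]

theorem ct_q_int {q : ℝ} (hq : 2 ≤ q) {F : Set E} (hF : Sym F) :
    Integrable (fun ξ => |ct F ξ| ^ q) := by
  have h : ∀ ξ, |ct F ξ| ^ q = Hq q F ξ * ct F ξ := by
    intro ξ
    rw [abs_rpow_eq hq]
    unfold Hq
    ring
  simp only [h]
  exact Hq_int hq hF hF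

/-- the functional -/
noncomputable def JJ (q : ℝ) (F : Set E) : ℝ := ∫ ξ, |ct F ξ| ^ q

theorem Psi_int {q : ℝ} (hq : 2 ≤ q) {F G : Set E} (hF : Sym F) (hG : Sym G) :
    Integrable (fun ξ => Psi q (ct G ξ) (ct F ξ - ct G ξ)) := by
  have h : ∀ ξ, Psi q (ct G ξ) (ct F ξ - ct G ξ) =
      |ct F ξ| ^ q - |ct G ξ| ^ q - q * (Hq q G ξ * ct F ξ - Hq q G ξ * ct G ξ) := by
    intro ξ
    unfold Psi Hq
    rw [add_sub_cancel]
    ring
  simp only [h]
  exact ((ct_q_int hq hF).sub (ct_q_int hq hG)).sub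
    (((Hq_int hq hG hF).sub (Hq_int hq hG hG)).const_mul _)

theorem JJ_expand {q : ℝ} (hq : 2 ≤ q) {F G : Set E} (hF : Sym F) (hG : Sym G) :
    JJ q F = JJ q G + q * ((∫ ξ, Hq q G ξ * ct F ξ) - ∫ ξ, Hq q G ξ * ct G ξ) +
      ∫ ξ, Psi q (ct G ξ) (ct F ξ - ct G ξ) := by
  have h : ∀ ξ, Psi q (ct G ξ) (ct F ξ - ct G ξ) =
      |ct F ξ| ^ q - |ct G ξ| ^ q - q * (Hq q G ξ * ct F ξ - Hq q G ξ * ct G ξ) := by
    intro ξ
    unfold Psi Hq
    rw [add_sub_cancel]
    ring
  simp only [h]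
  have i1 : Integrable (fun ξ => |ct F ξ| ^ q - |ct G ξ| ^ q) :=
    (ct_q_int hq hF).sub (ct_q_int hq hG)
  have i2 : Integrable (fun ξ => q * (Hq q G ξ * ct F ξ - Hq q G ξ * ct G ξ)) :=
    ((Hq_int hq hG hF).sub (Hq_int hq hG hG)).const_mul _
  rw [integral_sub i1 i2, integral_sub (ct_q_int hq hF)
    (ct_q_int hq hG), integral_const_mul, integral_sub (Hq_int hq hG hF) (Hq_int hq hG hG)]
  unfold JJ
  ring

/-- cosine transform of a function -/
noncomputable def cf (h : E → ℝ) (x : E) : ℝ := ∫ ξ, h ξ * Real.cos (2 * π * ⟪x, ξ⟫_ℝ)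

theorem continuous_cf {h : E → ℝ} (hh : Integrable h) : Continuous (cf h) := by
  unfold cf
  apply continuous_of_dominated (F := fun (x : E) (ξ : E) => h ξ * Real.cos (2 * π * ⟪x, ξ⟫_ℝ))
    (bound := fun ξ => ‖h ξ‖)
  · intro x
    exact hh.1.mul (by fun_prop)
  · intro x
    refine Eventually.of_forall fun ξ => ?_
    rw [norm_mul]
    exact mul_le_of_le_one_right (norm_nonneg _) (Real.abs_cos_le_one _)
  · exact hh.norm
  · exact Eventually.of_forall fun ξ => by fun_prop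

theorem abs_cf_le {h : E → ℝ} (hh : Integrable h) (x : E) : |cf h x| ≤ ∫ ξ, ‖h ξ‖ := by
  unfold cf
  rw [← Real.norm_eq_abs]
  refine norm_integral_le_of_norm_le hh.norm (Eventually.of_forall fun ξ => ?_)
  rw [norm_mul]
  exact mul_le_of_le_one_right (norm_nonneg _) (Real.abs_cos_le_one _)

theorem fubini_cf {h : E → ℝ} (hh : Integrable h) {F : Set E} (hF : Sym F) :
    ∫ ξ, h ξ * ct F ξ = ∫ x in F, cf h x := by
  unfold ct cf
  simp only [← integral_const_mul]
  rw [integral_integral_swap]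
  have h1 : Integrable (fun z : E × E => h z.1) ((volume : Measure E).prod (volume.restrict F)) := by
    have : IsFiniteMeasure ((volume : Measure E).restrict F) := ⟨by
      rw [Measure.restrict_apply_univ]
      exact hF.fin.lt_top⟩
    exact hh.comp_fst _
  refine h1.norm.mono' (h1.1.mul (by fun_prop)) (Eventually.of_forall fun z => ?_)
  simp only [Function.uncurry]
  rw [norm_mul]
  exact mul_le_of_le_one_right (norm_nonneg _) (Real.abs_cos_le_one _)

theorem cf_radial {h : E → ℝ} (hrad : ∀ ξ ξ', ‖ξ‖ = ‖ξ'‖ → h ξ = h ξ') {x x' : E}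
    (hx : ‖x‖ = ‖x'‖) : cf h x = cf h x' := by
  set R := (ℝ ∙ (x - x'))ᗮ.reflection with hR
  have hRx : R x = x' := Submodule.reflection_sub hx
  unfold cf
  rw [← (LinearIsometryEquiv.measurePreserving R).integral_comp
    R.toHomeomorph.measurableEmbedding (fun ξ => h ξ * Real.cos (2 * π * ⟪x', ξ⟫_ℝ))]
  congr 1
  ext ξ
  rw [hrad (R ξ) ξ (R.norm_map ξ), ← hRx, LinearIsometryEquiv.inner_map_map]

theorem ct_radial {F : Set E} (hF : ∀ x x', ‖x‖ = ‖x'‖ → (x ∈ F ↔ x' ∈ F)) (hm : MeasurableSet F)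
    {ξ ξ' : E} (hξ : ‖ξ‖ = ‖ξ'‖) : ct F ξ = ct F ξ' := by
  have h1 : ∀ ξ, ct F ξ = cf (F.indicator fun _ => (1 : ℝ)) ξ := by
    intro ξ
    unfold ct cf
    rw [← integral_indicator hm]
    congr 1
    ext x
    by_cases hx : x ∈ F
    · rw [indicator_of_mem hx, indicator_of_mem hx, one_mul, real_inner_comm]
    · rw [indicator_of_notMem hx, indicator_of_notMem hx, zero_mul]
  rw [h1, h1]
  apply cf_radial _ hξ
  intro x x' hx
  by_cases h : x ∈ F
  · rw [indicator_of_mem h, indicator_of_mem ((hF x x' hx).1 h)]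
  · rw [indicator_of_notMem h, indicator_of_notMem (fun h' => h ((hF x x' hx).2 h'))]

end Pool.Agent.H51.Maxi
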