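import Pool.Agent.H51.Maxi.Psi

open MeasureTheory Set Filter Topology
open scoped ENNReal Real ComplexConjugate Interval

namespace Pool.Agent.H51.Maxi

theorem periodic_fract {f : ℝ → ℝ} (hf : Function.Periodic f 1) (x : ℝ) : f x = f (Int.fract x) := by
  have h := hf.sub_int_mul_eq ⌊x⌋ (x := x)
  rw [mul_one] at h
  rw [← h, Int.fract]

theorem equi {a b : ℝ} (hab : a ≤ b) (Q : ℝ → ℝ → ℝ) (hQ : Continuous fun p : ℝ × ℝ => Q p.1 p.2)
    (hper : ∀ τ, Function.Periodic (Q τ) 1) :
    Tendsto (fun lam : ℝ => ∫ τ in a..b, Q τ (lam * τ)) atTop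
      (𝓝 (∫ τ in a..b, ∫ θ in (0 : ℝ)..1, Q τ θ)) := by
  -- bound
  obtain ⟨M, hM0, hM⟩ : ∃ M, 0 ≤ M ∧ ∀ τ ∈ Icc (a - 1) (b + 1), ∀ θ, |Q τ θ| ≤ M := by
    have hc : IsCompact (Icc (a - 1) (b + 1) ×ˢ Icc (0 : ℝ) 1) := isCompact_Icc.prod isCompact_Icc
    obtain ⟨M, hM⟩ := hc.exists_bound_of_continuousOn hQ.continuousOn
    refine ⟨max M 0, le_max_right _ _, fun τ hτ θ => ?_⟩
    rw [periodic_fract (hper τ)]
    refine (hM (τ, Int.fract θ) ⟨hτ, Int.fract_nonneg _, (Int.fract_lt_one _).le⟩).trans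
      (le_max_left _ _)
  -- modulus of continuity
  have hmod : ∀ ε > 0, ∃ δ > 0, δ ≤ 1 ∧ ∀ τ ∈ Icc a b, ∀ h ∈ Icc (0 : ℝ) δ, ∀ θ,
      |Q (τ + h) θ - Q τ θ| ≤ ε := by
    intro ε hε
    have hc : IsCompact (Icc (a - 1) (b + 1) ×ˢ Icc (0 : ℝ) 1) := isCompact_Icc.prod isCompact_Icc
    have huc := hc.uniformContinuousOn_of_continuous hQ.continuousOn
    rw [Metric.uniformContinuousOn_iff] at huc
    obtain ⟨δ, hδ, h⟩ := huc ε hε
    refine ⟨min (δ / 2) 1, by positivity, min_le_right _ _, fun τ hτ h' hh' θ => ?_⟩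
    rw [periodic_fract (hper τ), periodic_fract (hper (τ + h'))]
    have h1 : h' ≤ 1 := hh'.2.trans (min_le_right _ _)
    have h2 : h' ≤ δ / 2 := hh'.2.trans (min_le_left _ _)
    have := h (τ + h', Int.fract θ) ⟨⟨by linarith [hτ.1, hh'.1], by linarith [hτ.2]⟩,
      Int.fract_nonneg _, (Int.fract_lt_one _).le⟩ (τ, Int.fract θ)
      ⟨⟨by linarith [hτ.1], by linarith [hτ.2]⟩, Int.fract_nonneg _, (Int.fract_lt_one _).le⟩ (by
        rw [Prod.dist_eq]
        simp only [dist_self]
        rw [max_lt_iff]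
        refine ⟨?_, hδ⟩
        rw [Real.dist_eq, add_sub_cancel_left, abs_of_nonneg hh'.1]
        linarith)
    rw [Real.dist_eq] at this
    exact this.le
  have hQ1 : ∀ lam c : ℝ, Continuous fun τ => Q τ (lam * τ + c) := fun lam c =>
    hQ.comp (continuous_id.prodMk (by fun_prop))
  have hQ2 : ∀ h lam c : ℝ, Continuous fun τ => Q (τ + h) (lam * τ + c) := fun h lam c =>
    hQ.comp ((continuous_id.add continuous_const).prodMk (by fun_prop))
  -- the shift
  have hshift : ∀ lam > 0, ∀ θ : ℝ, ∫ τ in a..b, Q τ (lam * τ) =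
      ∫ τ in (a - θ / lam)..(b - θ / lam), Q (τ + θ / lam) (lam * τ + θ) := by
    intro lam hlam θ
    have h1 : ∀ τ, Q (τ + θ / lam) (lam * τ + θ) = (fun s => Q s (lam * s)) (τ + θ / lam) := by
      intro τ
      beta_reduce
      congr 1
      field_simp
    simp only [h1]
    rw [intervalIntegral.integral_comp_add_right (fun s => Q s (lam * s))]
    simp
  have hswap : ∀ lam : ℝ, ∫ θ in (0 : ℝ)..1, ∫ τ in a..b, Q τ (lam * τ + θ) =
      ∫ τ in a..b, ∫ θ in (0 : ℝ)..1, Q τ θ := by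
    intro lam
    rw [intervalIntegral_intervalIntegral_swap]
    · apply intervalIntegral.integral_congr
      intro τ _
      beta_reduce
      have h1 := intervalIntegral.integral_comp_add_left (Q τ) (lam * τ) (a := 0) (b := 1)
      rw [h1, add_zero]
      have := (hper τ).intervalIntegral_add_eq (lam * τ) 0
      rw [zero_add] at this
      exact this
    · have hc : Continuous (Function.uncurry fun θ τ => Q τ (lam * τ + θ)) :=
        hQ.comp (continuous_snd.prodMk (by fun_prop))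
      exact (hc.continuousOn.integrableOn_compact (isCompact_uIcc.prod isCompact_uIcc)).mono_set
        (prod_mono uIoc_subset_uIcc uIoc_subset_uIcc)
  rw [Metric.tendsto_atTop]
  intro ε hε
  obtain ⟨δ, hδ, hδ1, hmodδ⟩ := hmod (ε / (4 * (b - a + 1))) (by
    have : 0 < b - a + 1 := by linarith
    positivity)
  have hba : 0 < b - a + 1 := by linarith
  refine ⟨max (1 / δ) (8 * (M + 1) / ε), fun lam hlam => ?_⟩
  have hlam1 : 1 / δ ≤ lam := (le_max_left _ _).trans hlam
  have hlam2 : 8 * (M + 1) / ε ≤ lam := (le_max_right _ _).trans hlam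
  have hlam0 : 0 < lam := lt_of_lt_of_le (by positivity) hlam1
  have hinv : 1 / lam ≤ δ := by
    rw [div_le_iff₀ hlam0]
    rw [div_le_iff₀ hδ] at hlam1
    linarith
  have key : ∀ θ ∈ Icc (0 : ℝ) 1, |(∫ τ in a..b, Q τ (lam * τ)) - ∫ τ in a..b, Q τ (lam * τ + θ)| ≤
      ε / 2 := by
    intro θ hθ
    set h := θ / lam with hh
    have hh0 : 0 ≤ h := by have := hθ.1; positivity
    have hhd : h ≤ 1 / lam := by
      rw [hh]
      gcongr
      exact hθ.2
    have hhδ : h ≤ δ := hhd.trans hinv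
    have hh1 : h ≤ 1 := hhδ.trans hδ1
    rw [hshift lam hlam0 θ, ← hh]
    have I : ∀ c d, IntervalIntegrable (fun τ => Q (τ + h) (lam * τ + θ)) volume c d :=
      fun c d => (hQ2 h lam θ).intervalIntegrable _ _
    have I' : ∀ c d, IntervalIntegrable (fun τ => Q τ (lam * τ + θ)) volume c d :=
      fun c d => (hQ1 lam θ).intervalIntegrable _ _
    have e1 : ∫ τ in (a - h)..(b - h), Q (τ + h) (lam * τ + θ) =
        (∫ τ in (a - h)..a, Q (τ + h) (lam * τ + θ)) + (∫ τ in a..b, Q (τ + h) (lam * τ + θ)) -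
          ∫ τ in (b - h)..b, Q (τ + h) (lam * τ + θ) := by
      rw [← intervalIntegral.integral_add_adjacent_intervals (I (a - h) a) (I a (b - h)),
        ← intervalIntegral.integral_add_adjacent_intervals (I a (b - h)) (I (b - h) b)]
      ring
    have b1 : |∫ τ in (a - h)..a, Q (τ + h) (lam * τ + θ)| ≤ M * h := by
      have := intervalIntegral.norm_integral_le_of_norm_le_const (a := a - h) (b := a)
        (f := fun τ => Q (τ + h) (lam * τ + θ)) (C := M) (by
          intro τ hτ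
          rw [uIoc_of_le (by linarith)] at hτ
          exact hM _ ⟨by linarith [hτ.1], by linarith [hτ.2]⟩ _)
      rw [Real.norm_eq_abs] at this
      refine this.trans (le_of_eq ?_)
      rw [sub_sub_cancel, abs_of_nonneg hh0]
    have b2 : |∫ τ in (b - h)..b, Q (τ + h) (lam * τ + θ)| ≤ M * h := by
      have := intervalIntegral.norm_integral_le_of_norm_le_const (a := b - h) (b := b)
        (f := fun τ => Q (τ + h) (lam * τ + θ)) (C := M) (by
          intro τ hτ
          rw [uIoc_of_le (by linarith)] at hτ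
          exact hM _ ⟨by linarith [hτ.1], by linarith [hτ.2]⟩ _)
      rw [Real.norm_eq_abs] at this
      refine this.trans (le_of_eq ?_)
      rw [sub_sub_cancel, abs_of_nonneg hh0]
    have b3 : |(∫ τ in a..b, Q (τ + h) (lam * τ + θ)) - ∫ τ in a..b, Q τ (lam * τ + θ)| ≤
        ε / (4 * (b - a + 1)) * (b - a) := by
      rw [← intervalIntegral.integral_sub (I a b) (I' a b)]
      have := intervalIntegral.norm_integral_le_of_norm_le_const (a := a) (b := b)
        (f := fun τ => Q (τ + h) (lam * τ + θ) - Q τ (lam * τ + θ))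
        (C := ε / (4 * (b - a + 1))) (by
          intro τ hτ
          rw [uIoc_of_le hab] at hτ
          exact hmodδ τ ⟨hτ.1.le, hτ.2⟩ h ⟨hh0, hhδ⟩ _)
      rw [Real.norm_eq_abs, abs_of_nonneg (by linarith : 0 ≤ b - a)] at this
      exact this
    have b4 : ε / (4 * (b - a + 1)) * (b - a) ≤ ε / 4 := by
      rw [div_mul_eq_mul_div, div_le_div_iff₀ (by positivity) (by positivity)]
      nlinarith
    have b5 : M * h ≤ ε / 8 := by
      have h1 : M * h ≤ M * (1 / lam) := mul_le_mul_of_nonneg_left hhd hM0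
      have h2 : M * (1 / lam) ≤ ε / 8 := by
        rw [mul_one_div, div_le_div_iff₀ hlam0 (by positivity)]
        rw [div_le_iff₀ hε] at hlam2
        nlinarith
      linarith
    rw [e1]
    have : (∫ τ in (a - h)..a, Q (τ + h) (lam * τ + θ)) + (∫ τ in a..b, Q (τ + h) (lam * τ + θ)) -
          (∫ τ in (b - h)..b, Q (τ + h) (lam * τ + θ)) - (∫ τ in a..b, Q τ (lam * τ + θ)) =
        (∫ τ in (a - h)..a, Q (τ + h) (lam * τ + θ)) -
          (∫ τ in (b - h)..b, Q (τ + h) (lam * τ + θ)) +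
          ((∫ τ in a..b, Q (τ + h) (lam * τ + θ)) - (∫ τ in a..b, Q τ (lam * τ + θ))) := by ring
    rw [this]
    refine (abs_add_le _ _).trans ?_
    have := abs_sub (∫ τ in (a - h)..a, Q (τ + h) (lam * τ + θ))
      (∫ τ in (b - h)..b, Q (τ + h) (lam * τ + θ))
    linarith
  rw [Real.dist_eq, ← hswap lam]
  have e2 : ∫ τ in a..b, Q τ (lam * τ) = ∫ θ in (0 : ℝ)..1, ∫ τ in a..b, Q τ (lam * τ) := by simp
  have hcont : Continuous fun θ => ∫ τ in a..b, Q τ (lam * τ + θ) := by
    apply intervalIntegral.continuous_parametric_intervalIntegral_of_continuous'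
    exact hQ.comp (continuous_snd.prodMk (by fun_prop))
  rw [e2, ← intervalIntegral.integral_sub (by simp) (hcont.intervalIntegrable _ _)]
  have := intervalIntegral.norm_integral_le_of_norm_le_const (a := 0) (b := 1)
    (f := fun θ => (∫ τ in a..b, Q τ (lam * τ)) - ∫ τ in a..b, Q τ (lam * τ + θ)) (C := ε / 2) (by
      intro θ hθ
      rw [uIoc_of_le zero_le_one] at hθ
      exact key θ ⟨hθ.1.le, hθ.2⟩)
  rw [Real.norm_eq_abs] at this
  simp only [sub_zero, abs_one, mul_one] at this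
  linarith

end Pool.Agent.H51.Maxi
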