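import Pool.Agent.H51.Maxi.Ball

open MeasureTheory Set Filter Topology FourierTransform
open scoped ENNReal Real InnerProductSpace Interval ComplexConjugate

namespace Pool.Agent.H51.Maxi

variable {n : ℕ}

theorem volume_EE_ball_le {r : ℝ} (hr : r ≤ 1) :
    volume (Metric.ball (0 : EE n) r) ≤ volume (Metric.ball (0 : EE n) 1) :=
  measure_mono (Metric.ball_subset_ball hr)

theorem super_nonneg {F : Set (EE n)} {ρ : V n → ℝ} (hF : Star F ρ) (hρ : Measurable ρ)
    (hρ1 : ∀ y, ρ y ≤ 1) {κ : ℝ → ℝ} (hκ : Measurable κ) (h0 : ∀ s, 0 ≤ κ s) {M : ℝ}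
    (hM : ∀ s, κ s ≤ M) :
    Integrable (fun y => ∫ x in Metric.ball (0 : EE n) (ρ y), κ ‖x‖) (PP n) ∧
    ∫ x in F, κ ‖x‖ = ∫ y, (∫ x in Metric.ball (0 : EE n) (ρ y), κ ‖x‖) ∂(PP n) := by
  have hM0 : 0 ≤ M := (h0 0).trans (hM 0)
  have e1 : ∀ s : Set (EE n), ∫ x in s, κ ‖x‖ =
      (∫⁻ x in s, ENNReal.ofReal (κ ‖x‖)).toReal := by
    intro s
    exact integral_eq_lintegral_of_nonneg_ae (Eventually.of_forall fun x => h0 _)
      (hκ.comp measurable_norm).aestronglyMeasurable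
  have hκ' : Measurable fun s => ENNReal.ofReal (κ s) := hκ.ennreal_ofReal
  simp only [e1]
  have hg : ∀ y : V n, ∫⁻ x in Metric.ball (0 : EE n) (ρ y), ENNReal.ofReal (κ ‖x‖) =
      2 * ZZ n * Mo n (fun s => ENNReal.ofReal (κ s)) (ρ y) := fun y => lintegral_ball (ρ y) hκ'
  have hgm : Measurable fun y : V n => ∫⁻ x in Metric.ball (0 : EE n) (ρ y), ENNReal.ofReal (κ ‖x‖) := by
    simp only [hg]
    exact (measurable_Mo.measurable.comp hρ).const_mul _
  have hgb : ∀ y : V n, ∫⁻ x in Metric.ball (0 : EE n) (ρ y), ENNReal.ofReal (κ ‖x‖) ≤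
      ENNReal.ofReal M * volume (Metric.ball (0 : EE n) 1) := by
    intro y
    calc ∫⁻ x in Metric.ball (0 : EE n) (ρ y), ENNReal.ofReal (κ ‖x‖) ≤
          ∫⁻ x in Metric.ball (0 : EE n) (ρ y), ENNReal.ofReal M :=
          lintegral_mono fun x => ENNReal.ofReal_le_ofReal (hM _)
      _ = ENNReal.ofReal M * volume (Metric.ball (0 : EE n) (ρ y)) := by
          rw [setLIntegral_const]
      _ ≤ _ := mul_le_mul_right (volume_EE_ball_le (hρ1 y)) _
  have hfin : ENNReal.ofReal M * volume (Metric.ball (0 : EE n) 1) < ⊤ :=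
    ENNReal.mul_lt_top ENNReal.ofReal_lt_top measure_ball_lt_top
  constructor
  · refine Integrable.of_bound hgm.ennreal_toReal.aestronglyMeasurable
      (ENNReal.ofReal M * volume (Metric.ball (0 : EE n) 1)).toReal
      (Eventually.of_forall fun y => ?_)
    rw [Real.norm_of_nonneg ENNReal.toReal_nonneg]
    exact ENNReal.toReal_mono hfin.ne (hgb y)
  · rw [integral_toReal hgm.aemeasurable
      (Eventually.of_forall fun y => (hgb y).trans_lt hfin)]
    rw [lintegral_super hF hρ hκ']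

theorem super_real {F : Set (EE n)} {ρ : V n → ℝ} (hF : Star F ρ) (hρ : Measurable ρ)
    (hρ1 : ∀ y, ρ y ≤ 1) (hfin : volume F ≠ ⊤) {κ : ℝ → ℝ} (hκ : Measurable κ) {M : ℝ}
    (hM : ∀ s, |κ s| ≤ M) :
    Integrable (fun y => ∫ x in Metric.ball (0 : EE n) (ρ y), κ ‖x‖) (PP n) ∧
    ∫ x in F, κ ‖x‖ = ∫ y, (∫ x in Metric.ball (0 : EE n) (ρ y), κ ‖x‖) ∂(PP n) := by
  have hM0 : 0 ≤ M := (abs_nonneg _).trans (hM 0)
  obtain ⟨i1, e1⟩ := super_nonneg hF hρ hρ1 (κ := fun s => κ s + M) (hκ.add_const _)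
    (fun s => by linarith [(abs_le.1 (hM s)).1]) (M := 2 * M)
    (fun s => by linarith [(abs_le.1 (hM s)).2])
  obtain ⟨i2, e2⟩ := super_nonneg hF hρ hρ1 (κ := fun _ => M) measurable_const
    (fun s => hM0) (M := M) (fun s => le_rfl)
  have hint : ∀ s : Set (EE n), volume s ≠ ⊤ → IntegrableOn (fun x => κ ‖x‖) s := by
    intro s hs
    refine (integrableOn_const (C := M) hs).mono' (hκ.comp measurable_norm).aestronglyMeasurable ?_
    exact Eventually.of_forall fun x => hM _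
  have hsplit : ∀ s : Set (EE n), volume s ≠ ⊤ →
      ∫ x in s, κ ‖x‖ = (∫ x in s, (κ ‖x‖ + M)) - ∫ x in s, M := by
    intro s hs
    have j1 : IntegrableOn (fun x => κ ‖x‖ + M) s := (hint s hs).add (integrableOn_const hs)
    have j2 : IntegrableOn (fun _ : EE n => M) s := integrableOn_const hs
    rw [← integral_sub j1 j2]
    simp
  have h3 : ∀ y : V n, ∫ x in Metric.ball (0 : EE n) (ρ y), κ ‖x‖ =
      (∫ x in Metric.ball (0 : EE n) (ρ y), (κ ‖x‖ + M)) -
        ∫ x in Metric.ball (0 : EE n) (ρ y), M := fun y => hsplit _ measure_ball_lt_top.ne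
  constructor
  · simp only [h3]
    exact i1.sub i2
  · simp only [h3]
    rw [integral_sub i1 i2, ← e1, ← e2]
    exact hsplit F hfin

theorem Star.sym {F : Set (EE n)} {ρ : V n → ℝ} (hF : Star F ρ) (hfin : volume F ≠ ⊤) : Sym F :=
  ⟨hF.meas, hF.symm, hfin⟩

/-- superposition for radial integrable `h` -/
theorem super_h {F : Set (EE n)} {ρ : V n → ℝ} (hF : Star F ρ) (hρ : Measurable ρ)
    (hρ1 : ∀ y, ρ y ≤ 1) (hfin : volume F ≠ ⊤) {h : EE n → ℝ} (hh : Integrable h)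
    (hrad : ∀ ξ ξ', ‖ξ‖ = ‖ξ'‖ → h ξ = h ξ') :
    Integrable (fun y => ∫ ξ, h ξ * ct (Metric.ball (0 : EE n) (ρ y)) ξ) (PP n) ∧
    ∫ ξ, h ξ * ct F ξ = ∫ y, (∫ ξ, h ξ * ct (Metric.ball (0 : EE n) (ρ y)) ξ) ∂(PP n) := by
  have hFs := hF.sym hfin
  obtain ⟨e, he⟩ := exists_norm_eq (EE n) (zero_le_one (α := ℝ))
  set κ : ℝ → ℝ := fun s => cf h (s • e) with hκ
  have hκc : Continuous κ := (continuous_cf hh).comp (by fun_prop)
  have hκe : ∀ x, cf h x = κ ‖x‖ := by
    intro x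
    apply cf_radial hrad
    rw [norm_smul, he, mul_one, norm_norm]
  have hb : ∀ s, |κ s| ≤ ∫ ξ, ‖h ξ‖ := fun s => abs_cf_le hh _
  have h1 : ∀ y : V n, ∫ ξ, h ξ * ct (Metric.ball (0 : EE n) (ρ y)) ξ =
      ∫ x in Metric.ball (0 : EE n) (ρ y), κ ‖x‖ := by
    intro y
    rw [fubini_cf hh (sym_ball _)]
    simp only [hκe]
  simp only [h1]
  rw [fubini_cf hh hFs]
  simp only [hκe]
  exact super_real hF hρ hρ1 hfin hκc.measurable hb

theorem L2_prod_le {E : Type*} [MeasurableSpace E] {μ : Measure E} {f g : E → ℝ}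
    (hf : MemLp f 2 μ) (hg : MemLp g 2 μ) :
    ∫ ξ, |f ξ * g ξ| ∂μ ≤ ((∫ ξ, f ξ ^ 2 ∂μ) + ∫ ξ, g ξ ^ 2 ∂μ) / 2 := by
  rw [← integral_add hf.integrable_sq hg.integrable_sq, ← integral_div]
  apply integral_mono_of_nonneg (Eventually.of_forall fun ξ => abs_nonneg _)
    ((hf.integrable_sq.add hg.integrable_sq).div_const 2)
  refine Eventually.of_forall fun ξ => ?_
  simp only [Pi.add_apply]
  rw [abs_mul]
  nlinarith [sq_nonneg (|f ξ| - |g ξ|), sq_abs (f ξ), sq_abs (g ξ)]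

/-- superposition for radial `L²` functions -/
theorem super_L2 {F : Set (EE n)} {ρ : V n → ℝ} (hF : Star F ρ) (hρ : Measurable ρ)
    (hρ1 : ∀ y, ρ y ≤ 1) (hfin : volume F ≠ ⊤) {h : EE n → ℝ} (hh : Continuous h) (h2 : MemLp h 2)
    (hrad : ∀ ξ ξ', ‖ξ‖ = ‖ξ'‖ → h ξ = h ξ') :
    Integrable (fun y => ∫ ξ, h ξ * ct (Metric.ball (0 : EE n) (ρ y)) ξ) (PP n) ∧
    ∫ ξ, h ξ * ct F ξ = ∫ y, (∫ ξ, h ξ * ct (Metric.ball (0 : EE n) (ρ y)) ξ) ∂(PP n) := by
  have hFs := hF.sym hfin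
  set hM : ℕ → EE n → ℝ := fun N => (Metric.ball (0 : EE n) N).indicator h with hMdef
  have hMi : ∀ N, Integrable (hM N) := by
    intro N
    rw [hMdef, integrable_indicator_iff measurableSet_ball]
    exact (hh.continuousOn.integrableOn_compact (isCompact_closedBall 0 (N : ℝ))).mono_set
      Metric.ball_subset_closedBall
  have hMrad : ∀ N ξ ξ', ‖ξ‖ = ‖ξ'‖ → hM N ξ = hM N ξ' := by
    intro N ξ ξ' hξ
    simp only [hMdef]
    by_cases hx : ξ ∈ Metric.ball (0 : EE n) N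
    · have hx' : ξ' ∈ Metric.ball (0 : EE n) N := by
        rw [mem_ball_zero_iff] at hx ⊢
        rw [← hξ]
        exact hx
      rw [indicator_of_mem hx, indicator_of_mem hx', hrad ξ ξ' hξ]
    · have hx' : ξ' ∉ Metric.ball (0 : EE n) N := by
        rw [mem_ball_zero_iff] at hx ⊢
        rw [← hξ]
        exact hx
      rw [indicator_of_notMem hx, indicator_of_notMem hx']
  have hMle : ∀ N ξ, |hM N ξ| ≤ |h ξ| := by
    intro N ξ
    simp only [hMdef]
    by_cases hx : ξ ∈ Metric.ball (0 : EE n) N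
    · rw [indicator_of_mem hx]
    · rw [indicator_of_notMem hx, abs_zero]
      exact abs_nonneg _
  have hMlim : ∀ ξ, Tendsto (fun N => hM N ξ) atTop (𝓝 (h ξ)) := by
    intro ξ
    obtain ⟨N0, hN0⟩ := exists_nat_gt ‖ξ‖
    apply tendsto_const_nhds.congr'
    filter_upwards [eventually_ge_atTop N0] with N hN
    simp only [hMdef]
    rw [indicator_of_mem]
    rw [mem_ball_zero_iff]
    exact hN0.trans_le (by exact_mod_cast hN)
  -- convergence for each symmetric set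
  have hlim : ∀ {G : Set (EE n)}, Sym G → Tendsto (fun N => ∫ ξ, hM N ξ * ct G ξ) atTop
      (𝓝 (∫ ξ, h ξ * ct G ξ)) := by
    intro G hG
    apply tendsto_integral_of_dominated_convergence (fun ξ => |h ξ * ct G ξ|)
    · intro N
      exact (hMi N).1.mul (continuous_ct hG).aestronglyMeasurable
    · exact (h2.integrable_mul (ct_L2 hG)).abs
    · intro N
      refine Eventually.of_forall fun ξ => ?_
      rw [norm_mul, abs_mul]
      exact mul_le_mul_of_nonneg_right (hMle N ξ) (abs_nonneg _)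
    · exact Eventually.of_forall fun ξ => (hMlim ξ).mul_const _
  have hstep := fun N => super_h hF hρ hρ1 hfin (hMi N) (hMrad N)
  set C : ℝ := ((∫ ξ, h ξ ^ 2) + bE n) / 2 with hC
  have hbound : ∀ N (y : V n), ‖∫ ξ, hM N ξ * ct (Metric.ball (0 : EE n) (ρ y)) ξ‖ ≤ C := by
    intro N y
    refine (norm_integral_le_integral_norm _).trans ?_
    have h3 := L2_prod_le h2 (ct_L2 (sym_ball (n := n) (ρ y)))
    have h4 : ∫ ξ, ct (Metric.ball (0 : EE n) (ρ y)) ξ ^ 2 ≤ bE n := by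
      rw [integral_ct_sq (sym_ball _)]
      exact ENNReal.toReal_mono measure_ball_lt_top.ne (volume_EE_ball_le (hρ1 y))
    have h5 : ∫ ξ, ‖hM N ξ * ct (Metric.ball (0 : EE n) (ρ y)) ξ‖ ≤
        ∫ ξ, |h ξ * ct (Metric.ball (0 : EE n) (ρ y)) ξ| := by
      apply integral_mono_of_nonneg (Eventually.of_forall fun ξ => norm_nonneg _)
        (h2.integrable_mul (ct_L2 (sym_ball _))).abs
      refine Eventually.of_forall fun ξ => ?_
      simp only [Pi.mul_apply]
      rw [norm_mul, abs_mul]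
      exact mul_le_mul_of_nonneg_right (hMle N ξ) (abs_nonneg _)
    linarith
  have hlimy : ∀ y : V n, Tendsto (fun N => ∫ ξ, hM N ξ * ct (Metric.ball (0 : EE n) (ρ y)) ξ) atTop
      (𝓝 (∫ ξ, h ξ * ct (Metric.ball (0 : EE n) (ρ y)) ξ)) := fun y => hlim (sym_ball _)
  have hmeas : AEStronglyMeasurable
      (fun y => ∫ ξ, h ξ * ct (Metric.ball (0 : EE n) (ρ y)) ξ) (PP n) :=
    aestronglyMeasurable_of_tendsto_ae atTop (fun N => (hstep N).1.1)
      (Eventually.of_forall hlimy)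
  constructor
  · refine Integrable.of_bound hmeas C (Eventually.of_forall fun y => ?_)
    exact le_of_tendsto' ((hlimy y).norm) fun N => hbound N y
  · have h6 : Tendsto (fun N => ∫ y, (∫ ξ, hM N ξ * ct (Metric.ball (0 : EE n) (ρ y)) ξ) ∂(PP n))
        atTop (𝓝 (∫ y, (∫ ξ, h ξ * ct (Metric.ball (0 : EE n) (ρ y)) ξ) ∂(PP n))) :=
      tendsto_integral_of_dominated_convergence (fun _ => C) (fun N => (hstep N).1.1)
        (integrable_const C) (fun N => Eventually.of_forall (hbound N)) (Eventually.of_forall hlimy)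
    have h7 := hlim hFs
    simp only [(hstep _).2] at h7
    exact tendsto_nhds_unique h7 h6

/-- the defect functional of a ball of radius `r` -/
noncomputable def Phi (n : ℕ) (q r : ℝ) : ℝ := ∫ ξ : EE n, Psi q (ct (Metric.ball (0 : EE n) 1) ξ)
      (ct (Metric.ball (0 : EE n) r) ξ - ct (Metric.ball (0 : EE n) 1) ξ)

theorem JJ_ball {q r : ℝ} (hr : 0 < r) :
    JJ q (Metric.ball (0 : EE n) r) = (r ^ (n + 1)) ^ (q - 1) * JJ q (Metric.ball (0 : EE n) 1) := by
  have h1 : ∀ ξ : EE n, ct (Metric.ball (0 : EE n) r) ξ =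
      r ^ (n + 1) * ct (Metric.ball (0 : EE n) 1) (r • ξ) := by
    intro ξ
    rw [ct_ball hr, ct_ball one_pos, BG_one, norm_smul, Real.norm_of_nonneg hr.le]
    unfold BG
    have : 2 * ((n : ℝ) / 2) + 1 = ((n + 1 : ℕ) : ℝ) := by
      push_cast
      ring
    rw [this, Real.rpow_natCast]
    ring
  unfold JJ
  simp only [h1]
  have h2 : ∀ ξ : EE n, |r ^ (n + 1) * ct (Metric.ball (0 : EE n) 1) (r • ξ)| ^ q =
      (r ^ (n + 1)) ^ q * (fun ξ => |ct (Metric.ball (0 : EE n) 1) ξ| ^ q) (r • ξ) := by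
    intro ξ
    rw [abs_mul, Real.mul_rpow (abs_nonneg _) (abs_nonneg _), abs_of_pos (by positivity)]
  simp only [h2]
  rw [integral_const_mul, Measure.integral_comp_smul_of_nonneg volume
    (fun ξ : EE n => |ct (Metric.ball (0 : EE n) 1) ξ| ^ q) r (hR := hr.le), finrank_EE,
    smul_eq_mul, ← mul_assoc]
  congr 1
  rw [Real.rpow_sub_one (by positivity)]
  rfl

/-- The exact inequality. -/
theorem exact_ineq {q : ℝ} (hq : 2 ≤ q) {F : Set (EE n)} {ρ : V n → ℝ} (hF : Star F ρ)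
    (hρ : Measurable ρ) (hρ0 : ∀ y, 0 < ρ y) (hρ1 : ∀ y, ρ y ≤ 1) (hfin : volume F ≠ ⊤) :
    JJ q (Metric.ball (0 : EE n) 1) * (volume.real F / bE n) ^ (q - 1) +
      ((∫ ξ : EE n, Psi q (ct (Metric.ball (0 : EE n) 1) ξ)
        (ct F ξ - ct (Metric.ball (0 : EE n) 1) ξ)) - ∫ y, Phi n q (ρ y) ∂(PP n)) ≤ JJ q F ∧
    Integrable (fun y => Phi n q (ρ y)) (PP n) := by
  have hFs := hF.sym hfin
  have hB := sym_ball (n := n) 1
  have hb := bE_pos (n := n)
  have hrad : ∀ ξ ξ' : EE n, ‖ξ‖ = ‖ξ'‖ → Hq q (Metric.ball (0 : EE n) 1) ξ =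
      Hq q (Metric.ball (0 : EE n) 1) ξ' := by
    intro ξ ξ' h
    unfold Hq
    rw [ct_ball one_pos, ct_ball one_pos, h]
  obtain ⟨i1, e1⟩ := super_L2 hF hρ hρ1 hfin (continuous_Hq hq hB) (Hq_L2 hq hB) hrad
  set N : ℝ → ℝ := fun r => ∫ ξ, Hq q (Metric.ball (0 : EE n) 1) ξ *
    ct (Metric.ball (0 : EE n) r) ξ with hN
  have hN1 : N 1 = JJ q (Metric.ball (0 : EE n) 1) := by
    simp only [hN, JJ]
    congr 1
    ext ξ
    rw [abs_rpow_eq hq]
    unfold Hq
    ring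
  have e1' : ∫ ξ, Hq q (Metric.ball (0 : EE n) 1) ξ * ct F ξ = ∫ y, N (ρ y) ∂(PP n) := e1
  have i1' : Integrable (fun y => N (ρ y)) (PP n) := i1
  -- expansion of JJ of balls
  have hball : ∀ y, Phi n q (ρ y) = (ρ y ^ (n + 1)) ^ (q - 1) * JJ q (Metric.ball (0 : EE n) 1) -
      JJ q (Metric.ball (0 : EE n) 1) - q * (N (ρ y) - JJ q (Metric.ball (0 : EE n) 1)) := by
    intro y
    have h := JJ_expand hq (sym_ball (n := n) (ρ y)) hB
    rw [JJ_ball (hρ0 y)] at h
    have hN1' : ∫ ξ, Hq q (Metric.ball (0 : EE n) 1) ξ * ct (Metric.ball (0 : EE n) 1) ξ =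
        JJ q (Metric.ball (0 : EE n) 1) := hN1
    rw [hN1'] at h
    have h2 : Phi n q (ρ y) = ∫ ξ : EE n, Psi q (ct (Metric.ball (0 : EE n) 1) ξ)
      (ct (Metric.ball (0 : EE n) (ρ y)) ξ - ct (Metric.ball (0 : EE n) 1) ξ) := rfl
    have h3 : N (ρ y) = ∫ ξ, Hq q (Metric.ball (0 : EE n) 1) ξ *
      ct (Metric.ball (0 : EE n) (ρ y)) ξ := rfl
    rw [h2, h3]
    linarith
  have hXb : ∀ y, (ρ y ^ (n + 1)) ^ (q - 1) ≤ 1 := by
    intro y
    apply Real.rpow_le_one (pow_nonneg (hρ0 y).le _) (pow_le_one₀ (hρ0 y).le (hρ1 y)) (by linarith)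
  have iX : Integrable (fun y => (ρ y ^ (n + 1)) ^ (q - 1)) (PP n) := by
    refine Integrable.of_bound ?_ 1 (Eventually.of_forall fun y => ?_)
    · exact ((hρ.pow_const _).pow_const _).aestronglyMeasurable
    · rw [Real.norm_of_nonneg (Real.rpow_nonneg (pow_nonneg (hρ0 y).le _) _)]
      exact hXb y
  have iX1 : Integrable (fun y => ρ y ^ (n + 1)) (PP n) := by
    refine Integrable.of_bound (hρ.pow_const _).aestronglyMeasurable 1
      (Eventually.of_forall fun y => ?_)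
    rw [Real.norm_of_nonneg (pow_nonneg (hρ0 y).le _)]
    exact pow_le_one₀ (hρ0 y).le (hρ1 y)
  -- volume
  have hvol : volume.real F / bE n = ∫ y, ρ y ^ (n + 1) ∂(PP n) := by
    have h1 := (super_real hF hρ hρ1 hfin (κ := fun _ => (1 : ℝ)) measurable_const (M := 1)
      (fun s => by simp)).2
    simp only [setIntegral_const, smul_eq_mul, mul_one] at h1
    have h2 : ∀ y : V n, volume.real (Metric.ball (0 : EE n) (ρ y)) = ρ y ^ (n + 1) * bE n :=
      fun y => vol_ball (hρ0 y).le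
    simp only [h2] at h1
    rw [integral_mul_const] at h1
    rw [h1]
    field_simp
  have hphi : Integrable (fun y => Phi n q (ρ y)) (PP n) := by
    simp only [hball]
    exact ((iX.mul_const _).sub (integrable_const _)).sub ((i1'.sub (integrable_const _)).const_mul _)
  refine ⟨?_, hphi⟩
  have hPhiInt : ∫ y, Phi n q (ρ y) ∂(PP n) =
      (∫ y, (ρ y ^ (n + 1)) ^ (q - 1) ∂(PP n)) * JJ q (Metric.ball (0 : EE n) 1) -
        JJ q (Metric.ball (0 : EE n) 1) -
        q * ((∫ y, N (ρ y) ∂(PP n)) - JJ q (Metric.ball (0 : EE n) 1)) := by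
    simp only [hball]
    have j1 : Integrable (fun y => (ρ y ^ (n + 1)) ^ (q - 1) * JJ q (Metric.ball (0 : EE n) 1) -
        JJ q (Metric.ball (0 : EE n) 1)) (PP n) := (iX.mul_const _).sub (integrable_const _)
    have j2 : Integrable (fun y => q * (N (ρ y) - JJ q (Metric.ball (0 : EE n) 1))) (PP n) :=
      (i1'.sub (integrable_const _)).const_mul _
    rw [integral_sub j1 j2, integral_sub (iX.mul_const _)
      (integrable_const _), integral_mul_const, integral_const_mul, integral_sub i1'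
      (integrable_const _)]
    simp
  have hexp := JJ_expand hq hFs hB
  have hN1' : ∫ ξ, Hq q (Metric.ball (0 : EE n) 1) ξ * ct (Metric.ball (0 : EE n) 1) ξ =
        JJ q (Metric.ball (0 : EE n) 1) := hN1
  rw [hN1', e1'] at hexp
  -- Jensen
  set a := ∫ y, ρ y ^ (n + 1) ∂(PP n) with ha
  have ha0 : 0 ≤ a := integral_nonneg fun y => pow_nonneg (hρ0 y).le _
  have hJ0 : 0 ≤ JJ q (Metric.ball (0 : EE n) 1) := integral_nonneg fun ξ => by positivity
  have hjensen : a ^ (q - 1) ≤ ∫ y, (ρ y ^ (n + 1)) ^ (q - 1) ∂(PP n) := by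
    have h1 : ∫ y, (a ^ (q - 1) + (q - 1) * a ^ (q - 1 - 1) * (ρ y ^ (n + 1) - a)) ∂(PP n) ≤
        ∫ y, (ρ y ^ (n + 1)) ^ (q - 1) ∂(PP n) := by
      apply integral_mono ((integrable_const _).add ((iX1.sub (integrable_const _)).const_mul _)) iX
      intro y
      exact tangent (by linarith) ha0 (pow_nonneg (hρ0 y).le _)
    have j1 : Integrable (fun y => (q - 1) * a ^ (q - 1 - 1) * (ρ y ^ (n + 1) - a)) (PP n) :=
      (iX1.sub (integrable_const _)).const_mul _
    rw [integral_add (integrable_const _) j1,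
      integral_const_mul, integral_sub iX1 (integrable_const _), ← ha] at h1
    simpa using h1
  rw [hvol, hexp, hPhiInt]
  have := mul_le_mul_of_nonneg_left hjensen hJ0
  linarith

end Pool.Agent.H51.Maxi
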