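import Pool.Agent.H51.Maxi.Low2
import Pool.Agent.H51.Maxi.A0

open MeasureTheory Set Filter Topology FourierTransform
open scoped ENNReal Real InnerProductSpace Interval ComplexConjugate

namespace Pool.Agent.H51.Maxi

variable {n : ℕ}

/-- strict part of the phase average -/
noncomputable def dfc (q : ℝ) (A B : ℂ) : ℝ :=
  ‖A + B‖ ^ q - ‖A‖ ^ q - q / 2 * (‖A‖ ^ (q - 2) * (‖A + B‖ ^ 2 - ‖A‖ ^ 2))

theorem Theta_eq (q : ℝ) (A B : ℂ) :
    Theta q A B = K q * dfc q A B + K q * (q / 2 * (‖A‖ ^ (q - 2) * ‖B‖ ^ 2)) := by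
  unfold Theta dfc
  have h : ‖A + B‖ ^ 2 = ‖A‖ ^ 2 + 2 * (conj A * B).re + ‖B‖ ^ 2 := by
    rw [norm_add_sq_real, Complex.inner, mul_comm (conj A) B]
  rw [h]
  ring

theorem dfc_nonneg {q : ℝ} (hq : 2 ≤ q) (A B : ℂ) : 0 ≤ dfc q A B := by
  have h := tangent (p := q / 2) (x := ‖A‖ ^ 2) (y := ‖A + B‖ ^ 2) (by linarith) (by positivity)
    (by positivity)
  rw [sq_rpow, sq_rpow, sq_rpow', abs_norm, abs_norm] at h
  unfold dfc
  linarith

theorem dfc_pos {q : ℝ} (hq : 2 < q) {A B : ℂ} (hAB : ‖A + B‖ ≠ ‖A‖) : 0 < dfc q A B := by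
  have h := tangent_lt (p := q / 2) (x := ‖A‖ ^ 2) (y := ‖A + B‖ ^ 2) (by linarith) (by positivity)
    (by positivity) (by
      intro h
      apply hAB
      exact ((pow_left_inj₀ (norm_nonneg _) (norm_nonneg _) two_ne_zero).1 h).symm)
  rw [sq_rpow, sq_rpow, sq_rpow', abs_norm, abs_norm] at h
  unfold dfc
  linarith

theorem contOn_dfc {X : Type*} [TopologicalSpace X] {s : Set X} {q : ℝ} (hq : 2 ≤ q)
    {a b : X → ℂ} (ha : ContinuousOn a s) (hb : ContinuousOn b s) :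
    ContinuousOn (fun x => dfc q (a x) (b x)) s := by
  unfold dfc
  refine (((ha.add hb).norm.rpow_const ?_).sub (ha.norm.rpow_const ?_)).sub (continuousOn_const.mul
      ((ha.norm.rpow_const ?_).mul (((ha.add hb).norm.pow 2).sub (ha.norm.pow 2))))
  · exact fun _ _ => Or.inr (by linarith)
  · exact fun _ _ => Or.inr (by linarith)
  · exact fun _ _ => Or.inr (by linarith)

theorem K_pos {q : ℝ} (hq : 2 ≤ q) : 0 < K q := by
  unfold K
  apply intervalIntegral.integral_pos zero_lt_one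
  · exact ((continuous_osc' 1).abs.rpow_const fun x => Or.inr (by linarith)).continuousOn
  · intro x _
    positivity
  · refine ⟨0, left_mem_Icc.2 zero_le_one, ?_⟩
    apply Real.rpow_pos_of_pos
    unfold osc
    simp

theorem php_zero (ζ : V n) {τ : ℝ} (hτ : 0 < τ) : php 0 ζ τ = -(‖ζ‖ ^ 2 / (2 * τ)) := by
  unfold php
  rw [Sr_zero ζ hτ, two_mul]

theorem norm_gam0 (a0 : ℂ) (ζ : V n) {τ : ℝ} (hτ : 0 < τ) :
    ‖gam0 n a0 ζ τ‖ = vn n * ‖a0‖ * τ ^ (-((n : ℝ) / 2 + 1)) := by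
  unfold gam0 cfac
  have hexp : ‖Complex.exp ((2 * π * (php 0 ζ τ : ℝ)) * Complex.I)‖ = 1 := by
    have := Complex.norm_exp_ofReal_mul_I (2 * π * php 0 ζ τ)
    push_cast at this
    exact this
  have hv := vn_pos (n := n)
  rw [norm_mul, norm_mul, hexp, mul_one, Complex.norm_real, Sr_zero ζ hτ, Real.norm_of_nonneg
    (by positivity)]
  ring

/-- vertical part of the cap transform -/
noncomputable def Mt (τ : ℝ) (y : V n) : ℂ :=
  ∫ z in (‖y‖ ^ 2 / 2)..(‖y‖ ^ 2 / 2 + ww y), Complex.exp ((2 * π * τ * z : ℝ) * Complex.I)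

theorem continuous_Mt (τ : ℝ) : Continuous (Mt τ : V n → ℂ) := by
  have hc : Continuous fun z : ℝ => Complex.exp ((2 * π * τ * z : ℝ) * Complex.I) := by fun_prop
  have hp := intervalIntegral.continuous_primitive (μ := volume)
    (fun a b => hc.intervalIntegrable a b) 0
  have h1 : (Mt τ : V n → ℂ) = fun y =>
      (∫ z in (0 : ℝ)..(‖y‖ ^ 2 / 2 + ww y), Complex.exp ((2 * π * τ * z : ℝ) * Complex.I)) -
        ∫ z in (0 : ℝ)..(‖y‖ ^ 2 / 2), Complex.exp ((2 * π * τ * z : ℝ) * Complex.I) := by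
    ext y
    unfold Mt
    rw [intervalIntegral.integral_interval_sub_left] <;> exact hc.intervalIntegrable _ _
  rw [h1]
  have hw : Continuous (ww : V n → ℝ) := continuous_ww
  exact (hp.comp (by fun_prop : Continuous fun y : V n => ‖y‖ ^ 2 / 2 + ww y)).sub
    (hp.comp (by fun_prop : Continuous fun y : V n => ‖y‖ ^ 2 / 2))

theorem ww_zero {y : V n} (hy : 1 ≤ ‖y‖) : ww y = 0 := by
  unfold ww
  apply max_eq_right
  nlinarith

theorem Mt_supp (τ : ℝ) : HasCompactSupport (Mt τ : V n → ℂ) := by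
  apply HasCompactSupport.intro (isCompact_closedBall (0 : V n) 1)
  intro y hy
  rw [mem_closedBall_zero_iff, not_le] at hy
  unfold Mt
  rw [ww_zero hy.le, add_zero, intervalIntegral.integral_same]

theorem Mt_normsq {τ : ℝ} (hτ : 0 < τ) (y : V n) :
    ‖Mt τ y‖ ^ 2 = (1 - Real.cos (2 * π * τ * ww y)) / (2 * π ^ 2 * τ ^ 2) := by
  unfold Mt
  rw [normsq_exp_int _ _ hτ.ne', add_sub_cancel_left]

theorem mm_eq_fourier (ζ : V n) (τ : ℝ) : mm n 0 ζ τ = 𝓕 (Mt τ : V n → ℂ) ζ := by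
  rw [Real.fourier_eq']
  unfold mm
  rw [← integral_indicator (meas_DD 0)]
  have hint : Integrable ((DD n 0).indicator fun z : V n × ℝ =>
      Complex.exp (((-(2 * π * (⟪z.1, ζ⟫_ℝ - z.2 * τ)) : ℝ) : ℂ) * Complex.I))
      ((volume : Measure (V n)).prod (volume : Measure ℝ)) := by
    rw [← Measure.volume_eq_prod, integrable_indicator_iff (meas_DD 0)]
    exact mm_integrable 0 ζ τ
  rw [Measure.volume_eq_prod, integral_prod _ hint]
  congr 1
  ext y
  have h1 : ∀ t : ℝ, (DD n 0).indicator (fun z : V n × ℝ =>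
      Complex.exp (((-(2 * π * (⟪z.1, ζ⟫_ℝ - z.2 * τ)) : ℝ) : ℂ) * Complex.I)) (y, t) =
      Complex.exp (((-2 * π * ⟪y, ζ⟫_ℝ : ℝ) : ℂ) * Complex.I) *
        (Ioc (‖y‖ ^ 2 / 2) (‖y‖ ^ 2 / 2 + ww y)).indicator
          (fun z : ℝ => Complex.exp ((2 * π * τ * z : ℝ) * Complex.I)) t := by
    intro t
    have hmem : (y, t) ∈ DD n 0 ↔ t ∈ Ioc (‖y‖ ^ 2 / 2) (‖y‖ ^ 2 / 2 + ww y) := by
      have h2 : (y, t) ∈ DD n 0 ↔ t ≤ 1 / 2 ∧ ‖y‖ ^ 2 + 0 ^ 2 * t ^ 2 < 2 * t := Iff.rfl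
      rw [h2, mem_Ioc]
      unfold ww
      constructor
      · rintro ⟨h3, h4⟩
        refine ⟨by linarith, ?_⟩
        have := le_max_left ((1 - ‖y‖ ^ 2) / 2) 0
        linarith
      · rintro ⟨h3, h4⟩
        rcases le_total 0 ((1 - ‖y‖ ^ 2) / 2) with h5 | h5
        · rw [max_eq_left h5] at h4
          exact ⟨by linarith, by linarith⟩
        · rw [max_eq_right h5] at h4
          exfalso
          linarith
    by_cases ht : (y, t) ∈ DD n 0
    · rw [indicator_of_mem ht, indicator_of_mem (hmem.1 ht), ← Complex.exp_add]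
      congr 1
      push_cast
      ring
    · rw [indicator_of_notMem ht, indicator_of_notMem (fun h => ht (hmem.2 h)), mul_zero]
  simp only [h1]
  rw [integral_const_mul, integral_indicator measurableSet_Ioc, smul_eq_mul]
  unfold Mt
  rw [intervalIntegral.integral_of_le (by linarith [ww_nonneg y])]

theorem lint_mm {τ : ℝ} (hτ : 0 < τ) : ∫⁻ ζ : V n, ENNReal.ofReal (‖mm n 0 ζ τ‖ ^ 2) =
    ∫⁻ y : V n, ENNReal.ofReal ((1 - Real.cos (2 * π * τ * ww y)) / (2 * π ^ 2 * τ ^ 2)) := by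
  have h := lintegral_fourier_sq (f := (Mt τ : V n → ℂ))
    ((continuous_Mt τ).integrable_of_hasCompactSupport (Mt_supp τ))
    ((continuous_Mt τ).memLp_of_hasCompactSupport (Mt_supp τ))
  have h1 : ∀ ζ : V n, ENNReal.ofReal (‖mm n 0 ζ τ‖ ^ 2) = ‖𝓕 (Mt τ : V n → ℂ) ζ‖ₑ ^ 2 := by
    intro ζ
    rw [mm_eq_fourier, ENNReal.ofReal_pow (norm_nonneg _), ofReal_norm]
  simp only [h1]
  rw [h]
  apply lintegral_congr
  intro y
  rw [← Mt_normsq hτ, ENNReal.ofReal_pow (norm_nonneg _), ofReal_norm]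

theorem lint_SS {s : ℝ} (hs0 : 0 < s) (hs1 : s < 1) {w : ℝ} (hw : 0 ≤ w) :
    ∫⁻ τ in Ioi (0 : ℝ), ENNReal.ofReal (τ ^ (-2 - s) * (1 - Real.cos (2 * π * τ * w))) =
      ENNReal.ofReal (SS s * w ^ (1 + s)) := by
  have hint : IntegrableOn (fun τ : ℝ => τ ^ (-2 - s) * (1 - Real.cos (2 * π * τ))) (Ioi 0) := by
    refine (dom_integrable hs0 hs1 (2 * π ^ 2)).mono' ?_ ?_
    · apply ContinuousOn.aestronglyMeasurable _ measurableSet_Ioi
      apply ContinuousOn.mul _ (by fun_prop)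
      intro τ hτ
      exact (Real.continuousAt_rpow_const _ _ (Or.inl (ne_of_gt hτ))).continuousWithinAt
    · rw [ae_restrict_iff' measurableSet_Ioi]
      refine Eventually.of_forall fun τ hτ => ?_
      have hτ0 : 0 < τ := hτ
      rw [norm_mul, Real.norm_of_nonneg (Real.rpow_nonneg hτ0.le _), Real.norm_eq_abs]
      exact mul_le_mul_of_nonneg_left (one_sub_cos_le τ) (Real.rpow_nonneg hτ0.le _)
  rcases hw.eq_or_lt with rfl | hw
  · rw [Real.zero_rpow (by linarith), mul_zero, ENNReal.ofReal_zero]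
    simp
  · have h0 : ∀ τ ∈ Ioi (0 : ℝ), ENNReal.ofReal ((w⁻¹ * τ) ^ (-2 - s) *
        (1 - Real.cos (2 * π * (w⁻¹ * τ) * w))) = ENNReal.ofReal (w ^ (2 + s)) *
        ENNReal.ofReal (τ ^ (-2 - s) * (1 - Real.cos (2 * π * τ))) := by
      intro τ hτ
      have hτ0 : 0 < τ := hτ
      rw [← ENNReal.ofReal_mul (by positivity)]
      congr 1
      have e1 : 2 * π * (w⁻¹ * τ) * w = 2 * π * τ := by field_simp
      rw [e1, Real.mul_rpow (by positivity) hτ0.le, Real.inv_rpow hw.le, ← Real.rpow_neg hw.le]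
      have e2 : -(-2 - s) = 2 + s := by ring
      rw [e2]
      ring
    rw [lintegral_scale_Ioi (fun τ => ENNReal.ofReal (τ ^ (-2 - s) *
      (1 - Real.cos (2 * π * τ * w)))) (inv_pos.2 hw)]
    beta_reduce
    rw [setLIntegral_congr_fun measurableSet_Ioi h0,
      lintegral_const_mul' _ _ ENNReal.ofReal_ne_top, ← mul_assoc,
      ← ENNReal.ofReal_mul (by positivity), ← ofReal_integral_eq_lintegral_ofReal hint,
      ← ENNReal.ofReal_mul (by positivity)]
    · congr 1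
      have e3 : w ^ (2 + s) = w ^ (1 + s) * w := by
        rw [← Real.rpow_add_one hw.ne']
        congr 1
        ring
      rw [e3]
      have e4 : ∫ τ in Ioi (0 : ℝ), τ ^ (-2 - s) * (1 - Real.cos (2 * π * τ)) = SS s := rfl
      rw [e4]
      field_simp
    · rw [EventuallyLE, ae_restrict_iff' measurableSet_Ioi]
      refine Eventually.of_forall fun τ hτ => ?_
      exact mul_nonneg (Real.rpow_nonneg (le_of_lt hτ) _) (by linarith [Real.cos_le_one (2 * π * τ)])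

theorem SS_nonneg (s : ℝ) : 0 ≤ SS s := by
  unfold SS
  apply setIntegral_nonneg measurableSet_Ioi
  intro τ hτ
  exact mul_nonneg (Real.rpow_nonneg (le_of_lt hτ) _) (by linarith [Real.cos_le_one (2 * π * τ)])

/-- the limiting lower bound -/
noncomputable def TT (n : ℕ) (q : ℝ) (a0 : ℂ) : ℝ≥0∞ :=
  ∫⁻ ζ : V n, ∫⁻ τ in Ioi (0 : ℝ), ENNReal.ofReal (Theta q (gam0 n a0 ζ τ) (-(mm n 0 ζ τ)))

/-- main constant -/
noncomputable def cM (n : ℕ) (q : ℝ) (a0 : ℂ) : ℝ :=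
  K q * (q / 2) * (vn n * ‖a0‖) ^ (q - 2) / (2 * π ^ 2)

theorem UC_le {q : ℝ} (hq : 2 < q) {a0 : ℂ}
    (ha0 : Tendsto (Bal ((n : ℝ) / 2)) atTop (𝓝 a0)) :
    UC n q a0 ≤ cM n q a0 * SS (((n : ℝ) / 2 + 1) * (q - 2)) := by
  have h := a0_bound ha0
  have hv := vn_pos (n := n)
  have hK := K_pos hq.le
  have hS := SS_nonneg (((n : ℝ) / 2 + 1) * (q - 2))
  unfold UC cM
  have e1 : vn n ^ q = vn n ^ (q - 2) * vn n ^ 2 := by
    rw [← Real.rpow_natCast (vn n) 2, ← Real.rpow_add hv]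
    congr 1
    push_cast
    ring
  have e2 : (vn n * ‖a0‖) ^ (q - 2) = vn n ^ (q - 2) * ‖a0‖ ^ (q - 2) :=
    Real.mul_rpow hv.le (norm_nonneg _)
  have h2 : (vn n * ‖a0‖) ^ 2 ≤ 1 / (4 * π ^ 2) := by
    rw [le_div_iff₀ (by positivity)]
    linarith
  have h3 : 0 ≤ K q * q * (vn n * ‖a0‖) ^ (q - 2) * SS (((n : ℝ) / 2 + 1) * (q - 2)) := by
    have : 0 ≤ vn n * ‖a0‖ := by positivity
    positivity
  calc vn n ^ q * (K q * (q * (‖a0‖ ^ (q - 2) * ‖a0‖ ^ 2)) * SS (((n : ℝ) / 2 + 1) * (q - 2))) =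
      (K q * q * (vn n * ‖a0‖) ^ (q - 2) * SS (((n : ℝ) / 2 + 1) * (q - 2))) *
        (vn n * ‖a0‖) ^ 2 := by
        rw [e1, e2]
        ring
    _ ≤ (K q * q * (vn n * ‖a0‖) ^ (q - 2) * SS (((n : ℝ) / 2 + 1) * (q - 2))) *
        (1 / (4 * π ^ 2)) := mul_le_mul_of_nonneg_left h2 h3
    _ = _ := by
      have := Real.pi_ne_zero
      field_simp
      ring

theorem contOn_gam0' (a0 : ℂ) : ContinuousOn (fun p : V n × ℝ => gam0 n a0 p.1 p.2) {p | 0 < p.2} :=
  cont_gam0 a0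

theorem TT_eq {q : ℝ} (hq : 2 < q) (hq' : ((n : ℝ) / 2 + 1) * (q - 2) < 1) (a0 : ℂ) :
    TT n q a0 = (∫⁻ p in {p : V n × ℝ | 0 < p.2},
        ENNReal.ofReal (K q * dfc q (gam0 n a0 p.1 p.2) (-(mm n 0 p.1 p.2)))) +
      ENNReal.ofReal (cM n q a0 * SS (((n : ℝ) / 2 + 1) * (q - 2)) *
        ∫ y : V n, ww y ^ (1 + ((n : ℝ) / 2 + 1) * (q - 2))) := by
  set s := ((n : ℝ) / 2 + 1) * (q - 2) with hs
  have hs0 : 0 < s := by
    have : 0 < q - 2 := by linarith
    positivity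
  have hK := K_pos hq.le
  have cA := cont_gam0 (n := n) a0
  have cB : ContinuousOn (fun p : V n × ℝ => -(mm n 0 p.1 p.2)) {p | 0 < p.2} :=
    (continuous_mm 0).neg.continuousOn
  have c1 : ContinuousOn (fun p : V n × ℝ => K q * dfc q (gam0 n a0 p.1 p.2) (-(mm n 0 p.1 p.2)))
      {p | 0 < p.2} := continuousOn_const.mul (contOn_dfc hq.le cA cB)
  have c2 : ContinuousOn (fun p : V n × ℝ => K q * (q / 2 * (‖gam0 n a0 p.1 p.2‖ ^ (q - 2) *
      ‖-(mm n 0 p.1 p.2)‖ ^ 2))) {p | 0 < p.2} :=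
    continuousOn_const.mul (continuousOn_const.mul ((cA.norm.rpow_const
      fun _ _ => Or.inr (by linarith)).mul (cB.norm.pow 2)))
  have m1 := (c1.aemeasurable (μ := volume) meas_upper).ennreal_ofReal
  have m2 := (c2.aemeasurable (μ := volume) meas_upper).ennreal_ofReal
  have e1 : TT n q a0 = ∫⁻ p in {p : V n × ℝ | 0 < p.2},
      ENNReal.ofReal (Theta q (gam0 n a0 p.1 p.2) (-(mm n 0 p.1 p.2))) := by
    unfold TT
    rw [restrict_upper, lintegral_prod]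
    rw [← restrict_upper]
    exact ((contOn_Theta hq.le cA cB).aemeasurable meas_upper).ennreal_ofReal
  have e2 : ∀ p : V n × ℝ, ENNReal.ofReal (Theta q (gam0 n a0 p.1 p.2) (-(mm n 0 p.1 p.2))) =
      ENNReal.ofReal (K q * dfc q (gam0 n a0 p.1 p.2) (-(mm n 0 p.1 p.2))) +
      ENNReal.ofReal (K q * (q / 2 * (‖gam0 n a0 p.1 p.2‖ ^ (q - 2) *
        ‖-(mm n 0 p.1 p.2)‖ ^ 2))) := by
    intro p
    rw [Theta_eq, ENNReal.ofReal_add (mul_nonneg hK.le (dfc_nonneg hq.le _ _)) (by positivity)]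
  rw [e1]
  simp only [e2]
  rw [lintegral_add_left' m1]
  congr 1
  -- the main term
  have hc0 : 0 ≤ cM n q a0 := by
    unfold cM
    have := vn_pos (n := n)
    positivity
  have m2' := m2
  rw [restrict_upper] at m2' ⊢
  rw [lintegral_prod_symm _ m2']
  have e3 : ∀ τ ∈ Ioi (0 : ℝ), ∫⁻ ζ : V n, ENNReal.ofReal (K q * (q / 2 *
      (‖gam0 n a0 (ζ, τ).1 (ζ, τ).2‖ ^ (q - 2) * ‖-(mm n 0 (ζ, τ).1 (ζ, τ).2)‖ ^ 2))) =
      ∫⁻ y : V n, ENNReal.ofReal (cM n q a0) * ENNReal.ofReal (τ ^ (-2 - s) *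
        (1 - Real.cos (2 * π * τ * ww y))) := by
    intro τ hτ
    have hτ0 : 0 < τ := hτ
    have hv := vn_pos (n := n)
    have h1 : ∀ ζ : V n, ENNReal.ofReal (K q * (q / 2 *
        (‖gam0 n a0 (ζ, τ).1 (ζ, τ).2‖ ^ (q - 2) * ‖-(mm n 0 (ζ, τ).1 (ζ, τ).2)‖ ^ 2))) =
        ENNReal.ofReal (K q * (q / 2) * (vn n * ‖a0‖) ^ (q - 2) * τ ^ (-s)) *
          ENNReal.ofReal (‖mm n 0 ζ τ‖ ^ 2) := by
      intro ζ
      rw [← ENNReal.ofReal_mul (by positivity)]
      congr 1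
      simp only
      rw [norm_gam0 a0 ζ hτ0, norm_neg, Real.mul_rpow (by positivity) (by positivity),
        ← Real.rpow_mul hτ0.le]
      have : -((n : ℝ) / 2 + 1) * (q - 2) = -s := by rw [hs]; ring
      rw [this]
      ring
    simp only [h1]
    rw [lintegral_const_mul' _ _ ENNReal.ofReal_ne_top, lint_mm hτ0,
      ← lintegral_const_mul' _ _ ENNReal.ofReal_ne_top]
    apply lintegral_congr
    intro y
    rw [← ENNReal.ofReal_mul (by positivity), ← ENNReal.ofReal_mul hc0]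
    congr 1
    unfold cM
    have e4 : τ ^ (-2 - s) = τ ^ (-s) / τ ^ 2 := by
      rw [← Real.rpow_natCast τ 2, ← Real.rpow_sub hτ0]
      congr 1
      push_cast
      ring
    rw [e4]
    have := Real.pi_ne_zero
    field_simp
  rw [setLIntegral_congr_fun measurableSet_Ioi e3, lintegral_lintegral_swap]
  · have e5 : ∀ y : V n, ∫⁻ τ in Ioi (0 : ℝ), ENNReal.ofReal (cM n q a0) *
        ENNReal.ofReal (τ ^ (-2 - s) * (1 - Real.cos (2 * π * τ * ww y))) =
        ENNReal.ofReal (cM n q a0 * SS s) * ENNReal.ofReal (ww y ^ (1 + s)) := by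
      intro y
      rw [lintegral_const_mul' _ _ ENNReal.ofReal_ne_top, lint_SS hs0 hq' (ww_nonneg y),
        ← ENNReal.ofReal_mul hc0, ← ENNReal.ofReal_mul (mul_nonneg hc0 (SS_nonneg s)), mul_assoc]
    simp only [e5]
    rw [lintegral_const_mul' _ _ ENNReal.ofReal_ne_top,
      ← ofReal_integral_eq_lintegral_ofReal (ww_integrable hs0)
        (Eventually.of_forall fun y => Real.rpow_nonneg (ww_nonneg y) _),
      ← ENNReal.ofReal_mul (mul_nonneg hc0 (SS_nonneg s))]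
  · apply AEMeasurable.const_mul
    apply AEMeasurable.ennreal_ofReal
    have hw : Continuous (ww : V n → ℝ) := continuous_ww
    have h1 : Measurable fun z : ℝ × V n => z.1 ^ (-2 - s) * (1 - Real.cos (2 * π * z.1 * ww z.2)) := by
      apply Measurable.mul
      · exact measurable_fst.pow_const _
      · exact (by fun_prop : Continuous fun z : ℝ × V n =>
          1 - Real.cos (2 * π * z.1 * ww z.2)).measurable
    exact h1.aemeasurable

end Pool.Agent.H51.Maxi
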