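import Pool.Agent.H51.Maxi.Equi

open MeasureTheory Set Filter Topology
open scoped ENNReal Real ComplexConjugate Interval

namespace Pool.Agent.H51.Maxi

theorem Theta_nonneg {q : ℝ} (hq : 2 ≤ q) (A B : ℂ) : 0 ≤ Theta q A B := by
  rw [← avg_Psi hq]
  exact intervalIntegral.integral_nonneg zero_le_one fun θ _ => Psi_nonneg hq _ _

theorem continuous_Theta {q : ℝ} (hq : 2 ≤ q) : Continuous fun p : ℂ × ℂ => Theta q p.1 p.2 := by
  unfold Theta
  have h1 : ∀ p : ℂ × ℂ, ‖p.1 + p.2‖ ≠ 0 ∨ 0 ≤ q := fun _ => Or.inr (by linarith)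
  have h2 : ∀ p : ℂ × ℂ, ‖p.1‖ ≠ 0 ∨ 0 ≤ q := fun _ => Or.inr (by linarith)
  have h3 : ∀ p : ℂ × ℂ, ‖p.1‖ ≠ 0 ∨ 0 ≤ q - 2 := fun _ => Or.inr (by linarith)
  refine continuous_const.mul (((continuous_fst.add continuous_snd).norm.rpow_const h1).sub
    (continuous_fst.norm.rpow_const h2) |>.sub (continuous_const.mul
      ((continuous_fst.norm.rpow_const h3).mul ?_)))
  exact Complex.continuous_re.comp ((Complex.continuous_conj.comp continuous_fst).mul continuous_snd)

theorem contOn_Theta {X : Type*} [TopologicalSpace X] {s : Set X} {q : ℝ} (hq : 2 ≤ q)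
    {a b : X → ℂ} (ha : ContinuousOn a s) (hb : ContinuousOn b s) :
    ContinuousOn (fun x => Theta q (a x) (b x)) s := by
  unfold Theta
  refine continuousOn_const.mul (((ha.add hb).norm.rpow_const ?_).sub
    (ha.norm.rpow_const ?_) |>.sub (continuousOn_const.mul
      ((ha.norm.rpow_const ?_).mul ?_)))
  · exact fun _ _ => Or.inr (by linarith)
  · exact fun _ _ => Or.inr (by linarith)
  · exact fun _ _ => Or.inr (by linarith)
  · exact Complex.continuous_re.comp_continuousOn
      ((Complex.continuous_conj.comp_continuousOn ha).mul hb)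

theorem equi_Psi {ι : Type*} {l : Filter ι} {q : ℝ} (hq : 2 ≤ q) {a b : ℝ} (hab : a ≤ b)
    {lam : ι → ℝ} (hlam : Tendsto lam l atTop)
    {w : ℝ → ℝ} (hw : ContinuousOn w (Icc a b)) {A B : ℝ → ℂ} {Ak Bk : ι → ℝ → ℂ}
    (hA : ContinuousOn A (Icc a b)) (hB : ContinuousOn B (Icc a b))
    (hAk : ∀ᶠ k in l, ContinuousOn (Ak k) (Icc a b)) (hBk : ∀ᶠ k in l, ContinuousOn (Bk k) (Icc a b))
    (hAu : TendstoUniformlyOn Ak A l (Icc a b)) (hBu : TendstoUniformlyOn Bk B l (Icc a b)) :
    Tendsto (fun k => ∫ τ in a..b, w τ * Psi q (osc (Ak k τ) (lam k * τ)) (osc (Bk k τ) (lam k * τ)))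
      l (𝓝 (∫ τ in a..b, w τ * Theta q (A τ) (B τ))) := by
  -- the limit functions
  have step1 : Tendsto (fun k => ∫ τ in a..b, w τ * Psi q (osc (A τ) (lam k * τ))
      (osc (B τ) (lam k * τ))) l (𝓝 (∫ τ in a..b, w τ * Theta q (A τ) (B τ))) := by
    set w' := IccExtend hab ((Icc a b).restrict w) with hw'
    set A' := IccExtend hab ((Icc a b).restrict A) with hA'
    set B' := IccExtend hab ((Icc a b).restrict B) with hB'
    have cw : Continuous w' := hw.restrict.Icc_extend'
    have cA : Continuous A' := hA.restrict.Icc_extend'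
    have cB : Continuous B' := hB.restrict.Icc_extend'
    have ew : ∀ τ ∈ Icc a b, w' τ = w τ := fun τ hτ => IccExtend_of_mem hab _ hτ
    have eA : ∀ τ ∈ Icc a b, A' τ = A τ := fun τ hτ => IccExtend_of_mem hab _ hτ
    have eB : ∀ τ ∈ Icc a b, B' τ = B τ := fun τ hτ => IccExtend_of_mem hab _ hτ
    have h := equi hab (fun τ θ => w' τ * Psi q (osc (A' τ) θ) (osc (B' τ) θ)) (by
      have c1 : Continuous fun p : ℝ × ℝ => osc (A' p.1) p.2 :=
        cont_osc (cA.comp continuous_fst) continuous_snd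
      have c2 : Continuous fun p : ℝ × ℝ => osc (B' p.1) p.2 :=
        cont_osc (cB.comp continuous_fst) continuous_snd
      exact (cw.comp continuous_fst).mul (cont_Psi hq c1 c2)) (by
      intro τ θ
      beta_reduce
      rw [osc_periodic, osc_periodic])
    have h2 := h.comp hlam
    have e1 : ∫ τ in a..b, ∫ θ in (0 : ℝ)..1, w' τ * Psi q (osc (A' τ) θ) (osc (B' τ) θ) =
        ∫ τ in a..b, w τ * Theta q (A τ) (B τ) := by
      apply intervalIntegral.integral_congr
      intro τ hτ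
      rw [uIcc_of_le hab] at hτ
      beta_reduce
      rw [intervalIntegral.integral_const_mul, avg_Psi hq, ew τ hτ, eA τ hτ, eB τ hτ]
    rw [e1] at h2
    refine h2.congr fun k => ?_
    simp only [Function.comp_apply]
    apply intervalIntegral.integral_congr
    intro τ hτ
    rw [uIcc_of_le hab] at hτ
    beta_reduce
    rw [ew τ hτ, eA τ hτ, eB τ hτ]
  -- the difference
  have step2 : Tendsto (fun k => (∫ τ in a..b, w τ * Psi q (osc (Ak k τ) (lam k * τ))
      (osc (Bk k τ) (lam k * τ))) - ∫ τ in a..b, w τ * Psi q (osc (A τ) (lam k * τ))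
      (osc (B τ) (lam k * τ))) l (𝓝 0) := by
    obtain ⟨M1, hM1⟩ := isCompact_Icc.exists_bound_of_continuousOn hA
    obtain ⟨M2, hM2⟩ := isCompact_Icc.exists_bound_of_continuousOn hB
    obtain ⟨M3, hM3⟩ := isCompact_Icc.exists_bound_of_continuousOn hw
    set M := max (max M1 M2) (max M3 0) with hM
    have hM0 : 0 ≤ M := (le_max_right _ _).trans (le_max_right _ _)
    have hMA : ∀ τ ∈ Icc a b, ‖A τ‖ ≤ M := fun τ hτ =>
      (hM1 τ hτ).trans ((le_max_left _ _).trans (le_max_left _ _))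
    have hMB : ∀ τ ∈ Icc a b, ‖B τ‖ ≤ M := fun τ hτ =>
      (hM2 τ hτ).trans ((le_max_right _ _).trans (le_max_left _ _))
    have hMw : ∀ τ ∈ Icc a b, ‖w τ‖ ≤ M := fun τ hτ =>
      (hM3 τ hτ).trans ((le_max_left _ _).trans (le_max_right _ _))
    have huc := (isCompact_closedBall (0 : ℝ × ℝ) (2 * M + 2)).uniformContinuousOn_of_continuous
      (continuous_Psi hq).continuousOn
    rw [Metric.uniformContinuousOn_iff] at huc
    rw [Metric.tendsto_nhds]
    intro ε hε
    obtain ⟨δ, hδ, hδ'⟩ := huc (ε / (2 * (M + 1) * (b - a + 1))) (by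
      have : 0 < b - a + 1 := by linarith
      positivity)
    have hba : 0 < b - a + 1 := by linarith
    rw [Metric.tendstoUniformlyOn_iff] at hAu hBu
    have hδ1 : 0 < min (δ / 2) 1 / 2 := by positivity
    filter_upwards [hAu _ hδ1, hBu _ hδ1, hAk, hBk] with k h1 h2 h3 h4
    have cosc : ∀ (C : ℝ → ℂ), ContinuousOn C (Icc a b) →
        ContinuousOn (fun τ => osc (C τ) (lam k * τ)) (Icc a b) := fun C hC =>
      contOn_osc hC (by fun_prop)
    have cint : ∀ (C D : ℝ → ℂ), ContinuousOn C (Icc a b) → ContinuousOn D (Icc a b) →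
        IntervalIntegrable (fun τ => w τ * Psi q (osc (C τ) (lam k * τ)) (osc (D τ) (lam k * τ)))
          volume a b := by
      intro C D hC hD
      apply ContinuousOn.intervalIntegrable
      rw [uIcc_of_le hab]
      exact hw.mul (contOn_Psi hq (cosc C hC) (cosc D hD))
    rw [← intervalIntegral.integral_sub (cint _ _ h3 h4) (cint _ _ hA hB), dist_zero_right]
    have := intervalIntegral.norm_integral_le_of_norm_le_const (a := a) (b := b)
      (f := fun τ => w τ * Psi q (osc (Ak k τ) (lam k * τ)) (osc (Bk k τ) (lam k * τ)) -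
        w τ * Psi q (osc (A τ) (lam k * τ)) (osc (B τ) (lam k * τ)))
      (C := M * (ε / (2 * (M + 1) * (b - a + 1)))) (by
        intro τ hτ
        rw [uIoc_of_le hab] at hτ
        have hτ' : τ ∈ Icc a b := ⟨hτ.1.le, hτ.2⟩
        rw [← mul_sub, norm_mul]
        refine mul_le_mul (hMw τ hτ') ?_ (norm_nonneg _) hM0
        have a1 := h1 τ hτ'
        have a2 := h2 τ hτ'
        rw [dist_eq_norm] at a1 a2
        have d1 : |osc (Ak k τ) (lam k * τ) - osc (A τ) (lam k * τ)| < min (δ / 2) 1 := by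
          rw [← osc_sub]
          refine (abs_osc_le _ _).trans_lt ?_
          rw [norm_sub_rev]
          linarith
        have d2 : |osc (Bk k τ) (lam k * τ) - osc (B τ) (lam k * τ)| < min (δ / 2) 1 := by
          rw [← osc_sub]
          refine (abs_osc_le _ _).trans_lt ?_
          rw [norm_sub_rev]
          linarith
        have e1 : |osc (A τ) (lam k * τ)| ≤ 2 * M := (abs_osc_le _ _).trans (by linarith [hMA τ hτ'])
        have e2 : |osc (B τ) (lam k * τ)| ≤ 2 * M := (abs_osc_le _ _).trans (by linarith [hMB τ hτ'])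
        have f1 : |osc (Ak k τ) (lam k * τ)| ≤ 2 * M + 2 := by
          have := abs_sub_abs_le_abs_sub (osc (Ak k τ) (lam k * τ)) (osc (A τ) (lam k * τ))
          have := min_le_right (δ / 2) 1
          linarith
        have f2 : |osc (Bk k τ) (lam k * τ)| ≤ 2 * M + 2 := by
          have := abs_sub_abs_le_abs_sub (osc (Bk k τ) (lam k * τ)) (osc (B τ) (lam k * τ))
          have := min_le_right (δ / 2) 1
          linarith
        have := hδ' (osc (Ak k τ) (lam k * τ), osc (Bk k τ) (lam k * τ)) (by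
          rw [mem_closedBall_zero_iff, Prod.norm_def]
          exact max_le f1 f2) (osc (A τ) (lam k * τ), osc (B τ) (lam k * τ)) (by
          rw [mem_closedBall_zero_iff, Prod.norm_def]
          exact max_le (e1.trans (by linarith)) (e2.trans (by linarith))) (by
          rw [Prod.dist_eq, max_lt_iff, Real.dist_eq, Real.dist_eq]
          have := min_le_left (δ / 2) 1
          exact ⟨by linarith, by linarith⟩)
        rw [Real.dist_eq] at this
        exact this.le)
    rw [abs_of_nonneg (by linarith : 0 ≤ b - a)] at this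
    refine this.trans_lt ?_
    have h5 : M * (ε / (2 * (M + 1) * (b - a + 1))) * (b - a) ≤ ε / 2 := by
      rw [mul_div_assoc', div_mul_eq_mul_div, div_le_div_iff₀ (by positivity) (by positivity)]
      have : M * (b - a) ≤ (M + 1) * (b - a + 1) := by nlinarith
      nlinarith
    linarith
  have := step2.add step1
  simp only [sub_add_cancel, zero_add] at this
  exact this

theorem setLIntegral_Ioi_le {f : ℝ → ℝ≥0∞} {c : ℝ≥0∞}
    (h : ∀ j : ℕ, ∫⁻ τ in Ioc (1 / ((j : ℝ) + 1)) ((j : ℝ) + 1), f τ ≤ c) :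
    ∫⁻ τ in Ioi (0 : ℝ), f τ ≤ c := by
  have hU : (⋃ j : ℕ, Ioc (1 / ((j : ℝ) + 1)) ((j : ℝ) + 1)) = Ioi (0 : ℝ) := by
    ext x
    simp only [mem_iUnion, mem_Ioc, mem_Ioi]
    constructor
    · rintro ⟨j, h1, _⟩
      exact lt_of_lt_of_le (by positivity) h1.le
    · intro hx
      obtain ⟨j, hj⟩ := exists_nat_gt (max x (1 / x))
      refine ⟨j, ?_, ?_⟩
      · rw [div_lt_iff₀ (by positivity)]
        have := (le_max_right x (1 / x)).trans hj.le
        rw [div_le_iff₀ hx] at this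
        nlinarith
      · have := (le_max_left x (1 / x)).trans hj.le
        linarith
  have hmono : Monotone fun j : ℕ => Ioc (1 / ((j : ℝ) + 1)) ((j : ℝ) + 1) := by
    intro i j hij
    have : (i : ℝ) ≤ j := by exact_mod_cast hij
    apply Ioc_subset_Ioc
    · apply one_div_le_one_div_of_le <;> linarith [(Nat.cast_nonneg i : (0 : ℝ) ≤ i)]
    · linarith
  rw [← hU, setLIntegral_iUnion_of_directed _ hmono.directed_le]
  exact iSup_le h

theorem liminf_Psi {ι : Type*} {l : Filter ι} [l.NeBot] {q : ℝ} (hq : 2 ≤ q)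
    {lam : ι → ℝ} (hlam : Tendsto lam l atTop)
    {w : ℝ → ℝ} (hw0 : ∀ τ > 0, 0 ≤ w τ) (hw : ContinuousOn w (Ioi 0))
    {A B : ℝ → ℂ} {Ak Bk : ι → ℝ → ℂ}
    (hA : ContinuousOn A (Ioi 0)) (hB : ContinuousOn B (Ioi 0))
    (hAk : ∀ᶠ k in l, ContinuousOn (Ak k) (Ioi 0)) (hBk : ∀ᶠ k in l, ContinuousOn (Bk k) (Ioi 0))
    (hAu : ∀ a b, 0 < a → TendstoUniformlyOn Ak A l (Icc a b))
    (hBu : ∀ a b, 0 < a → TendstoUniformlyOn Bk B l (Icc a b)) :
    ∫⁻ τ in Ioi (0 : ℝ), ENNReal.ofReal (w τ * Theta q (A τ) (B τ)) ≤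
      liminf (fun k => ∫⁻ τ in Ioi (0 : ℝ), ENNReal.ofReal (w τ *
        Psi q (osc (Ak k τ) (lam k * τ)) (osc (Bk k τ) (lam k * τ)))) l := by
  apply setLIntegral_Ioi_le
  intro j
  set a := 1 / ((j : ℝ) + 1) with ha
  set b := (j : ℝ) + 1 with hb
  have ha0 : 0 < a := by positivity
  have hab : a ≤ b := by
    have h1 : (1 : ℝ) ≤ b := by rw [hb]; linarith [(Nat.cast_nonneg j : (0 : ℝ) ≤ j)]
    have h2 : a ≤ 1 := by rw [ha, div_le_one (by positivity)]; exact h1
    linarith
  have hsub : Icc a b ⊆ Ioi 0 := fun x hx => lt_of_lt_of_le ha0 hx.1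
  have ht := equi_Psi hq hab hlam (hw.mono hsub) (hA.mono hsub) (hB.mono hsub)
    (hAk.mono fun k hk => hk.mono hsub) (hBk.mono fun k hk => hk.mono hsub)
    (hAu a b ha0) (hBu a b ha0)
  have hsub' : Ioc a b ⊆ Ioi 0 := fun x hx => lt_trans ha0 hx.1
  have e1 : ∫⁻ τ in Ioc a b, ENNReal.ofReal (w τ * Theta q (A τ) (B τ)) =
      ENNReal.ofReal (∫ τ in a..b, w τ * Theta q (A τ) (B τ)) := by
    rw [intervalIntegral.integral_of_le hab, ofReal_integral_eq_lintegral_ofReal]
    · have : ContinuousOn (fun τ => w τ * Theta q (A τ) (B τ)) (Icc a b) :=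
        (hw.mono hsub).mul (contOn_Theta hq (hA.mono hsub) (hB.mono hsub))
      exact (this.integrableOn_Icc).mono_set Ioc_subset_Icc_self
    · rw [EventuallyLE, ae_restrict_iff' measurableSet_Ioc]
      exact Eventually.of_forall fun τ hτ =>
        mul_nonneg (hw0 τ (hsub' hτ)) (Theta_nonneg hq _ _)
  rw [e1]
  have ht2 := (ENNReal.continuous_ofReal.tendsto _).comp ht
  rw [← ht2.liminf_eq]
  refine liminf_le_liminf ?_ ?_ ?_
  rotate_left
  · isBoundedDefault
  · isBoundedDefault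
  filter_upwards [hAk, hBk] with k h3 h4
  simp only [Function.comp_apply]
  rw [intervalIntegral.integral_of_le hab, ofReal_integral_eq_lintegral_ofReal]
  · exact lintegral_mono_set hsub'
  · have cosc : ∀ (C : ℝ → ℂ), ContinuousOn C (Icc a b) →
        ContinuousOn (fun τ => osc (C τ) (lam k * τ)) (Icc a b) := fun C hC =>
      contOn_osc hC (by fun_prop)
    have : ContinuousOn (fun τ => w τ * Psi q (osc (Ak k τ) (lam k * τ)) (osc (Bk k τ) (lam k * τ)))
        (Icc a b) := (hw.mono hsub).mul (contOn_Psi hq (cosc _ (h3.mono hsub))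
          (cosc _ (h4.mono hsub)))
    exact (this.integrableOn_Icc).mono_set Ioc_subset_Icc_self
  · rw [EventuallyLE, ae_restrict_iff' measurableSet_Ioc]
    exact Eventually.of_forall fun τ hτ =>
      mul_nonneg (hw0 τ (hsub' hτ)) (Psi_nonneg hq _ _)

theorem tendsto_of_dominated_local {ι : Type*} {l : Filter ι} {f : ι → ℝ → ℝ} {F D : ℝ → ℝ}
    (hD : IntegrableOn D (Ioi 0))
    (hf : ∀ᶠ k in l, AEStronglyMeasurable (f k) (volume.restrict (Ioi 0)) ∧ ∀ τ > 0, |f k τ| ≤ D τ)
    (hFm : AEStronglyMeasurable F (volume.restrict (Ioi 0))) (hF : ∀ τ > 0, |F τ| ≤ D τ)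
    (hloc : ∀ a b, 0 < a → a ≤ b →
      Tendsto (fun k => ∫ τ in a..b, f k τ) l (𝓝 (∫ τ in a..b, F τ))) :
    Tendsto (fun k => ∫ τ in Ioi (0 : ℝ), f k τ) l (𝓝 (∫ τ in Ioi (0 : ℝ), F τ)) := by
  set s : ℕ → Set ℝ := fun j => Ioc (1 / ((j : ℝ) + 1)) ((j : ℝ) + 1) with hs
  have hU : (⋃ j : ℕ, s j) = Ioi (0 : ℝ) := by
    ext x
    simp only [hs, mem_iUnion, mem_Ioc, mem_Ioi]
    constructor
    · rintro ⟨j, h1, _⟩
      exact lt_of_lt_of_le (by positivity) h1.le
    · intro hx
      obtain ⟨j, hj⟩ := exists_nat_gt (max x (1 / x))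
      refine ⟨j, ?_, ?_⟩
      · rw [div_lt_iff₀ (by positivity)]
        have := (le_max_right x (1 / x)).trans hj.le
        rw [div_le_iff₀ hx] at this
        nlinarith
      · have := (le_max_left x (1 / x)).trans hj.le
        linarith
  have hmono : Monotone s := by
    intro i j hij
    have : (i : ℝ) ≤ j := by exact_mod_cast hij
    apply Ioc_subset_Ioc
    · apply one_div_le_one_div_of_le <;> linarith [(Nat.cast_nonneg i : (0 : ℝ) ≤ i)]
    · linarith
  have hlim := tendsto_setIntegral_of_monotone (fun j => measurableSet_Ioc) hmono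
    (f := D) (μ := volume) (by rw [hU]; exact hD)
  rw [hU] at hlim
  have hsub : ∀ j, s j ⊆ Ioi 0 := fun j => by rw [← hU]; exact subset_iUnion s j
  have hdiff : ∀ (g : ℝ → ℝ), AEStronglyMeasurable g (volume.restrict (Ioi 0)) →
      (∀ τ > 0, |g τ| ≤ D τ) → ∀ j, |(∫ τ in Ioi (0 : ℝ), g τ) - ∫ τ in s j, g τ| ≤
        (∫ τ in Ioi (0 : ℝ), D τ) - ∫ τ in s j, D τ := by
    intro g hgm hg j
    have hgi : IntegrableOn g (Ioi 0) := by
      refine hD.mono' hgm ?_
      rw [ae_restrict_iff' measurableSet_Ioi]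
      exact Eventually.of_forall fun τ hτ => hg τ hτ
    have e1 := integral_diff (μ := volume) (f := g) (s := Ioi 0) (t := s j) measurableSet_Ioc hgi
      (hsub j)
    have e2 := integral_diff (μ := volume) (f := D) (s := Ioi 0) (t := s j) measurableSet_Ioc hD
      (hsub j)
    rw [← e1, ← e2, ← Real.norm_eq_abs]
    refine norm_integral_le_of_norm_le (hD.mono_set diff_subset) ?_
    rw [ae_restrict_iff' (measurableSet_Ioi.diff measurableSet_Ioc)]
    exact Eventually.of_forall fun τ hτ => hg τ hτ.1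
  rw [Metric.tendsto_nhds]
  intro ε hε
  rw [Metric.tendsto_atTop] at hlim
  obtain ⟨j, hj⟩ := hlim (ε / 3) (by positivity)
  have hj' := hj j le_rfl
  rw [Real.dist_eq, abs_lt] at hj'
  have ha0 : (0 : ℝ) < 1 / ((j : ℝ) + 1) := by positivity
  have hab : 1 / ((j : ℝ) + 1) ≤ (j : ℝ) + 1 := by
    have h1 : (1 : ℝ) ≤ (j : ℝ) + 1 := by linarith [(Nat.cast_nonneg j : (0 : ℝ) ≤ j)]
    have h2 : 1 / ((j : ℝ) + 1) ≤ 1 := by rw [div_le_one (by positivity)]; exact h1
    linarith
  have hl := hloc _ _ ha0 hab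
  rw [Metric.tendsto_nhds] at hl
  filter_upwards [hf, hl (ε / 3) (by positivity)] with k hk1 hk2
  rw [intervalIntegral.integral_of_le hab, intervalIntegral.integral_of_le hab, Real.dist_eq] at hk2
  have d1 := hdiff (f k) hk1.1 hk1.2 j
  have d2 := hdiff F hFm hF j
  rw [Real.dist_eq]
  have hk2' : |(∫ τ in s j, f k τ) - ∫ τ in s j, F τ| < ε / 3 := hk2
  rw [abs_le] at d1 d2
  rw [abs_lt] at hk2' ⊢
  constructor <;> linarith [d1.1, d1.2, d2.1, d2.2, hk2'.1, hk2'.2, hj'.1, hj'.2]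

end Pool.Agent.H51.Maxi
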