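import Pool.Agent.H51.Maxi.Lower

open MeasureTheory Set Filter Topology FourierTransform
open scoped ENNReal Real InnerProductSpace Interval ComplexConjugate

namespace Pool.Agent.H51.Maxi

variable {n : ℕ}

theorem unif_of_cont {f : ℝ → ℝ → ℂ} {a b : ℝ}
    (hf : ContinuousOn f.uncurry (Ici 0 ×ˢ Icc a b)) :
    TendstoUniformlyOn f (f 0) (𝓝[>] (0 : ℝ)) (Icc a b) := by
  intro u hu
  obtain ⟨v, hv, hv2⟩ := isCompact_Icc.mem_uniformity_of_prod hf (q := 0) self_mem_Ici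
    (symm_le_uniformity hu)
  have h1 : v ∈ 𝓝[>] (0 : ℝ) := nhdsWithin_mono _ Ioi_subset_Ici_self hv
  filter_upwards [h1] with r hr τ hτ
  exact hv2 r hr τ hτ

theorem unif_mul {f g : ℝ → ℝ → ℂ} {F G : ℝ → ℂ} {a b : ℝ} {l : Filter ℝ}
    (hf : TendstoUniformlyOn f F l (Icc a b)) (hg : TendstoUniformlyOn g G l (Icc a b))
    (hF : ContinuousOn F (Icc a b)) (hG : ContinuousOn G (Icc a b)) :
    TendstoUniformlyOn (fun r τ => f r τ * g r τ) (fun τ => F τ * G τ) l (Icc a b) := by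
  rw [← tendstoLocallyUniformlyOn_iff_tendstoUniformlyOn_of_compact isCompact_Icc] at hf hg ⊢
  exact hf.mul₀ hg hF hG

/-- the radial variable -/
noncomputable def Sr (r : ℝ) (ζ : V n) (τ : ℝ) : ℝ := √(τ ^ 2 + r ^ 2 * ‖ζ‖ ^ 2)

theorem Sr_sq (r : ℝ) (ζ : V n) (τ : ℝ) : Sr r ζ τ ^ 2 = τ ^ 2 + r ^ 2 * ‖ζ‖ ^ 2 :=
  Real.sq_sqrt (by positivity)

theorem Sr_ge (r : ℝ) (ζ : V n) {τ : ℝ} (hτ : 0 < τ) : τ ≤ Sr r ζ τ := by
  apply Real.le_sqrt_of_sq_le
  have : 0 ≤ r ^ 2 * ‖ζ‖ ^ 2 := by positivity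
  linarith

theorem Sr_pos (r : ℝ) (ζ : V n) {τ : ℝ} (hτ : 0 < τ) : 0 < Sr r ζ τ :=
  lt_of_lt_of_le hτ (Sr_ge r ζ hτ)

theorem Sr_zero (ζ : V n) {τ : ℝ} (hτ : 0 < τ) : Sr 0 ζ τ = τ := by
  unfold Sr
  have : τ ^ 2 + 0 ^ 2 * ‖ζ‖ ^ 2 = τ ^ 2 := by ring
  rw [this, Real.sqrt_sq hτ.le]

theorem norm_pr_scaled {r : ℝ} (hr : 0 < r) (ζ : V n) (τ : ℝ) :
    ‖pr (r⁻¹ • ζ) ((r ^ 2)⁻¹ * τ)‖ = Sr r ζ τ / r ^ 2 := by
  rw [norm_pr, norm_smul, Real.norm_of_nonneg (by positivity)]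
  have h1 : (r⁻¹ * ‖ζ‖) ^ 2 + ((r ^ 2)⁻¹ * τ) ^ 2 = (τ ^ 2 + r ^ 2 * ‖ζ‖ ^ 2) / (r ^ 2) ^ 2 := by
    field_simp
    ring
  rw [h1, Real.sqrt_div (by positivity), Real.sqrt_sq (by positivity)]
  rfl

/-- phase correction -/
noncomputable def php (r : ℝ) (ζ : V n) (τ : ℝ) : ℝ := -(‖ζ‖ ^ 2 / (Sr r ζ τ + τ))

theorem Sr_div {r : ℝ} (hr : 0 < r) (ζ : V n) {τ : ℝ} (hτ : 0 < τ) :
    Sr r ζ τ / r ^ 2 = 1 / r ^ 2 * τ - php r ζ τ := by
  unfold php
  have h1 := Sr_sq r ζ τ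
  have h2 := Sr_pos r ζ hτ
  have h3 : Sr r ζ τ + τ ≠ 0 := by positivity
  have h4 : r ^ 2 ≠ 0 := by positivity
  rw [sub_neg_eq_add]
  field_simp
  nlinarith

/-- amplitude prefactor -/
noncomputable def cfac (n : ℕ) (r : ℝ) (ζ : V n) (τ : ℝ) : ℂ :=
  ((vn n * Sr r ζ τ ^ (-((n : ℝ) / 2 + 1)) : ℝ) : ℂ) * Complex.exp ((2 * π * (php r ζ τ : ℝ)) * Complex.I)

/-- amplitude -/
noncomputable def gam (n : ℕ) (r : ℝ) (ζ : V n) (τ : ℝ) : ℂ :=
  cfac n r ζ τ * Bal ((n : ℝ) / 2) (Sr r ζ τ / r ^ 2)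

/-- limiting amplitude -/
noncomputable def gam0 (n : ℕ) (a0 : ℂ) (ζ : V n) (τ : ℝ) : ℂ := cfac n 0 ζ τ * a0

theorem ct_ball_gam {r : ℝ} (hr : 0 < r) (ζ : V n) {τ : ℝ} (hτ : 0 < τ) :
    ct (Metric.ball (0 : EE n) 1) (pr (r⁻¹ • ζ) ((r ^ 2)⁻¹ * τ)) =
      r ^ (n + 2) * osc (gam n r ζ τ) (1 / r ^ 2 * τ) := by
  have hS := Sr_pos r ζ hτ
  have hr2 : 0 < r ^ 2 := by positivity
  have hSr : 0 < Sr r ζ τ / r ^ 2 := by positivity
  rw [ct_ball_one, norm_pr_scaled hr]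
  have h1 : gam n r ζ τ = ((vn n * Sr r ζ τ ^ (-((n : ℝ) / 2 + 1)) : ℝ) : ℂ) *
      (Complex.exp ((2 * π * (php r ζ τ : ℝ)) * Complex.I) * Bal ((n : ℝ) / 2) (Sr r ζ τ / r ^ 2)) := by
    unfold gam cfac
    ring
  rw [h1, osc_real_mul, osc_shift, ← Sr_div hr ζ hτ, osc_Bal]
  unfold By
  rw [Real.div_rpow hS.le hr2.le, Real.rpow_neg hS.le]
  have h2 : (r ^ 2) ^ ((n : ℝ) / 2 + 1) = r ^ (n + 2) := by
    rw [← Real.rpow_natCast r 2, ← Real.rpow_mul hr.le, ← Real.rpow_natCast]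
    congr 1
    push_cast
    ring
  rw [h2]
  have h3 : 0 < Sr r ζ τ ^ ((n : ℝ) / 2 + 1) := Real.rpow_pos_of_pos hS _
  field_simp

theorem contOn_cfac : ContinuousOn (fun p : ℝ × V n × ℝ => cfac n p.1 p.2.1 p.2.2)
    {p | 0 < p.2.2} := by
  have hS : Continuous (fun p : ℝ × V n × ℝ => Sr p.1 p.2.1 p.2.2) := by
    unfold Sr
    fun_prop
  have hS0 : ∀ p ∈ {p : ℝ × V n × ℝ | 0 < p.2.2}, 0 < Sr p.1 p.2.1 p.2.2 := fun p hp => Sr_pos _ _ hp
  have hφ : ContinuousOn (fun p : ℝ × V n × ℝ => php p.1 p.2.1 p.2.2) {p | 0 < p.2.2} := by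
    unfold php
    refine ContinuousOn.neg (ContinuousOn.div (by fun_prop) (hS.continuousOn.add (by fun_prop)) ?_)
    intro p hp
    have h1 := hS0 p hp
    have h2 : 0 < p.2.2 := hp
    positivity
  unfold cfac
  have h1 : ContinuousOn (fun p : ℝ × V n × ℝ => Sr p.1 p.2.1 p.2.2 ^ (-((n : ℝ) / 2 + 1)))
      {p | 0 < p.2.2} := by
    apply hS.continuousOn.rpow_const
    intro p hp
    exact Or.inl (hS0 p hp).ne'
  fun_prop

theorem cont_gam0 (a0 : ℂ) : ContinuousOn (fun p : V n × ℝ => gam0 n a0 p.1 p.2) {p | 0 < p.2} := by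
  unfold gam0
  refine ContinuousOn.mul ?_ continuousOn_const
  exact contOn_cfac.comp (f := fun p : V n × ℝ => ((0 : ℝ), p.1, p.2)) (by fun_prop) fun p hp => hp

theorem cont_gam {r : ℝ} (hr : 0 < r) :
    ContinuousOn (fun p : V n × ℝ => gam n r p.1 p.2) {p | 0 < p.2} := by
  unfold gam
  refine ContinuousOn.mul ?_ ?_
  · exact contOn_cfac.comp (f := fun p : V n × ℝ => (r, p.1, p.2)) (by fun_prop) fun p hp => hp
  · apply (contOn_Bal (by positivity)).comp (f := fun p : V n × ℝ => Sr r p.1 p.2 / r ^ 2)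
    · unfold Sr
      fun_prop
    · intro p hp
      have := Sr_pos r p.1 (show 0 < p.2 from hp)
      exact mem_Ioi.2 (by positivity)

theorem unif_gam {a0 : ℂ} (ha0 : Tendsto (Bal ((n : ℝ) / 2)) atTop (𝓝 a0)) (ζ : V n) {a b : ℝ}
    (ha : 0 < a) : TendstoUniformlyOn (fun r => gam n r ζ) (gam0 n a0 ζ) (𝓝[>] (0 : ℝ))
      (Icc a b) := by
  have hsub : Icc a b ⊆ Ioi 0 := fun x hx => lt_of_lt_of_le ha hx.1
  unfold gam gam0
  refine unif_mul (f := fun r τ => cfac n r ζ τ) (g := fun r τ => Bal ((n : ℝ) / 2) (Sr r ζ τ / r ^ 2))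
    (F := fun τ => cfac n 0 ζ τ) (G := fun _ => a0) ?_ ?_ ?_ continuousOn_const
  · apply unif_of_cont (f := fun r τ => cfac n r ζ τ)
    exact contOn_cfac.comp (f := fun p : ℝ × ℝ => (p.1, ζ, p.2)) (by fun_prop)
      fun p hp => hsub hp.2
  · rw [Metric.tendstoUniformlyOn_iff]
    intro ε hε
    rw [Metric.tendsto_atTop] at ha0
    obtain ⟨N, hN⟩ := ha0 ε hε
    have h1 : Tendsto (fun u : ℝ => a / u ^ 2) (𝓝[>] 0) atTop := by
      have h2 : Tendsto (fun u : ℝ => u ^ 2) (𝓝[>] 0) (𝓝[>] 0) := by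
        apply tendsto_nhdsWithin_of_tendsto_nhds_of_eventually_within
        · have : Tendsto (fun u : ℝ => u ^ 2) (𝓝 0) (𝓝 (0 ^ 2)) := (continuous_pow 2).tendsto 0
          rw [zero_pow two_ne_zero] at this
          exact this.mono_left nhdsWithin_le_nhds
        · filter_upwards [self_mem_nhdsWithin] with u hu
          have : (0 : ℝ) < u := hu
          exact mem_Ioi.2 (by positivity)
      have h3 : Tendsto (fun u : ℝ => a / u) (𝓝[>] 0) atTop :=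
        Tendsto.const_mul_atTop ha tendsto_inv_nhdsGT_zero
      exact h3.comp h2
    filter_upwards [h1.eventually_ge_atTop N, self_mem_nhdsWithin] with u hu hu0 τ hτ
    rw [dist_comm]
    apply hN
    refine hu.trans ?_
    have : (0 : ℝ) < u := hu0
    gcongr
    exact hτ.1.trans (Sr_ge u ζ (hsub hτ))
  · exact contOn_cfac.comp (f := fun τ : ℝ => ((0 : ℝ), ζ, τ)) (by fun_prop)
      fun p hp => hsub hp

theorem DD_mono {r : ℝ} : DD n r ⊆ DD n 0 := by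
  rintro ⟨y, z⟩ ⟨h1, h2⟩
  refine ⟨h1, ?_⟩
  simp only at h1 h2 ⊢
  have h4 : 0 ≤ r ^ 2 * z ^ 2 := by positivity
  linarith

theorem tendsto_vol_DD : Tendsto (fun r : ℝ => volume.real (DD n 0 \ DD n r)) (𝓝[>] 0) (𝓝 0) := by
  have e : ∀ r, volume.real (DD n 0 \ DD n r) = ∫ z, (DD n 0 \ DD n r).indicator (fun _ => (1 : ℝ)) z := by
    intro r
    rw [integral_indicator ((meas_DD 0).diff (meas_DD r)), setIntegral_const, smul_eq_mul, mul_one]
  simp only [e]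
  have key : Tendsto (fun r : ℝ => ∫ z, (DD n 0 \ DD n r).indicator (fun _ => (1 : ℝ)) z) (𝓝[>] 0)
      (𝓝 (∫ z : V n × ℝ, (0 : ℝ))) := ?_
  · simpa using key
  apply tendsto_integral_filter_of_dominated_convergence
    ((DD n 0).indicator fun _ => (1 : ℝ))
  · exact Eventually.of_forall fun r => ((measurable_const.indicator
      ((meas_DD 0).diff (meas_DD r))).aestronglyMeasurable)
  · refine Eventually.of_forall fun r => Eventually.of_forall fun z => ?_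
    rw [Real.norm_of_nonneg (indicator_nonneg (fun _ _ => zero_le_one) _)]
    exact indicator_le_indicator_of_subset diff_subset (fun _ => zero_le_one) _
  · rw [integrable_indicator_iff (meas_DD 0)]
    exact integrableOn_const (vol_DD 0)
  · refine Eventually.of_forall fun z => ?_
    apply tendsto_const_nhds.congr'
    by_cases hz : z ∈ DD n 0
    · have h1 : Tendsto (fun r : ℝ => ‖z.1‖ ^ 2 + r ^ 2 * z.2 ^ 2) (𝓝[>] 0)
          (𝓝 (‖z.1‖ ^ 2 + 0 ^ 2 * z.2 ^ 2)) := by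
        have : Continuous fun r : ℝ => ‖z.1‖ ^ 2 + r ^ 2 * z.2 ^ 2 := by fun_prop
        exact (this.tendsto 0).mono_left nhdsWithin_le_nhds
      filter_upwards [h1.eventually_lt_const hz.2] with r hr
      rw [indicator_of_notMem]
      intro h
      exact h.2 ⟨hz.1, hr⟩
    · refine Eventually.of_forall fun r => ?_
      beta_reduce
      rw [indicator_of_notMem]
      intro h
      exact hz h.1

theorem mm_diff_le (r : ℝ) (ζ : V n) (τ : ℝ) :
    ‖mm n 0 ζ τ - mm n r ζ τ‖ ≤ volume.real (DD n 0 \ DD n r) := by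
  unfold mm
  rw [← integral_diff (meas_DD r) (mm_integrable 0 ζ τ) DD_mono]
  have := norm_setIntegral_le_of_norm_le_const (μ := (volume : Measure (V n × ℝ)))
    (s := DD n 0 \ DD n r) (C := 1)
    (f := fun z : V n × ℝ => Complex.exp (((-(2 * π * (⟪z.1, ζ⟫_ℝ - z.2 * τ)) : ℝ) : ℂ) * Complex.I))
    ((measure_mono diff_subset).trans_lt (vol_DD 0).lt_top) (fun z _ => (norm_exp_I _).le)
  rw [one_mul] at this
  exact this

theorem unif_mm (ζ : V n) {a b : ℝ} :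
    TendstoUniformlyOn (fun r => mm n r ζ) (mm n 0 ζ) (𝓝[>] (0 : ℝ)) (Icc a b) := by
  rw [Metric.tendstoUniformlyOn_iff]
  intro ε hε
  filter_upwards [tendsto_vol_DD.eventually_lt_const hε] with r hr τ _
  rw [dist_eq_norm]
  exact (mm_diff_le r ζ τ).trans_lt hr

theorem continuous_mm (r : ℝ) : Continuous fun p : V n × ℝ => mm n r p.1 p.2 := by
  unfold mm
  apply continuous_of_dominated (bound := fun _ => (1 : ℝ))
  · intro p
    exact (mm_integrable r p.1 p.2).aestronglyMeasurable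
  · intro p
    exact Eventually.of_forall fun z => (norm_exp_I _).le
  · exact integrableOn_const (vol_DD r)
  · refine Eventually.of_forall fun z => ?_
    fun_prop

theorem osc_neg (A : ℂ) (θ : ℝ) : osc (-A) θ = -osc A θ := by
  have := osc_real_mul (-1) A θ
  push_cast at this
  rw [neg_one_mul, neg_one_mul] at this
  exact this

/-- the main nonnegative integral -/
noncomputable def II (n : ℕ) (q r : ℝ) : ℝ≥0∞ :=
  ∫⁻ ξ : EE n, ENNReal.ofReal (Psi q (ct (Metric.ball (0 : EE n) 1) ξ)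
    (ct (Fr n r) ξ - ct (Metric.ball (0 : EE n) 1) ξ))

/-- the integrand -/
noncomputable def gg (n : ℕ) (q r : ℝ) (ζ : V n) (τ : ℝ) : ℝ :=
  Psi q (osc (gam n r ζ τ) (1 / r ^ 2 * τ)) (osc (-(mm n r ζ τ)) (1 / r ^ 2 * τ))

theorem ct_neg {F : Set (EE n)} (ξ : EE n) : ct F (-ξ) = ct F ξ := by
  unfold ct
  congr 1
  ext x
  rw [inner_neg_right, mul_neg, Real.cos_neg]

theorem sym_Fr (r : ℝ) : Sym (Fr n r) := (star_Fr r).sym (Fr_fin r)

theorem II_scaled {q r : ℝ} (hq : 2 ≤ q) (hr : r ∈ Ioo (0 : ℝ) 1) :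
    ENNReal.ofReal (r ^ (-(((n : ℝ) + 2) * (q - 1)))) * II n q r =
      2 * ∫⁻ ζ : V n, ∫⁻ τ in Ioi (0 : ℝ), ENNReal.ofReal (gg n q r ζ τ) := by
  have hr0 := hr.1
  have hr2 : 0 < r ^ 2 := by positivity
  set B : Set (EE n) := Metric.ball (0 : EE n) 1 with hB
  set φ : EE n → ℝ≥0∞ := fun ξ => ENNReal.ofReal (Psi q (ct B ξ) (ct (Fr n r) ξ - ct B ξ)) with hφ
  have hφm : Measurable φ := by
    have c1 := continuous_ct (sym_ball (n := n) 1)
    have c2 := continuous_ct (sym_Fr (n := n) r)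
    exact (cont_Psi hq c1 (c2.sub c1)).measurable.ennreal_ofReal
  have hφe : ∀ x, φ (-x) = φ x := by
    intro x
    simp only [hφ, ct_neg]
  have hP : MeasurableSet {z : V n × ℝ | 0 < z.2} := measurableSet_lt measurable_const measurable_snd
  set f : V n × ℝ → ℝ≥0∞ := {z : V n × ℝ | 0 < z.2}.indicator (fun z => φ (pr z.1 z.2)) with hf
  have hfm : Measurable f := (hφm.comp continuous_pr.measurable).indicator hP
  have e1 : II n q r = 2 * ∫⁻ z, f z := by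
    rw [hf, lintegral_indicator hP]
    exact lintegral_even hφm hφe
  have e2 : ∀ z : V n × ℝ, f (r⁻¹ • z.1, (r ^ 2)⁻¹ * z.2) =
      ENNReal.ofReal (r ^ (((n : ℝ) + 2) * q)) *
        (Ioi (0 : ℝ)).indicator (fun τ => ENNReal.ofReal (gg n q r z.1 τ)) z.2 := by
    rintro ⟨ζ, τ⟩
    simp only [hf]
    by_cases hτ : 0 < τ
    · rw [indicator_of_mem (show (r⁻¹ • ζ, (r ^ 2)⁻¹ * τ) ∈ {z : V n × ℝ | 0 < z.2} by
        change 0 < (r ^ 2)⁻¹ * τ
        positivity), indicator_of_mem (show τ ∈ Ioi (0 : ℝ) from hτ)]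
      simp only [hφ]
      rw [← ENNReal.ofReal_mul (by positivity)]
      congr 1
      have h1 : Fr n r ⊆ B := fun x hx => mem_ball_zero_iff.2 hx.1
      have h2 := ct_diff (sym_Fr r) (sym_ball 1) h1 (pr (r⁻¹ • ζ) ((r ^ 2)⁻¹ * τ))
      have h3 : ct (Fr n r) (pr (r⁻¹ • ζ) ((r ^ 2)⁻¹ * τ)) - ct B (pr (r⁻¹ • ζ) ((r ^ 2)⁻¹ * τ)) =
          r ^ (n + 2) * osc (-(mm n r ζ τ)) (1 / r ^ 2 * τ) := by
        have h4 := ct_cap hr ζ τ
        rw [osc_neg]
        rw [← hB] at h4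
        linarith
      rw [h3, ct_ball_gam hr0 ζ hτ, Psi_homog (by positivity)]
      congr 1
      rw [← Real.rpow_natCast, ← Real.rpow_mul hr0.le]
      congr 1
      push_cast
      ring
    · rw [indicator_of_notMem (show (r⁻¹ • ζ, (r ^ 2)⁻¹ * τ) ∉ {z : V n × ℝ | 0 < z.2} by
        intro h
        have h' : 0 < (r ^ 2)⁻¹ * τ := h
        exact hτ (pos_of_mul_pos_right h' (by positivity))),
        indicator_of_notMem (show τ ∉ Ioi (0 : ℝ) from hτ), mul_zero]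
  have e3 : ∫⁻ z, f z = ENNReal.ofReal ((r⁻¹) ^ n * (r ^ 2)⁻¹) *
      (ENNReal.ofReal (r ^ (((n : ℝ) + 2) * q)) *
        ∫⁻ ζ : V n, ∫⁻ τ in Ioi (0 : ℝ), ENNReal.ofReal (gg n q r ζ τ)) := by
    rw [lint_prod_scale hfm (a := r⁻¹) (b := (r ^ 2)⁻¹) (by positivity) (by positivity)]
    congr 1
    have hm : Measurable fun z : V n × ℝ => f (r⁻¹ • z.1, (r ^ 2)⁻¹ * z.2) :=
      hfm.comp (by fun_prop)
    rw [Measure.volume_eq_prod, lintegral_prod _ hm.aemeasurable,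
      ← lintegral_const_mul' _ _ ENNReal.ofReal_ne_top]
    apply lintegral_congr
    intro ζ
    rw [← lintegral_indicator measurableSet_Ioi, ← lintegral_const_mul' _ _ ENNReal.ofReal_ne_top]
    apply lintegral_congr
    intro τ
    exact e2 (ζ, τ)
  rw [e1, e3]
  have e4 : ENNReal.ofReal (r ^ (-(((n : ℝ) + 2) * (q - 1)))) *
      (ENNReal.ofReal ((r⁻¹) ^ n * (r ^ 2)⁻¹) * ENNReal.ofReal (r ^ (((n : ℝ) + 2) * q))) = 1 := by
    rw [← ENNReal.ofReal_mul (by positivity), ← ENNReal.ofReal_mul (by positivity),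
      ← ENNReal.ofReal_one]
    congr 1
    have h1 : (r⁻¹) ^ n * (r ^ 2)⁻¹ = r ^ (-((n : ℝ) + 2)) := by
      rw [Real.rpow_neg hr0.le, inv_pow, ← mul_inv, ← pow_add, ← Real.rpow_natCast]
      push_cast
      rfl
    rw [h1, ← Real.rpow_add hr0, ← Real.rpow_add hr0]
    have : -(((n : ℝ) + 2) * (q - 1)) + (-((n : ℝ) + 2) + ((n : ℝ) + 2) * q) = 0 := by ring
    rw [this, Real.rpow_zero]
  calc _ = 2 * ((ENNReal.ofReal (r ^ (-(((n : ℝ) + 2) * (q - 1)))) *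
      (ENNReal.ofReal ((r⁻¹) ^ n * (r ^ 2)⁻¹) * ENNReal.ofReal (r ^ (((n : ℝ) + 2) * q)))) *
        ∫⁻ ζ : V n, ∫⁻ τ in Ioi (0 : ℝ), ENNReal.ofReal (gg n q r ζ τ)) := by ring
    _ = _ := by rw [e4, one_mul]

theorem contOn_gg {q r : ℝ} (hq : 2 ≤ q) (hr : 0 < r) :
    ContinuousOn (fun p : V n × ℝ => gg n q r p.1 p.2) {p | 0 < p.2} := by
  unfold gg
  exact contOn_Psi hq (contOn_osc (cont_gam hr) (by fun_prop))
    (contOn_osc (continuous_mm r).neg.continuousOn (by fun_prop))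

theorem restrict_upper : (volume : Measure (V n × ℝ)).restrict {p | 0 < p.2} =
    (volume : Measure (V n)).prod ((volume : Measure ℝ).restrict (Ioi 0)) := by
  have hset : {z : V n × ℝ | 0 < z.2} = univ ×ˢ Ioi (0 : ℝ) := by
    ext z
    simp
  rw [hset, Measure.volume_eq_prod, ← Measure.prod_restrict, Measure.restrict_univ]

theorem meas_upper : MeasurableSet {p : V n × ℝ | 0 < p.2} :=
  measurableSet_lt measurable_const measurable_snd

theorem lower_liminf {q : ℝ} (hq : 2 ≤ q) {a0 : ℂ}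
    (ha0 : Tendsto (Bal ((n : ℝ) / 2)) atTop (𝓝 a0)) {r : ℕ → ℝ} (hr : ∀ k, r k ∈ Ioo (0 : ℝ) 1)
    (hr0 : Tendsto r atTop (𝓝[>] 0)) :
    2 * ∫⁻ ζ : V n, ∫⁻ τ in Ioi (0 : ℝ), ENNReal.ofReal (Theta q (gam0 n a0 ζ τ) (-(mm n 0 ζ τ))) ≤
      liminf (fun k => ENNReal.ofReal ((r k) ^ (-(((n : ℝ) + 2) * (q - 1)))) * II n q (r k))
        atTop := by
  have hlam : Tendsto (fun k => 1 / (r k) ^ 2) atTop atTop := by
    have h2 : Tendsto (fun u : ℝ => u ^ 2) (𝓝[>] 0) (𝓝[>] 0) := by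
      apply tendsto_nhdsWithin_of_tendsto_nhds_of_eventually_within
      · have : Tendsto (fun u : ℝ => u ^ 2) (𝓝 0) (𝓝 (0 ^ 2)) := (continuous_pow 2).tendsto 0
        rw [zero_pow two_ne_zero] at this
        exact this.mono_left nhdsWithin_le_nhds
      · filter_upwards [self_mem_nhdsWithin] with u hu
        have : (0 : ℝ) < u := hu
        exact mem_Ioi.2 (by positivity)
    have h3 := (tendsto_inv_nhdsGT_zero (𝕜 := ℝ)).comp (h2.comp hr0)
    simpa [Function.comp_def] using h3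
  have h1 : ∀ ζ : V n, ∫⁻ τ in Ioi (0 : ℝ),
      ENNReal.ofReal (Theta q (gam0 n a0 ζ τ) (-(mm n 0 ζ τ))) ≤
      liminf (fun k => ∫⁻ τ in Ioi (0 : ℝ), ENNReal.ofReal (gg n q (r k) ζ τ)) atTop := by
    intro ζ
    have := liminf_Psi (l := atTop) hq hlam (w := fun _ => 1) (fun _ _ => zero_le_one)
      continuousOn_const (A := gam0 n a0 ζ) (B := fun τ => -(mm n 0 ζ τ))
      (Ak := fun k => gam n (r k) ζ) (Bk := fun k τ => -(mm n (r k) ζ τ))
      ((cont_gam0 a0).comp (f := fun τ : ℝ => (ζ, τ)) (by fun_prop) fun τ hτ => hτ)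
      ((continuous_mm 0).comp (by fun_prop : Continuous fun τ : ℝ => (ζ, τ))).neg.continuousOn
      (Eventually.of_forall fun k =>
        (cont_gam (hr k).1).comp (f := fun τ : ℝ => (ζ, τ)) (by fun_prop) fun τ hτ => hτ)
      (Eventually.of_forall fun k =>
        ((continuous_mm (r k)).comp (by fun_prop : Continuous fun τ : ℝ => (ζ, τ))).neg.continuousOn)
      (fun a b ha u hu => hr0.eventually (unif_gam ha0 ζ ha u hu))
      (fun a b _ => by
        have h := unif_mm ζ (a := a) (b := b)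
        have h' : TendstoUniformlyOn (fun k => mm n (r k) ζ) (mm n 0 ζ) atTop (Icc a b) :=
          fun u hu => hr0.eventually (h u hu)
        exact h'.neg)
    simp only [one_mul] at this
    exact this
  calc 2 * ∫⁻ ζ : V n, ∫⁻ τ in Ioi (0 : ℝ), ENNReal.ofReal (Theta q (gam0 n a0 ζ τ) (-(mm n 0 ζ τ)))
      ≤ 2 * ∫⁻ ζ : V n, liminf (fun k => ∫⁻ τ in Ioi (0 : ℝ), ENNReal.ofReal (gg n q (r k) ζ τ))
        atTop := by gcongr with ζ; exact h1 ζ
    _ ≤ 2 * liminf (fun k => ∫⁻ ζ : V n, ∫⁻ τ in Ioi (0 : ℝ), ENNReal.ofReal (gg n q (r k) ζ τ))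
        atTop := by
      gcongr
      apply lintegral_liminf_le'
      intro k
      refine AEMeasurable.lintegral_prod_right'
        (f := fun p : V n × ℝ => ENNReal.ofReal (gg n q (r k) p.1 p.2)) ?_
      rw [← restrict_upper]
      exact ((contOn_gg hq (hr k).1).aemeasurable meas_upper).ennreal_ofReal
    _ = liminf (fun k => 2 * ∫⁻ ζ : V n, ∫⁻ τ in Ioi (0 : ℝ), ENNReal.ofReal (gg n q (r k) ζ τ))
        atTop := by
      exact (ENNReal.liminf_const_mul_of_ne_top (by simp)).symm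
    _ = _ := by
      congr 1
      ext k
      exact (II_scaled hq (hr k)).symm

end Pool.Agent.H51.Maxi
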