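import Pool.Agent.H51.Maxi.Avg

open MeasureTheory Set Filter Topology FourierTransform
open scoped ENNReal Real InnerProductSpace Interval ComplexConjugate

namespace Pool.Agent.H51.Maxi

variable {n : ℕ}

theorem lint_prod_scale {f : V n × ℝ → ℝ≥0∞} (hf : Measurable f) {a b : ℝ} (ha : 0 < a)
    (hb : 0 < b) :
    ∫⁻ z, f z = ENNReal.ofReal (a ^ n * b) * ∫⁻ z : V n × ℝ, f (a • z.1, b * z.2) := by
  have hm : Measurable fun z : V n × ℝ => f (a • z.1, b * z.2) :=
    hf.comp (by fun_prop)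
  rw [Measure.volume_eq_prod, lintegral_prod _ hf.aemeasurable, lintegral_prod _ hm.aemeasurable,
    lintegral_smul_scale volume _ ha, finrank_euclideanSpace, Fintype.card_fin,
    ENNReal.ofReal_mul (by positivity), mul_assoc]
  congr 1
  rw [← lintegral_const_mul' _ _ ENNReal.ofReal_ne_top]
  apply lintegral_congr
  intro y
  rw [lintegral_smul_scale volume _ hb]
  simp

/-- scaling equivalence -/
noncomputable def scE (n : ℕ) {a b : ℝ} (ha : a ≠ 0) (hb : b ≠ 0) : V n × ℝ ≃ᵐ V n × ℝ :=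
  ((Homeomorph.smulOfNeZero a ha).prodCongr (Homeomorph.smulOfNeZero b hb)).toMeasurableEquiv

theorem map_scE {a b : ℝ} (ha : 0 < a) (hb : 0 < b) :
    Measure.map (scE n ha.ne' hb.ne') (volume : Measure (V n × ℝ)) =
      ENNReal.ofReal ((a ^ n * b)⁻¹) • (volume : Measure (V n × ℝ)) := by
  ext s hs
  rw [(scE n ha.ne' hb.ne').map_apply, Measure.smul_apply, smul_eq_mul]
  have h1 := lint_prod_scale (f := s.indicator fun _ => (1 : ℝ≥0∞)) (measurable_const.indicator hs)
    ha hb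
  rw [lintegral_indicator hs, lintegral_one, Measure.restrict_apply_univ] at h1
  have h2 : ∫⁻ z : V n × ℝ, s.indicator (fun _ => (1 : ℝ≥0∞)) (a • z.1, b * z.2) =
      volume ((scE n ha.ne' hb.ne') ⁻¹' s) := by
    have h3 : ∀ z : V n × ℝ, s.indicator (fun _ => (1 : ℝ≥0∞)) (a • z.1, b * z.2) =
        ((scE n ha.ne' hb.ne') ⁻¹' s).indicator (fun _ => (1 : ℝ≥0∞)) z := by
      intro z
      rfl
    simp only [h3]
    rw [lintegral_indicator ((scE n ha.ne' hb.ne').measurable hs), lintegral_one,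
      Measure.restrict_apply_univ]
  rw [h2] at h1
  rw [h1, ← mul_assoc, ← ENNReal.ofReal_mul (by positivity), inv_mul_cancel₀ (by positivity),
    ENNReal.ofReal_one, one_mul]

theorem int_prod_scale {f : V n × ℝ → ℝ} {a b : ℝ} (ha : 0 < a) (hb : 0 < b) :
    ∫ z, f z = (a ^ n * b) * ∫ z : V n × ℝ, f (a • z.1, b * z.2) := by
  have h1 : ∫ z : V n × ℝ, f (a • z.1, b * z.2) =
      ∫ z, f z ∂(Measure.map (scE n ha.ne' hb.ne') (volume : Measure (V n × ℝ))) :=
    (integral_map_equiv (scE n ha.ne' hb.ne') f).symm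
  rw [h1, map_scE ha hb, integral_smul_measure, ENNReal.toReal_ofReal (by positivity), smul_eq_mul,
    ← mul_assoc, mul_inv_cancel₀ (by positivity), one_mul]

/-- rescaled cap -/
def DD (n : ℕ) (r : ℝ) : Set (V n × ℝ) := {z | z.2 ≤ 1 / 2 ∧ ‖z.1‖ ^ 2 + r ^ 2 * z.2 ^ 2 < 2 * z.2}

theorem meas_DD (r : ℝ) : MeasurableSet (DD n r) := by
  apply MeasurableSet.inter
  · exact measurableSet_le measurable_snd measurable_const
  · exact measurableSet_lt (f := fun z : V n × ℝ => ‖z.1‖ ^ 2 + r ^ 2 * z.2 ^ 2)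
      (g := fun z => 2 * z.2) (by fun_prop) (by fun_prop)

theorem DD_sub (r : ℝ) : DD n r ⊆ Metric.closedBall (0 : V n) 1 ×ˢ Icc (0 : ℝ) (1 / 2) := by
  rintro ⟨y, z⟩ ⟨h1, h2⟩
  simp only at h1 h2
  have h3 : 0 ≤ ‖y‖ ^ 2 := by positivity
  have h4 : 0 ≤ r ^ 2 * z ^ 2 := by positivity
  refine ⟨?_, ?_, h1⟩
  · rw [mem_closedBall_zero_iff]
    nlinarith [norm_nonneg y]
  · simp only
    linarith

theorem vol_DD (r : ℝ) : volume (DD n r) ≠ ⊤ := by
  refine (measure_lt_top_of_subset (DD_sub r) ?_).ne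
  rw [Measure.volume_eq_prod, Measure.prod_prod]
  exact ENNReal.mul_ne_top measure_closedBall_lt_top.ne (by simp)

/-- rescaled cap transform -/
noncomputable def mm (n : ℕ) (r : ℝ) (ζ : V n) (τ : ℝ) : ℂ :=
  ∫ z in DD n r, Complex.exp (((-(2 * π * (⟪z.1, ζ⟫_ℝ - z.2 * τ)) : ℝ) : ℂ) * Complex.I)

theorem norm_exp_I (x : ℝ) : ‖Complex.exp ((x : ℂ) * Complex.I)‖ = 1 :=
  Complex.norm_exp_ofReal_mul_I x

theorem mm_integrable (r : ℝ) (ζ : V n) (τ : ℝ) : IntegrableOn (fun z : V n × ℝ =>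
    Complex.exp (((-(2 * π * (⟪z.1, ζ⟫_ℝ - z.2 * τ)) : ℝ) : ℂ) * Complex.I)) (DD n r) := by
  refine (integrableOn_const (C := (1 : ℝ)) (vol_DD r)).mono' (by fun_prop) ?_
  exact Eventually.of_forall fun z => (norm_exp_I _).le

theorem ct_cap {r : ℝ} (hr : r ∈ Ioo (0 : ℝ) 1) (ζ : V n) (τ : ℝ) :
    ct (Metric.ball (0 : EE n) 1 \ Fr n r) (pr (r⁻¹ • ζ) ((r ^ 2)⁻¹ * τ)) =
      r ^ (n + 2) * osc (mm n r ζ τ) (1 / r ^ 2 * τ) := by
  have hr0 := hr.1
  have hr2 : 0 < r ^ 2 := by positivity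
  have hr21 : r ^ 2 < 1 := by nlinarith [hr.2]
  set ξ : EE n := pr (r⁻¹ • ζ) ((r ^ 2)⁻¹ * τ) with hξ
  set C : Set (EE n) := Metric.ball (0 : EE n) 1 \ Fr n r with hC
  have hCs : Sym C := (sym_ball 1).diff ((star_Fr r).sym (Fr_fin r))
  have hCmem : ∀ x, x ∈ C ↔ ‖x‖ < 1 ∧ 1 - r ^ 2 / 2 ≤ |x.snd| := by
    intro x
    rw [hC, mem_diff, mem_ball_zero_iff]
    constructor
    · rintro ⟨h1, h2⟩
      refine ⟨h1, ?_⟩
      by_contra h3
      exact h2 ⟨h1, not_le.1 h3⟩
    · rintro ⟨h1, h2⟩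
      exact ⟨h1, fun h3 => absurd h3.2 (not_lt.2 h2)⟩
  set g : EE n → ℝ := C.indicator fun x => Real.cos (2 * π * ⟪x, ξ⟫_ℝ) with hg
  have hgm : Integrable g := by
    rw [hg, integrable_indicator_iff hCs.meas]
    refine (integrableOn_const (C := (1 : ℝ)) hCs.fin).mono' (by fun_prop) ?_
    exact Eventually.of_forall fun x => Real.abs_cos_le_one _
  have hsnd : Continuous fun x : EE n => x.snd :=
    continuous_snd.comp (WithLp.prod_continuous_ofLp 2 (V n) ℝ)
  have hPm : MeasurableSet {x : EE n | 0 < x.snd} := measurableSet_lt measurable_const hsnd.measurable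
  have hNm : MeasurableSet {x : EE n | x.snd < 0} := measurableSet_lt hsnd.measurable measurable_const
  have e0 : ct C ξ = ∫ x, g x := by
    unfold ct
    rw [hg, integral_indicator hCs.meas]
  have e1 : ∀ x, g x = {x : EE n | 0 < x.snd}.indicator g x + {x : EE n | x.snd < 0}.indicator g x := by
    intro x
    by_cases hx : x ∈ C
    · have h2 := ((hCmem x).1 hx).2
      have h3 : 0 < |x.snd| := by linarith
      rcases lt_trichotomy x.snd 0 with h | h | h
      · rw [indicator_of_notMem (show x ∉ {x : EE n | 0 < x.snd} from not_lt.2 h.le),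
          indicator_of_mem (show x ∈ {x : EE n | x.snd < 0} from h), zero_add]
      · rw [h, abs_zero] at h3
        exact absurd h3 (lt_irrefl _)
      · rw [indicator_of_mem (show x ∈ {x : EE n | 0 < x.snd} from h),
          indicator_of_notMem (show x ∉ {x : EE n | x.snd < 0} from not_lt.2 h.le), add_zero]
    · have : g x = 0 := by rw [hg, indicator_of_notMem hx]
      rw [this]
      by_cases h1 : x ∈ {x : EE n | 0 < x.snd} <;> by_cases h2 : x ∈ {x : EE n | x.snd < 0} <;>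
        simp [indicator, this]
  have hgneg : ∀ x, g (-x) = g x := by
    intro x
    rw [hg]
    by_cases hx : x ∈ C
    · rw [indicator_of_mem hx, indicator_of_mem ((hCs.symm x).2 hx), inner_neg_left, mul_neg,
        Real.cos_neg]
    · rw [indicator_of_notMem hx, indicator_of_notMem (fun h => hx ((hCs.symm x).1 h))]
  have e2 : ∫ x, {x : EE n | x.snd < 0}.indicator g x = ∫ x, {x : EE n | 0 < x.snd}.indicator g x := by
    rw [← integral_neg_eq_self]
    congr 1
    ext x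
    have hs : (-x).snd = -(x.snd) := rfl
    by_cases h : 0 < x.snd
    · rw [indicator_of_mem (show x ∈ {x : EE n | 0 < x.snd} from h), indicator_of_mem, hgneg]
      change (-x).snd < 0
      rw [hs]
      linarith
    · rw [indicator_of_notMem (show x ∉ {x : EE n | 0 < x.snd} from h), indicator_of_notMem]
      change ¬ (-x).snd < 0
      rw [hs]
      linarith
  have e3 : ct C ξ = 2 * ∫ x, {x : EE n | 0 < x.snd}.indicator g x := by
    rw [e0, integral_congr_ae (Eventually.of_forall e1),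
      integral_add (hgm.indicator hPm) (hgm.indicator hNm), e2]
    ring
  -- change of variables
  have e4 : ∫ x, {x : EE n | 0 < x.snd}.indicator g x =
      r ^ (n + 2) * ∫ z in DD n r, Real.cos (2 * π * (⟪z.1, ζ⟫_ℝ - z.2 * τ) + 2 * π * (1 / r ^ 2 * τ)) := by
    rw [integral_EE]
    have h1 : ∫ z : V n × ℝ, {x : EE n | 0 < x.snd}.indicator g (pr z.1 z.2) =
        ∫ z : V n × ℝ, {x : EE n | 0 < x.snd}.indicator g (pr z.1 (1 - z.2)) := by
      have hmp : MeasurePreserving (Prod.map id (fun t : ℝ => 1 - t))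
          (volume : Measure (V n × ℝ)) volume :=
        (MeasurePreserving.id (volume : Measure (V n))).prod
          (Measure.measurePreserving_sub_left (volume : Measure ℝ) 1)
      have hme : MeasurableEmbedding (Prod.map (id : V n → V n) (fun t : ℝ => 1 - t)) :=
        MeasurableEmbedding.id.prodMap (MeasurableEquiv.subLeft (1 : ℝ)).measurableEmbedding
      exact (hmp.integral_comp hme
        (fun z : V n × ℝ => {x : EE n | 0 < x.snd}.indicator g (pr z.1 z.2))).symm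
    rw [h1, int_prod_scale hr0 hr2]
    have h2 : r ^ n * r ^ 2 = r ^ (n + 2) := by rw [pow_add]
    rw [h2, ← integral_indicator (meas_DD r)]
    congr 1
    apply integral_congr_ae
    refine Eventually.of_forall fun z => ?_
    beta_reduce
    have hmem : (pr (r • z.1) (1 - r ^ 2 * z.2) ∈ {x : EE n | 0 < x.snd} ∧
        pr (r • z.1) (1 - r ^ 2 * z.2) ∈ C) ↔ z ∈ DD n r := by
      have hs : (pr (r • z.1) (1 - r ^ 2 * z.2)).snd = 1 - r ^ 2 * z.2 := rfl
      rw [hCmem, mem_ofPred_eq, hs]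
      have hnorm : ‖pr (r • z.1) (1 - r ^ 2 * z.2)‖ < 1 ↔ ‖z.1‖ ^ 2 + r ^ 2 * z.2 ^ 2 < 2 * z.2 := by
        have : ‖pr (r • z.1) (1 - r ^ 2 * z.2)‖ < 1 ↔ ‖pr (r • z.1) (1 - r ^ 2 * z.2)‖ ^ 2 < 1 := by
          constructor
          · intro h
            nlinarith [norm_nonneg (pr (r • z.1) (1 - r ^ 2 * z.2))]
          · intro h
            nlinarith [norm_nonneg (pr (r • z.1) (1 - r ^ 2 * z.2))]
        rw [this, norm_pr_sq, norm_smul, Real.norm_of_nonneg hr0.le, mul_pow]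
        have e : r ^ 2 * ‖z.1‖ ^ 2 + (1 - r ^ 2 * z.2) ^ 2 =
            1 + r ^ 2 * (‖z.1‖ ^ 2 + r ^ 2 * z.2 ^ 2 - 2 * z.2) := by ring
        rw [e]
        constructor
        · intro h
          have h5 : r ^ 2 * (‖z.1‖ ^ 2 + r ^ 2 * z.2 ^ 2 - 2 * z.2) < 0 := by linarith
          by_contra h6
          have h7 : 0 ≤ ‖z.1‖ ^ 2 + r ^ 2 * z.2 ^ 2 - 2 * z.2 := by linarith
          have := mul_nonneg hr2.le h7
          linarith
        · intro h
          have : r ^ 2 * (‖z.1‖ ^ 2 + r ^ 2 * z.2 ^ 2 - 2 * z.2) < 0 :=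
            mul_neg_of_pos_of_neg hr2 (by linarith)
          linarith
      rw [hnorm]
      constructor
      · rintro ⟨h1, h2, h3⟩
        rw [abs_of_pos h1] at h3
        refine ⟨?_, h2⟩
        have : r ^ 2 * z.2 ≤ r ^ 2 * (1 / 2) := by linarith
        exact le_of_mul_le_mul_left this hr2
      · rintro ⟨h1, h2⟩
        have h3 : r ^ 2 * z.2 ≤ r ^ 2 * (1 / 2) := mul_le_mul_of_nonneg_left h1 hr2.le
        have h4 : 0 < 1 - r ^ 2 * z.2 := by linarith
        refine ⟨h4, h2, ?_⟩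
        rw [abs_of_pos h4]
        linarith
    by_cases hz : z ∈ DD n r
    · obtain ⟨h1, h2⟩ := hmem.2 hz
      rw [indicator_of_mem hz, indicator_of_mem h1, hg, indicator_of_mem h2]
      congr 1
      rw [hξ, inner_pr, real_inner_smul_left, real_inner_smul_right]
      field_simp
      ring
    · rw [indicator_of_notMem hz]
      by_cases h1 : pr (r • z.1) (1 - r ^ 2 * z.2) ∈ {x : EE n | 0 < x.snd}
      · rw [indicator_of_mem h1, hg, indicator_of_notMem]
        intro h2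
        exact hz (hmem.1 ⟨h1, h2⟩)
      · rw [indicator_of_notMem h1]
  rw [e3, e4]
  unfold osc
  have e5 : (Complex.exp (-(2 * π * ((1 / r ^ 2 * τ : ℝ) : ℂ)) * Complex.I) * mm n r ζ τ).re =
      ∫ z in DD n r, Real.cos (2 * π * (⟪z.1, ζ⟫_ℝ - z.2 * τ) + 2 * π * (1 / r ^ 2 * τ)) := by
    unfold mm
    rw [← integral_const_mul]
    have hint := (mm_integrable r ζ τ).const_mul
      (Complex.exp (-(2 * π * ((1 / r ^ 2 * τ : ℝ) : ℂ)) * Complex.I))
    have h1 := integral_re hint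
    have h2 : ∀ z : ℂ, RCLike.re z = z.re := fun _ => rfl
    simp only [h2] at h1
    rw [← h1]
    congr 1
    ext z
    rw [← Complex.exp_add]
    have h3 : -(2 * π * ((1 / r ^ 2 * τ : ℝ) : ℂ)) * Complex.I +
        ((-(2 * π * (⟪z.1, ζ⟫_ℝ - z.2 * τ)) : ℝ) : ℂ) * Complex.I =
        ((-(2 * π * (⟪z.1, ζ⟫_ℝ - z.2 * τ) + 2 * π * (1 / r ^ 2 * τ)) : ℝ) : ℂ) * Complex.I := by
      push_cast
      ring
    rw [h3, Complex.exp_ofReal_mul_I_re, Real.cos_neg]
  rw [e5]
  ring

end Pool.Agent.H51.Maxi
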