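import Pool.Agent.H51.Maxi.Strict

open MeasureTheory Set Filter Topology FourierTransform
open scoped ENNReal Real InnerProductSpace Interval ComplexConjugate

namespace Pool.Agent.H51.Maxi

variable {n : ℕ}

theorem tendsto_vol_cap :
    Tendsto (fun r : ℝ => volume.real (Metric.ball (0 : EE n) 1 \ Fr n r)) (𝓝[>] 0) (𝓝 0) := by
  have hB : MeasurableSet (Metric.ball (0 : EE n) 1) := measurableSet_ball
  have hFm : ∀ r, MeasurableSet (Fr n r) := fun r => (star_Fr r).meas
  have hBf : volume (Metric.ball (0 : EE n) 1) ≠ ⊤ := measure_ball_lt_top.ne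
  have e : ∀ r, volume.real (Metric.ball (0 : EE n) 1 \ Fr n r) =
      ∫ z, (Metric.ball (0 : EE n) 1 \ Fr n r).indicator (fun _ => (1 : ℝ)) z := by
    intro r
    rw [integral_indicator (hB.diff (hFm r)), setIntegral_const, smul_eq_mul, mul_one]
  simp only [e]
  have key : Tendsto (fun r : ℝ => ∫ z, (Metric.ball (0 : EE n) 1 \ Fr n r).indicator
      (fun _ => (1 : ℝ)) z) (𝓝[>] 0) (𝓝 (∫ z : EE n, (0 : ℝ))) := ?_
  · simpa using key
  apply tendsto_integral_filter_of_dominated_convergence
    ((Metric.ball (0 : EE n) 1).indicator fun _ => (1 : ℝ))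
  · exact Eventually.of_forall fun r => ((measurable_const.indicator
      (hB.diff (hFm r))).aestronglyMeasurable)
  · refine Eventually.of_forall fun r => Eventually.of_forall fun z => ?_
    rw [Real.norm_of_nonneg (indicator_nonneg (fun _ _ => zero_le_one) _)]
    exact indicator_le_indicator_of_subset diff_subset (fun _ => zero_le_one) _
  · rw [integrable_indicator_iff hB]
    exact integrableOn_const hBf
  · refine Eventually.of_forall fun z => ?_
    apply tendsto_const_nhds.congr'
    by_cases hz : z ∈ Metric.ball (0 : EE n) 1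
    · have hz1 : ‖z‖ < 1 := mem_ball_zero_iff.1 hz
      have hz2 : |z.snd| ≤ ‖z‖ := by
        have h1 : ‖z‖ ^ 2 = ‖z.fst‖ ^ 2 + z.snd ^ 2 := norm_pr_sq z.fst z.snd
        apply abs_le_of_sq_le_sq _ (norm_nonneg _)
        nlinarith [sq_nonneg ‖z.fst‖]
      have h1 : Tendsto (fun r : ℝ => 1 - r ^ 2 / 2) (𝓝[>] 0) (𝓝 (1 - 0 ^ 2 / 2)) := by
        have : Continuous fun r : ℝ => 1 - r ^ 2 / 2 := by fun_prop
        exact (this.tendsto 0).mono_left nhdsWithin_le_nhds
      have h2 : |z.snd| < 1 - 0 ^ 2 / 2 := by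
        norm_num
        linarith
      filter_upwards [h1.eventually_const_lt h2] with r hr
      rw [indicator_of_notMem]
      intro h
      exact h.2 ⟨hz1, hr⟩
    · refine Eventually.of_forall fun r => ?_
      beta_reduce
      rw [indicator_of_notMem]
      intro h
      exact hz h.1

/-- The functional increases: there are arbitrarily small truncations beating the ball. -/
theorem main_EE (hn : 1 ≤ n) {q : ℝ} (hq : 2 < q) (hq' : ((n : ℝ) / 2 + 1) * (q - 2) < 1) :
    ∃ᶠ r : ℝ in 𝓝[>] 0, r ∈ Ioo (0 : ℝ) 1 ∧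
      JJ q (Metric.ball (0 : EE n) 1) * (volume.real (Fr n r) / bE n) ^ (q - 1) <
        JJ q (Fr n r) := by
  obtain ⟨a0, ha0⟩ := exists_lim (m := (n : ℝ) / 2) (by positivity)
  set r : ℕ → ℝ := fun k => 1 / ((k : ℝ) + 2) with hr
  have hr01 : ∀ k, r k ∈ Ioo (0 : ℝ) 1 := by
    intro k
    simp only [hr]
    constructor
    · positivity
    · rw [div_lt_one (by positivity)]
      have : (0 : ℝ) ≤ k := Nat.cast_nonneg k
      linarith
  have hrt : Tendsto r atTop (𝓝[>] 0) := by
    apply tendsto_nhdsWithin_of_tendsto_nhds_of_eventually_within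
    · have h1 : Tendsto (fun k : ℕ => (k : ℝ) + 2) atTop atTop :=
        tendsto_atTop_add_const_right _ _ tendsto_natCast_atTop_atTop
      refine h1.inv_tendsto_atTop.congr fun k => ?_
      simp [hr]
    · exact Eventually.of_forall fun k => (hr01 k).1
  set W := ∫ y : V n, ww y ^ (1 + ((n : ℝ) / 2 + 1) * (q - 2)) with hW
  have hW0 : 0 ≤ W := integral_nonneg fun y => Real.rpow_nonneg (ww_nonneg y) _
  have hUC0 : 0 ≤ UC n q a0 := by
    unfold UC
    have := K_pos hq.le
    have := vn_pos (n := n)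
    have := SS_nonneg (((n : ℝ) / 2 + 1) * (q - 2))
    positivity
  have hTT := TT_gt hn hq hq' ha0
  rw [← hW] at hTT
  have h2TT : ENNReal.ofReal (2 * UC n q a0 * W) < 2 * TT n q a0 := by
    have : ENNReal.ofReal (2 * UC n q a0 * W) = 2 * ENNReal.ofReal (UC n q a0 * W) := by
      rw [mul_assoc, ENNReal.ofReal_mul (by norm_num)]
      simp
    rw [this]
    exact ENNReal.mul_lt_mul_right (by simp) (by simp) hTT
  -- choose ε
  obtain ⟨c, hc1, hc2⟩ := exists_between h2TT
  have hcT : c ≠ ⊤ := (hc2.trans_le le_top).ne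
  have hcr : 2 * UC n q a0 * W < c.toReal := (ENNReal.ofReal_lt_iff_lt_toReal (by positivity) hcT).1 hc1
  set ε := c.toReal - 2 * UC n q a0 * W with hε
  have hε0 : 0 < ε := by linarith
  have hup := upper_avg hq hq' ha0 hε0
  have hlow := lower_liminf hq.le ha0 hr01 hrt
  have hev := eventually_lt_of_lt_liminf (hc2.trans_le hlow)
  -- conclude
  have hall : ∀ᶠ k in atTop, r k ∈ Ioo (0 : ℝ) 1 ∧
      JJ q (Metric.ball (0 : EE n) 1) * (volume.real (Fr n (r k)) / bE n) ^ (q - 1) <
        JJ q (Fr n (r k)) := by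
    filter_upwards [hev, hrt.eventually hup] with k hk1 hk2
    refine ⟨hr01 k, ?_⟩
    obtain ⟨hex, _⟩ := exact_ineq hq.le (star_Fr (r k)) (measurable_rho (r k))
      (fun y => rho_pos (hr01 k) y) (fun y => rho_le (r k) y) (Fr_fin (n := n) (r k))
    have hB := sym_ball (n := n) 1
    have hF := sym_Fr (n := n) (r k)
    have hint := Psi_int hq.le hF hB
    have hII : II n q (r k) = ENNReal.ofReal (∫ ξ : EE n, Psi q (ct (Metric.ball (0 : EE n) 1) ξ)
        (ct (Fr n (r k)) ξ - ct (Metric.ball (0 : EE n) 1) ξ)) := by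
      unfold II
      rw [ofReal_integral_eq_lintegral_ofReal hint
        (Eventually.of_forall fun ξ => Psi_nonneg hq.le _ _)]
    set I1 := ∫ ξ : EE n, Psi q (ct (Metric.ball (0 : EE n) 1) ξ)
        (ct (Fr n (r k)) ξ - ct (Metric.ball (0 : EE n) 1) ξ) with hI1
    set P1 := ∫ y, Phi n q (rho (r k) y) ∂(PP n) with hP1
    have hrk := (hr01 k).1
    set w := (r k) ^ (-(((n : ℝ) + 2) * (q - 1))) with hw
    have hw0 : 0 < w := Real.rpow_pos_of_pos hrk _
    rw [hII, ← ENNReal.ofReal_mul hw0.le] at hk1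
    have h1 : c.toReal < w * I1 := by
      rw [← ENNReal.ofReal_toReal hcT, ENNReal.ofReal_lt_ofReal_iff'] at hk1
      exact hk1.1
    have h2 : w * P1 ≤ c.toReal := by
      have : 2 * UC n q a0 * W + ε = c.toReal := by rw [hε]; ring
      linarith
    have h3 : P1 < I1 := lt_of_mul_lt_mul_left (h2.trans_lt h1) hw0.le
    linarith
  exact hrt.frequently hall.frequently

end Pool.Agent.H51.Maxi
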