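import Pool.Agent.H51.Maxi.J

open MeasureTheory Set Filter Topology FourierTransform
open scoped ENNReal Real InnerProductSpace Interval ComplexConjugate

namespace Pool.Agent.H51.Maxi

variable {n : ℕ}

theorem vol_DD_pos : 0 < volume.real (DD n 0) := by
  have hU : IsOpen {z : V n × ℝ | z.2 < 1 / 2 ∧ ‖z.1‖ ^ 2 < 2 * z.2} := by
    apply IsOpen.inter
    · exact isOpen_lt continuous_snd continuous_const
    · exact isOpen_lt (f := fun z : V n × ℝ => ‖z.1‖ ^ 2) (g := fun z => 2 * z.2) (by fun_prop)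
        (by fun_prop)
  have hne : {z : V n × ℝ | z.2 < 1 / 2 ∧ ‖z.1‖ ^ 2 < 2 * z.2}.Nonempty :=
    ⟨(0, 1 / 4), by constructor <;> norm_num⟩
  have h1 := hU.measure_pos volume hne
  have h2 : {z : V n × ℝ | z.2 < 1 / 2 ∧ ‖z.1‖ ^ 2 < 2 * z.2} ⊆ DD n 0 := by
    rintro ⟨y, z⟩ ⟨h3, h4⟩
    refine ⟨h3.le, ?_⟩
    simp only at h3 h4 ⊢
    linarith
  exact ENNReal.toReal_pos (h1.trans_le (measure_mono h2)).ne' (vol_DD 0)

theorem norm_mm_le (ζ : V n) (τ : ℝ) : ‖mm n 0 ζ τ‖ ≤ volume.real (DD n 0) := by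
  unfold mm
  have := norm_setIntegral_le_of_norm_le_const (μ := (volume : Measure (V n × ℝ)))
    (s := DD n 0) (C := 1)
    (f := fun z : V n × ℝ => Complex.exp (((-(2 * π * (⟪z.1, ζ⟫_ℝ - z.2 * τ)) : ℝ) : ℂ) * Complex.I))
    (vol_DD 0).lt_top (fun z _ => (norm_exp_I _).le)
  rw [one_mul] at this
  exact this

theorem mm_zero : mm n 0 0 0 = (volume.real (DD n 0) : ℂ) := by
  unfold mm
  have : ∀ z : V n × ℝ, Complex.exp (((-(2 * π * (⟪z.1, (0 : V n)⟫_ℝ - z.2 * 0)) : ℝ) : ℂ) *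
      Complex.I) = 1 := by
    intro z
    simp
  simp only [this]
  rw [setIntegral_const]
  simp

theorem exists_ne (hn : 1 ≤ n) (a0 : ℂ) : ∃ ζ : V n, ∃ τ > 0,
    ‖gam0 n a0 ζ τ + -(mm n 0 ζ τ)‖ ≠ ‖gam0 n a0 ζ τ‖ := by
  by_contra hcon
  push Not at hcon
  set v0 := volume.real (DD n 0) with hv0
  have hv0p : 0 < v0 := vol_DD_pos
  have hv := vn_pos (n := n)
  -- neighbourhood of zero
  have hc : Continuous fun p : V n × ℝ => (mm n 0 p.1 p.2).re :=
    Complex.continuous_re.comp (continuous_mm 0)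
  have h0 : v0 / 2 < (mm n 0 (0 : V n × ℝ).1 (0 : V n × ℝ).2).re := by
    change v0 / 2 < (mm n 0 0 0).re
    rw [mm_zero, Complex.ofReal_re]
    linarith
  obtain ⟨δ, hδ, hδ2⟩ := Metric.eventually_nhds_iff.1 ((hc.tendsto 0).eventually_const_lt h0)
  have key : ∀ (ζ : V n) (τ : ℝ), 0 < τ → ‖mm n 0 ζ τ‖ ^ 2 = 2 * (conj (gam0 n a0 ζ τ) *
      mm n 0 ζ τ).re := by
    intro ζ τ hτ
    have h1 := hcon ζ τ hτ
    have h2 : ‖gam0 n a0 ζ τ + -(mm n 0 ζ τ)‖ ^ 2 = ‖gam0 n a0 ζ τ‖ ^ 2 -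
        2 * (conj (gam0 n a0 ζ τ) * mm n 0 ζ τ).re + ‖mm n 0 ζ τ‖ ^ 2 := by
      rw [norm_add_sq_real, Complex.inner, mul_comm (-(mm n 0 ζ τ)), mul_neg, Complex.neg_re,
        norm_neg]
      ring
    rw [h1] at h2
    linarith
  have hnorm : ∀ (ζ : V n) (τ : ℝ), ‖ζ‖ < δ → 0 < τ → τ < δ → v0 / 2 < (mm n 0 ζ τ).re := by
    intro ζ τ h1 h2 h3
    have := hδ2 (y := (ζ, τ)) (by
      rw [dist_zero_right, Prod.norm_def]
      refine max_lt h1 ?_
      simpa [abs_of_pos h2] using h3)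
    exact this
  rcases eq_or_ne a0 0 with ha | ha
  · have h1 := key 0 (δ / 2) (by positivity)
    have h2 : gam0 n a0 (0 : V n) (δ / 2) = 0 := by
      unfold gam0
      rw [ha, mul_zero]
    rw [h2, map_zero, zero_mul, Complex.zero_re, mul_zero] at h1
    have h3 := hnorm 0 (δ / 2) (by simpa using hδ) (by positivity) (by linarith)
    have h4 : mm n 0 (0 : V n) (δ / 2) = 0 := by
      rwa [sq_eq_zero_iff, norm_eq_zero] at h1
    rw [h4, Complex.zero_re] at h3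
    linarith
  · have han : 0 < ‖a0‖ := norm_pos_iff.2 ha
    set ζ1 : V n := EuclideanSpace.single ⟨0, hn⟩ (δ / 2) with hζ1
    have hζ1n : ‖ζ1‖ = δ / 2 := by
      rw [hζ1, EuclideanSpace.norm_single, Real.norm_of_nonneg (by positivity)]
    set τs := min (δ / 2) (min 1 (vn n * ‖a0‖ / v0 / 2)) with hτs
    have hτs0 : 0 < τs := by positivity
    obtain ⟨N, hN⟩ := exists_nat_gt ((δ / 2) ^ 2 / τs + 1)
    have hN1 : (1 : ℝ) < N := by
      have : 0 < (δ / 2) ^ 2 / τs := by positivity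
      linarith
    set L : ℝ := 2 * N + a0.arg / π with hL
    have harg : -1 < a0.arg / π := by
      rw [lt_div_iff₀ Real.pi_pos]
      have := Complex.neg_pi_lt_arg a0
      linarith
    have hL0 : (N : ℝ) < L := by linarith
    have hLp : 0 < L := by linarith
    set τ := (δ / 2) ^ 2 / L with hτ
    have hτ0 : 0 < τ := by positivity
    have hτle : τ < τs := by
      rw [hτ, div_lt_iff₀ hLp]
      have h1 : (δ / 2) ^ 2 / τs < L := by linarith
      rw [div_lt_iff₀ hτs0] at h1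
      linarith
    have hτδ : τ < δ / 2 := hτle.trans_le (min_le_left _ _)
    have hτ1 : τ < 1 := hτle.trans_le ((min_le_right _ _).trans (min_le_left _ _))
    have hτv : τ < vn n * ‖a0‖ / v0 / 2 :=
      hτle.trans_le ((min_le_right _ _).trans (min_le_right _ _))
    have hk := key ζ1 τ hτ0
    have hre := hnorm ζ1 τ (by rw [hζ1n]; linarith) hτ0 (by linarith)
    -- the amplitude is real
    have hA : gam0 n a0 ζ1 τ = ((vn n * τ ^ (-((n : ℝ) / 2 + 1)) * ‖a0‖ : ℝ) : ℂ) := by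
      unfold gam0 cfac
      rw [Sr_zero ζ1 hτ0, php_zero ζ1 hτ0, hζ1n]
      have h1 : (2 * π * ((-((δ / 2) ^ 2 / (2 * τ)) : ℝ) : ℂ)) * Complex.I =
          -((a0.arg : ℂ) * Complex.I) - (N : ℂ) * (2 * π * Complex.I) := by
        have h2 : 2 * π * (-((δ / 2) ^ 2 / (2 * τ))) = -a0.arg - N * (2 * π) := by
          have h3 : (δ / 2) ^ 2 / (2 * τ) = L / 2 := by
            rw [hτ]
            field_simp
          rw [h3, hL]
          have := Real.pi_ne_zero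
          field_simp
          ring
        have h4 : (2 * π * ((-((δ / 2) ^ 2 / (2 * τ)) : ℝ) : ℂ)) =
            ((2 * π * (-((δ / 2) ^ 2 / (2 * τ))) : ℝ) : ℂ) := by
          push_cast
          ring
        rw [h4, h2]
        push_cast
        ring
      rw [h1, Complex.exp_sub, Complex.exp_nat_mul_two_pi_mul_I, div_one, Complex.exp_neg]
      have h5 := Complex.norm_mul_exp_arg_mul_I a0
      have h6 : (Complex.exp ((a0.arg : ℂ) * Complex.I))⁻¹ * a0 = (‖a0‖ : ℂ) := by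
        conv_lhs => rw [← h5]
        rw [Complex.norm_mul_exp_arg_mul_I]
        have h7 : Complex.exp ((a0.arg : ℂ) * Complex.I) ≠ 0 := Complex.exp_ne_zero _
        rw [inv_mul_eq_iff_eq_mul₀ h7, mul_comm]
        exact h5.symm
      rw [mul_assoc, h6]
      push_cast
      ring
    have hApos : v0 < vn n * τ ^ (-((n : ℝ) / 2 + 1)) * ‖a0‖ := by
      have h1 : τ⁻¹ ≤ τ ^ (-((n : ℝ) / 2 + 1)) := by
        rw [← Real.rpow_neg_one]
        apply Real.rpow_le_rpow_of_exponent_ge hτ0 hτ1.le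
        have : (0 : ℝ) ≤ (n : ℝ) / 2 := by positivity
        linarith
      have h2 : v0 < vn n * τ⁻¹ * ‖a0‖ := by
        have h3 : 0 < vn n * ‖a0‖ := by positivity
        have h4 : τ < vn n * ‖a0‖ / v0 := by
          have : 0 < vn n * ‖a0‖ / v0 := by positivity
          linarith
        rw [lt_div_iff₀ hv0p] at h4
        have h5 : vn n * τ⁻¹ * ‖a0‖ = vn n * ‖a0‖ / τ := by
          field_simp
        rw [h5, lt_div_iff₀ hτ0]
        linarith
      refine h2.trans_le ?_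
      gcongr
    have hle := norm_mm_le ζ1 τ
    rw [hA, Complex.conj_ofReal, Complex.re_ofReal_mul] at hk
    have h3 : ‖mm n 0 ζ1 τ‖ ^ 2 ≤ v0 ^ 2 := pow_le_pow_left₀ (norm_nonneg _) hle 2
    have h4 : v0 * (v0 / 2) < (vn n * τ ^ (-((n : ℝ) / 2 + 1)) * ‖a0‖) * (mm n 0 ζ1 τ).re :=
      mul_lt_mul'' hApos hre hv0p.le (by positivity)
    nlinarith

theorem D_pos (hn : 1 ≤ n) {q : ℝ} (hq : 2 < q) (a0 : ℂ) :
    0 < ∫⁻ p in {p : V n × ℝ | 0 < p.2},
        ENNReal.ofReal (K q * dfc q (gam0 n a0 p.1 p.2) (-(mm n 0 p.1 p.2))) := by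
  obtain ⟨ζ, τ, hτ, hne⟩ := exists_ne hn a0
  have hK := K_pos hq.le
  have cA := cont_gam0 (n := n) a0
  have cB : ContinuousOn (fun p : V n × ℝ => -(mm n 0 p.1 p.2)) {p | 0 < p.2} :=
    (continuous_mm 0).neg.continuousOn
  set g : V n × ℝ → ℝ := fun p => K q * dfc q (gam0 n a0 p.1 p.2) (-(mm n 0 p.1 p.2)) with hg
  have c1 : ContinuousOn g {p | 0 < p.2} := continuousOn_const.mul (contOn_dfc hq.le cA cB)
  have hop : IsOpen {p : V n × ℝ | 0 < p.2} := isOpen_lt continuous_const continuous_snd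
  have hpos : 0 < g (ζ, τ) := mul_pos hK (dfc_pos hq hne)
  have hU : IsOpen ({p : V n × ℝ | 0 < p.2} ∩ g ⁻¹' Ioi (g (ζ, τ) / 2)) :=
    c1.isOpen_inter_preimage hop isOpen_Ioi
  have hUne : ({p : V n × ℝ | 0 < p.2} ∩ g ⁻¹' Ioi (g (ζ, τ) / 2)).Nonempty :=
    ⟨(ζ, τ), hτ, by
      change g (ζ, τ) / 2 < g (ζ, τ)
      linarith⟩
  have hUm := hU.measure_pos volume hUne
  calc (0 : ℝ≥0∞) < ENNReal.ofReal (g (ζ, τ) / 2) *
        volume ({p : V n × ℝ | 0 < p.2} ∩ g ⁻¹' Ioi (g (ζ, τ) / 2)) :=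
        ENNReal.mul_pos (ENNReal.ofReal_pos.2 (by positivity)).ne' hUm.ne'
    _ = ∫⁻ _ in ({p : V n × ℝ | 0 < p.2} ∩ g ⁻¹' Ioi (g (ζ, τ) / 2)),
        ENNReal.ofReal (g (ζ, τ) / 2) := by
        rw [setLIntegral_const]
    _ ≤ ∫⁻ p in ({p : V n × ℝ | 0 < p.2} ∩ g ⁻¹' Ioi (g (ζ, τ) / 2)), ENNReal.ofReal (g p) := by
        apply setLIntegral_mono' hU.measurableSet
        intro p hp
        exact ENNReal.ofReal_le_ofReal (le_of_lt hp.2)
    _ ≤ _ := lintegral_mono_set inter_subset_left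

theorem TT_gt (hn : 1 ≤ n) {q : ℝ} (hq : 2 < q) (hq' : ((n : ℝ) / 2 + 1) * (q - 2) < 1) {a0 : ℂ}
    (ha0 : Tendsto (Bal ((n : ℝ) / 2)) atTop (𝓝 a0)) :
    ENNReal.ofReal (UC n q a0 * ∫ y : V n, ww y ^ (1 + ((n : ℝ) / 2 + 1) * (q - 2))) <
      TT n q a0 := by
  rw [TT_eq hq hq' a0]
  have hW : 0 ≤ ∫ y : V n, ww y ^ (1 + ((n : ℝ) / 2 + 1) * (q - 2)) :=
    integral_nonneg fun y => Real.rpow_nonneg (ww_nonneg y) _
  have h1 := mul_le_mul_of_nonneg_right (UC_le hq ha0) hW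
  refine (ENNReal.ofReal_le_ofReal h1).trans_lt ?_
  exact lt_of_lt_of_eq (ENNReal.lt_add_right ENNReal.ofReal_ne_top (D_pos hn hq a0).ne')
    (add_comm _ _)

end Pool.Agent.H51.Maxi
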